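import Mathlib

/-!
# The character of a representation of a free group is determined by finitely many traces
-/

set_option autoImplicit false

namespace Pool.Agent.HZ

open Matrix MvPolynomial

/-- matrix entries of the generators and of their inverses, for two representations -/
abbrev FVar (r n : ℕ) : Type := Bool × (Fin n × Bool) × Fin r × Fin r

/-- the generic matrix of a letter -/
noncomputable def fgen (r n : ℕ) (s : Bool) (l : Fin n × Bool) :
    Matrix (Fin r) (Fin r) (MvPolynomial (FVar r n) ℂ) := Matrix.of fun i j => X (s, l, i, j)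

/-- the trace of a word as a polynomial -/
noncomputable def ftr (r n : ℕ) (s : Bool) (w : List (Fin n × Bool)) :
    MvPolynomial (FVar r n) ℂ := ((w.map (fgen r n s)).prod).trace

/-- the value of a letter under a representation -/
noncomputable def flet {r n : ℕ} (ρ : FreeGroup (Fin n) →* GL (Fin r) ℂ)
    (l : Fin n × Bool) : GL (Fin r) ℂ :=
  if l.2 then ρ (FreeGroup.of l.1) else (ρ (FreeGroup.of l.1))⁻¹

/-- the point of a pair of representations -/
noncomputable def fpt {r n : ℕ} (ρ₁ ρ₂ : FreeGroup (Fin n) →* GL (Fin r) ℂ) : FVar r n → ℂ :=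
  fun v => ((flet (if v.1 then ρ₁ else ρ₂) v.2.1 : GL (Fin r) ℂ) :
    Matrix (Fin r) (Fin r) ℂ) v.2.2.1 v.2.2.2

theorem flet_prod {r n : ℕ} (ρ : FreeGroup (Fin n) →* GL (Fin r) ℂ)
    (w : List (Fin n × Bool)) :
    (w.map (flet ρ)).prod = ρ (FreeGroup.mk w) := by
  induction w with
  | nil =>
    rw [List.map_nil, List.prod_nil]
    have : (FreeGroup.mk ([] : List (Fin n × Bool))) = 1 := rfl
    rw [this, map_one]
  | cons l w ih =>
    rw [List.map_cons, List.prod_cons, ih]
    have h1 : (FreeGroup.mk (l :: w)) = FreeGroup.mk [l] * FreeGroup.mk w := by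
      rw [FreeGroup.mul_mk]
      rfl
    rw [h1, map_mul]
    congr 1
    obtain ⟨q, b⟩ := l
    cases b
    · have h2 : FreeGroup.mk [(q, false)] = (FreeGroup.of q)⁻¹ := by
        unfold FreeGroup.of
        rw [FreeGroup.inv_mk]
        rfl
      rw [h2, map_inv]
      rfl
    · rfl

theorem eval_ftr {r n : ℕ} (ρ₁ ρ₂ : FreeGroup (Fin n) →* GL (Fin r) ℂ) (s : Bool)
    (w : List (Fin n × Bool)) :
    eval (fpt ρ₁ ρ₂) (ftr r n s w) =
      (((if s then ρ₁ else ρ₂) (FreeGroup.mk w) : GL (Fin r) ℂ) :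
        Matrix (Fin r) (Fin r) ℂ).trace := by
  unfold ftr
  rw [← flet_prod]
  have h1 : ∀ w : List (Fin n × Bool),
      ((eval (fpt ρ₁ ρ₂)).mapMatrix ((w.map (fgen r n s)).prod)) =
      (((w.map (flet (if s then ρ₁ else ρ₂))).prod : GL (Fin r) ℂ) :
        Matrix (Fin r) (Fin r) ℂ) := by
    intro w
    induction w with
    | nil =>
      rw [List.map_nil, List.map_nil, List.prod_nil, List.prod_nil, map_one, Units.val_one]
    | cons l w ih =>
      rw [List.map_cons, List.map_cons, List.prod_cons, List.prod_cons, map_mul, ih,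
        Units.val_mul]
      congr 1
      ext i j
      simp only [fgen, RingHom.mapMatrix_apply, Matrix.map_apply, Matrix.of_apply, eval_X, fpt]
  rw [← h1 w, RingHom.mapMatrix_apply]
  exact AddMonoidHom.map_trace (eval (fpt ρ₁ ρ₂)) _

/-- The character of a representation of a free group is determined by finitely many traces. -/
theorem exists_words (r n : ℕ) :
    ∃ s : Finset (FreeGroup (Fin n)),
      ∀ ρ₁ ρ₂ : FreeGroup (Fin n) →* GL (Fin r) ℂ,
        (∀ x ∈ s, (ρ₁ x : Matrix (Fin r) (Fin r) ℂ).trace =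
          (ρ₂ x : Matrix (Fin r) (Fin r) ℂ).trace) →
        ∀ x, (ρ₁ x : Matrix (Fin r) (Fin r) ℂ).trace =
          (ρ₂ x : Matrix (Fin r) (Fin r) ℂ).trace := by
  classical
  let f : FreeGroup (Fin n) → MvPolynomial (FVar r n) ℂ :=
    fun x => ftr r n true x.toWord - ftr r n false x.toWord
  have hf : ∀ (ρ₁ ρ₂ : FreeGroup (Fin n) →* GL (Fin r) ℂ) (x : FreeGroup (Fin n)),
      eval (fpt ρ₁ ρ₂) (f x) = (ρ₁ x : Matrix (Fin r) (Fin r) ℂ).trace -
        (ρ₂ x : Matrix (Fin r) (Fin r) ℂ).trace := by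
    intro ρ₁ ρ₂ x
    simp only [f]
    rw [map_sub, eval_ftr, eval_ftr, FreeGroup.mk_toWord]
    rfl
  obtain ⟨t, ht, hspan⟩ := Submodule.fg_span_iff_fg_span_finset_subset (f '' Set.univ) |>.1
    (IsNoetherian.noetherian (Ideal.span (f '' Set.univ)))
  obtain ⟨s, hs, hst⟩ := Finset.subset_set_image_iff.1 ht
  refine ⟨s, fun ρ₁ ρ₂ h => ?_⟩
  intro x
  have h1 : f x ∈ Submodule.span (MvPolynomial (FVar r n) ℂ) (t : Set _) := by
    rw [← hspan]
    exact Submodule.subset_span ⟨x, Set.mem_univ x, rfl⟩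
  have h2 : Submodule.span (MvPolynomial (FVar r n) ℂ) (t : Set (MvPolynomial (FVar r n) ℂ)) ≤
      RingHom.ker (eval (fpt ρ₁ ρ₂)) := by
    rw [Submodule.span_le]
    intro p hp
    rw [← hst, Finset.coe_image] at hp
    obtain ⟨y, hy, rfl⟩ := hp
    show f y ∈ RingHom.ker (eval (fpt ρ₁ ρ₂))
    rw [RingHom.mem_ker, hf, h y hy, sub_self]
  have h3 := h2 h1
  rw [RingHom.mem_ker, hf] at h3
  exact sub_eq_zero.1 h3

end Pool.Agent.HZ
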