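import Mathlib

/-!
# Powers modulo a finite normal subgroup, and matrices with equal traces of powers
-/

set_option autoImplicit false

namespace Pool.Agent.HZ

section power
variable {G : Type*} [Group G]

/-- an element normalising a finite subgroup has a power which commutes with it -/
theorem pow_comm (R : Subgroup G) [Finite R] (g : G) (hg : ∀ x ∈ R, g * x * g⁻¹ ∈ R)
    (x : G) (hx : x ∈ R) : Commute (g ^ (Nat.card R).factorial) x := by
  classical
  let f : R → R := fun x => ⟨g * x * g⁻¹, hg x x.2⟩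
  have hf : Function.Injective f := by
    intro a b hab
    have h1 : g * (a : G) * g⁻¹ = g * (b : G) * g⁻¹ := congrArg Subtype.val hab
    exact Subtype.ext (mul_left_cancel (mul_right_cancel h1))
  have hb : Function.Bijective f := Finite.injective_iff_bijective.1 hf
  let σ : Equiv.Perm R := Equiv.ofBijective f hb
  have hσ : ∀ (k : ℕ) (y : R), (((σ ^ k) y : R) : G) = g ^ k * y * (g ^ k)⁻¹ := by
    intro k
    induction k with
    | zero =>
      intro y
      simp
    | succ k ih =>
      intro y
      rw [pow_succ', Equiv.Perm.mul_apply]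
      have h1 : ((σ ((σ ^ k) y) : R) : G) = g * (((σ ^ k) y : R) : G) * g⁻¹ := rfl
      rw [h1, ih, pow_succ']
      group
  have h1 : σ ^ (Nat.card R).factorial = 1 := by
    have h2 : Nat.card (Equiv.Perm R) = (Nat.card R).factorial := Nat.card_perm
    rw [← h2]
    exact pow_card_eq_one'
  have h2 := hσ (Nat.card R).factorial ⟨x, hx⟩
  rw [h1] at h2
  have h3 : x = g ^ (Nat.card R).factorial * x * (g ^ (Nat.card R).factorial)⁻¹ := h2
  have h4 : g ^ (Nat.card R).factorial * x = x * g ^ (Nat.card R).factorial := by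
    conv_rhs => rw [h3]
    group
  exact h4

/-- powers do not see a finite normal subgroup -/
theorem pow_eq_of_coset (R : Subgroup G) [Finite R] (g h : G) (hg : ∀ x ∈ R, g * x * g⁻¹ ∈ R)
    (hh : ∀ x ∈ R, h * x * h⁻¹ ∈ R) (hgh : h * g⁻¹ ∈ R) :
    h ^ ((Nat.card R).factorial * Nat.card R) = g ^ ((Nat.card R).factorial * Nat.card R) := by
  set c := Nat.card R with hc
  have key : ∀ k : ℕ, h ^ k * (g ^ k)⁻¹ ∈ R := by
    intro k
    induction k with
    | zero => simp
    | succ k ih =>
      have e : h ^ (k + 1) * (g ^ (k + 1))⁻¹ =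
          (h * (h ^ k * (g ^ k)⁻¹) * h⁻¹) * (h * g⁻¹) := by
        rw [pow_succ' h, pow_succ' g]
        group
      rw [e]
      exact R.mul_mem (hh _ ih) hgh
  have h1 := key c.factorial
  have h2 : Commute (g ^ c.factorial) (h ^ c.factorial * (g ^ c.factorial)⁻¹) :=
    pow_comm R g hg _ h1
  have h3 : h ^ c.factorial = (h ^ c.factorial * (g ^ c.factorial)⁻¹) * g ^ c.factorial := by
    group
  have h4 : (h ^ c.factorial * (g ^ c.factorial)⁻¹) ^ c = 1 := by
    have h5 : (⟨_, h1⟩ : R) ^ Nat.card R = 1 := pow_card_eq_one'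
    exact congrArg Subtype.val h5
  rw [pow_mul, pow_mul, h3, h2.symm.mul_pow, h4, one_mul]

end power

/-! ### matrices -/

section matrix
open Matrix Polynomial
variable {r : ℕ}

/-- matrices with the same traces of powers have the same eigenvalues -/
theorem root_of_traces (A B : Matrix (Fin r) (Fin r) ℂ)
    (h : ∀ k : ℕ, (A ^ k).trace = (B ^ k).trace) (z : ℂ) (hz : A.charpoly.IsRoot z) :
    B.charpoly.IsRoot z := by
  by_contra hB
  have hq : ∀ q : ℂ[X], (aeval A q).trace = (aeval B q).trace := by
    intro q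
    induction q using Polynomial.induction_on' with
    | add p q hp hq => rw [map_add, map_add, Matrix.trace_add, Matrix.trace_add, hp, hq]
    | monomial n a =>
      rw [aeval_monomial, aeval_monomial, ← Algebra.smul_def, ← Algebra.smul_def,
        Matrix.trace_smul, Matrix.trace_smul, h]
  have hA0 : A.charpoly ≠ 0 := (charpoly_monic A).ne_zero
  obtain ⟨a, ha, hna⟩ := exists_eq_pow_rootMultiplicity_mul_and_not_dvd A.charpoly hA0 z
  set m := A.charpoly.rootMultiplicity z with hm
  have hm0 : 0 < m := (rootMultiplicity_pos hA0).2 hz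
  have hcop : IsCoprime ((X - C z) ^ m) (a * B.charpoly) := by
    refine IsCoprime.pow_left (IsCoprime.mul_right ?_ ?_)
    · exact (irreducible_X_sub_C z).coprime_iff_not_dvd.2 hna
    · refine (irreducible_X_sub_C z).coprime_iff_not_dvd.2 ?_
      rw [dvd_iff_isRoot]
      exact hB
  obtain ⟨u, v, huv⟩ := hcop
  set q := v * (a * B.charpoly) with hqdef
  have hqB : aeval B q = 0 := by
    rw [hqdef, map_mul, map_mul, aeval_self_charpoly, mul_zero, mul_zero]
  have hqA : aeval A q * aeval A q = aeval A q := by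
    have h1 : q * q = q - (v * B.charpoly * u) * A.charpoly := by
      have h2 : q = 1 - u * (X - C z) ^ m := by
        rw [← huv]
        ring
      have h3 : q * q = q - q * (u * (X - C z) ^ m) := by
        calc q * q = q * (1 - u * (X - C z) ^ m) := by rw [← h2]
          _ = q - q * (u * (X - C z) ^ m) := by ring
      rw [h3]
      conv_rhs => rw [ha]
      rw [hqdef]
      ring
    rw [← map_mul, h1, map_sub, map_mul (aeval A) (v * B.charpoly * u) A.charpoly,
      aeval_self_charpoly, mul_zero, sub_zero]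
  have htr : (aeval A q).trace = 0 := by
    rw [hq, hqB, Matrix.trace_zero]
  have hP : aeval A q = 0 := by
    have h1 : IsIdempotentElem (Matrix.toLin' (aeval A q)) :=
      (Matrix.toLin'_mul _ _).symm.trans (by rw [hqA])
    have h2 := LinearMap.IsIdempotentElem.eq_zero_of_trace_eq_zero h1 (by
      rw [Matrix.trace_toLin'_eq, htr])
    exact (Matrix.toLin'.map_eq_zero_iff).1 h2
  have h5 : q.eval z = 1 := by
    have h6 := congrArg (Polynomial.eval z) huv
    rw [eval_add, eval_mul, eval_pow, eval_sub, eval_X, eval_C, sub_self, zero_pow hm0.ne',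
      mul_zero, zero_add, eval_one] at h6
    exact h6
  have h7 : (1 : ℂ) ∈ spectrum ℂ (aeval A q) := by
    have h8 := spectrum.subset_polynomial_aeval A q
    rw [← h5]
    exact h8 ⟨z, Matrix.mem_spectrum_iff_isRoot_charpoly.2 hz, rfl⟩
  rw [hP, spectrum.mem_iff] at h7
  apply h7
  rw [map_one, sub_zero]
  exact isUnit_one

/-- the eigenvalues of a matrix one of whose powers is equal to a power of another matrix -/
theorem root_of_pow (A B : Matrix (Fin r) (Fin r) ℂ) (K : ℕ) (hK : 0 < K) (h : A ^ K = B ^ K)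
    (z : ℂ) (hz : A.charpoly.IsRoot z) : ∃ y : ℂ, B.charpoly.IsRoot y ∧ z ^ K = y ^ K := by
  have h1 : z ^ K ∈ spectrum ℂ (A ^ K) := by
    rw [spectrum.map_pow_of_pos A hK]
    exact ⟨z, Matrix.mem_spectrum_iff_isRoot_charpoly.2 hz, rfl⟩
  rw [h, spectrum.map_pow_of_pos B hK] at h1
  obtain ⟨y, hy, hyz⟩ := h1
  exact ⟨y, Matrix.mem_spectrum_iff_isRoot_charpoly.1 hy, hyz.symm⟩

/-- matrices with eigenvalues in a finite set have finitely many traces -/
theorem finite_traces_of_roots (r : ℕ) (Z : Set ℂ) (hZ : Z.Finite) :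
    {t : ℂ | ∃ U : Matrix (Fin r) (Fin r) ℂ, (∀ c : ℂ, U.charpoly.IsRoot c → c ∈ Z) ∧
      U.trace = t}.Finite := by
  have : Finite Z := hZ
  have hfin : (Set.range fun F : Fin r → Z => ∑ i, (F i : ℂ)).Finite := Set.finite_range _
  refine hfin.subset ?_
  rintro z ⟨U, hU, rfl⟩
  have hcard : U.charpoly.roots.card = r := by
    have h1 := (IsAlgClosed.splits U.charpoly).natDegree_eq_card_roots
    rw [Matrix.charpoly_natDegree_eq_dim, Fintype.card_fin] at h1
    exact h1.symm
  have htr : U.trace = U.charpoly.roots.sum :=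
    Matrix.trace_eq_sum_roots_charpoly U
  have hroot : ∀ c ∈ U.charpoly.roots, c ∈ Z := fun c hc =>
    hU c (Polynomial.isRoot_of_mem_roots hc)
  obtain ⟨l, hl⟩ := Quot.exists_rep U.charpoly.roots
  have hl' : (l : Multiset ℂ) = U.charpoly.roots := hl
  have hlen : l.length = r := by
    rw [← hcard, ← hl', Multiset.coe_card]
  subst hlen
  refine ⟨fun i => ⟨l.get i, hroot _ (by rw [← hl']; exact List.get_mem l i)⟩, ?_⟩
  simp only
  rw [htr, ← hl', Multiset.sum_coe, ← List.sum_ofFn, List.ofFn_get]

/-- the numbers one of whose powers is the power of a number of a finite set -/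
theorem finite_pow_eq (T : Set ℂ) (hT : T.Finite) (K : ℕ) (hK : 0 < K) :
    {z : ℂ | ∃ y ∈ T, z ^ K = y ^ K}.Finite := by
  classical
  have h1 : {z : ℂ | ∃ y ∈ T, z ^ K = y ^ K} =
      ⋃ y ∈ T, {z : ℂ | z ^ K = y ^ K} := by
    ext z
    simp
  rw [h1]
  refine hT.biUnion fun y _ => ?_
  refine ((Polynomial.nthRoots K (y ^ K)).toFinset.finite_toSet).subset ?_
  intro z hz
  rw [Finset.mem_coe, Multiset.mem_toFinset, Polynomial.mem_nthRoots hK]
  exact hz

end matrix

end Pool.Agent.HZ
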