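import Pool.Agent.HZ.Crd

/-!
# The spectral meaning of the escape functions
-/

set_option autoImplicit false

namespace Pool.Agent.HZ

open Helper12.Sc Matrix Module Polynomial

variable {r : ℕ}

theorem eval_zero_of_pow (u v w : Matrix (Fin r) (Fin r) ℂ) (n : ℕ) (h : (Emat u v w) ^ n = 0)
    (z : ℂ) (hz : u.charpoly.IsRoot z) : (Spoly v w).eval (z ^ 4) = 0 := by
  obtain ⟨x, hx0, hx⟩ := exists_eigenvector u z hz
  have h4 : (u ^ 4) *ᵥ x = (z ^ 4) • x := by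
    have := aeval_mulVec u z x hx (X ^ 4)
    simpa using this
  have h5 : Emat u v w *ᵥ x = ((Spoly v w).eval (z ^ 4)) • x :=
    aeval_mulVec (u ^ 4) (z ^ 4) x h4 (Spoly v w)
  have h6 : ∀ n : ℕ, (Emat u v w) ^ n *ᵥ x = ((Spoly v w).eval (z ^ 4)) ^ n • x := by
    intro n
    induction n with
    | zero => simp
    | succ n ih =>
      rw [pow_succ, ← Matrix.mulVec_mulVec, h5, Matrix.mulVec_smul, ih, smul_smul]
      congr 1
      rw [pow_succ (eval (z ^ 4) (Spoly v w)) n, mul_comm]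
  have h7 := h6 n
  rw [h, Matrix.zero_mulVec] at h7
  rcases smul_eq_zero.1 h7.symm with h8 | h8
  · exact eq_zero_of_pow_eq_zero h8
  · exact absurd h8 hx0

theorem root_of_unity_of_S (σ σ' : RingAut ℂ)
    (hfin : ∀ z : ℂ, {w | ∃ τ ∈ Subgroup.closure ({σ, σ'} : Set (RingAut ℂ)), w = τ z}.Finite)
    (u : Matrix (Fin r) (Fin r) ℂ) (hdet : u.det ≠ 0)
    (h : ∀ y, u.charpoly.IsRoot y → (Spoly (u.map σ) (u.map σ')).eval (y ^ 4) = 0)
    (z : ℂ) (hz : u.charpoly.IsRoot z) : ∃ n > 0, z ^ n = 1 := by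
  classical
  have hne : ∀ y, u.charpoly.IsRoot y → y ≠ 0 := by
    rintro y hy rfl
    obtain ⟨x, hx0, hx⟩ := exists_eigenvector u 0 hy
    rw [zero_smul] at hx
    exact hdet (Matrix.exists_mulVec_eq_zero_iff.1 ⟨x, hx0, hx⟩)
  by_contra hcon
  push Not at hcon
  obtain ⟨c, hc, hcz⟩ := exists_log z (hne z hz) hcon
  -- the finite set of conjugates
  let Λ : Set ℂ := ⋃ y ∈ u.charpoly.roots.toFinset,
    {w | ∃ τ ∈ Subgroup.closure ({σ, σ'} : Set (RingAut ℂ)), w = τ y}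
  have hΛ : Λ.Finite := Set.Finite.biUnion (Finset.finite_toSet _) (fun y _ => hfin y)
  have hroots : ∀ y, y ∈ u.charpoly.roots.toFinset ↔ u.charpoly.IsRoot y := by
    intro y
    rw [Multiset.mem_toFinset, mem_roots (Matrix.charpoly_monic u).ne_zero]
  have hmem : ∀ y, u.charpoly.IsRoot y → ∀ τ ∈ Subgroup.closure ({σ, σ'} : Set (RingAut ℂ)),
      τ y ∈ Λ := by
    intro y hy τ hτ
    simp only [Λ, Set.mem_iUnion]
    exact ⟨y, (hroots y).2 hy, τ, hτ, rfl⟩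
  have hσ : σ ∈ Subgroup.closure ({σ, σ'} : Set (RingAut ℂ)) :=
    Subgroup.subset_closure (Set.mem_insert _ _)
  have hσ' : σ' ∈ Subgroup.closure ({σ, σ'} : Set (RingAut ℂ)) :=
    Subgroup.subset_closure (Set.mem_insert_of_mem _ rfl)
  have hzΛ : z ∈ Λ := hmem z hz 1 (Subgroup.one_mem _)
  obtain ⟨w, hwΛ, hwmax⟩ := Set.exists_max_image Λ (fun w => |c w|) hΛ ⟨z, hzΛ⟩
  have hw1 : 1 ≤ |c w| := by
    have := hwmax z hzΛ
    rw [hcz, abs_one] at this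
    exact this
  simp only [Λ, Set.mem_iUnion] at hwΛ
  obtain ⟨y, hy, τ, hτ, rfl⟩ := hwΛ
  rw [hroots] at hy
  have hS := h y hy
  have hy0 := hne y hy
  obtain ⟨μ, hμ, hν⟩ := exists_of_Spoly_eval_eq_zero (u.map σ) (u.map σ') (y ^ 4)
    (pow_ne_zero _ hy0) hS
  obtain ⟨y1, hy1, rfl⟩ := root_map' σ u μ hμ
  obtain ⟨y2, hy2, hy2'⟩ := root_map' σ' u _ hν
  have h1 : τ (σ y1) ∈ Λ := hmem y1 hy1 (τ * σ) (Subgroup.mul_mem _ hτ hσ)
  have h2 : τ (σ' y2) ∈ Λ := hmem y2 hy2 (τ * σ') (Subgroup.mul_mem _ hτ hσ')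
  have hτ0 : ∀ x : ℂ, x ≠ 0 → τ x ≠ 0 := fun x hx => (map_ne_zero_iff τ τ.injective).2 hx
  have hσy1 : σ y1 ≠ 0 := (map_ne_zero_iff σ σ.injective).2 (hne y1 hy1)
  have h3 : τ (σ' y2) = (τ y) ^ 4 * τ (σ y1) := by
    rw [← hy2', map_mul, map_pow]
  have hcpow : ∀ x : ℂ, x ≠ 0 → c (x ^ 4) = 4 * c x := by
    intro x hx
    have e1 : c (x ^ 4) = c (x * x * (x * x)) := by congr 1; ring
    rw [e1, hc _ _ (mul_ne_zero hx hx) (mul_ne_zero hx hx), hc _ _ hx hx]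
    ring
  have h4 : c (τ (σ' y2)) = 4 * c (τ y) + c (τ (σ y1)) := by
    rw [h3, hc _ _ (pow_ne_zero _ (hτ0 y hy0)) (hτ0 _ hσy1), hcpow _ (hτ0 y hy0)]
  have h5 := hwmax _ h1
  have h6 := hwmax _ h2
  have h7 : |4 * c (τ y)| ≤ |c (τ (σ' y2))| + |c (τ (σ y1))| := by
    have : 4 * c (τ y) = c (τ (σ' y2)) - c (τ (σ y1)) := by linarith
    rw [this]
    exact abs_sub _ _
  rw [abs_mul, abs_of_pos (by norm_num : (0 : ℚ) < 4)] at h7
  linarith

/-- If the escape functions vanish the eigenvalues are roots of unity. -/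
theorem root_of_Es (σ σ' : RingAut ℂ)
    (hfin : ∀ z : ℂ, {w | ∃ τ ∈ Subgroup.closure ({σ, σ'} : Set (RingAut ℂ)), w = τ z}.Finite)
    (g : GL (Fin r) ℂ) (h : ∀ i j, Es σ σ' i j g = 0) (z : ℂ)
    (hz : (g : Matrix (Fin r) (Fin r) ℂ).charpoly.IsRoot z) : ∃ n > 0, z ^ n = 1 := by
  refine root_of_unity_of_S σ σ' hfin (g : Matrix (Fin r) (Fin r) ℂ) ?_ ?_ z hz
  · have : IsUnit (g : Matrix (Fin r) (Fin r) ℂ) := g.isUnit
    exact ((Matrix.isUnit_iff_isUnit_det _).1 this).ne_zero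
  · intro y hy
    refine eval_zero_of_pow _ _ _ r ?_ y hy
    ext i j
    rw [Matrix.zero_apply]
    exact h i j

/-- a common exponent for the roots of unity among the eigenvalues -/
theorem exists_exponent (Γ : Subgroup (GL (Fin r) ℂ)) (hΓ : Γ.FG) :
    ∃ M > 0, ∀ h ∈ Γ, ∀ z : ℂ, (h : Matrix (Fin r) (Fin r) ℂ).charpoly.IsRoot z →
      (∃ n > 0, z ^ n = 1) → z ^ M = 1 := by
  obtain ⟨F, _, _, ρ, hρ⟩ := exists_finite_quotient r Γ hΓ
  refine ⟨Nat.card F, Nat.card_pos, ?_⟩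
  rintro h hh z hz ⟨n, hn, hzn⟩
  refine hρ (⟨h, hh⟩ ^ Nat.card F) ?_ (z ^ Nat.card F) ?_ n hn ?_
  · rw [map_pow, pow_card_eq_one']
  · have := isRoot_pow hz (Nat.card F)
    simpa using this
  · rw [← pow_mul, mul_comm, pow_mul, hzn, one_pow]

end Pool.Agent.HZ
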