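import Pool.Agent.HZ.ClfL

/-!
# Clifford theory for local systems on punctured discs: decided cases
-/

set_option autoImplicit false

namespace Pool.Agent.HZ

open Module Matrix
open scoped Kronecker

variable {r : ℕ}

open Classical in
/-- **The structure of irreducible local systems on punctured discs** whose simple loops have only
roots of unity as eigenvalues, with the cases in which the image is virtually abelian. -/
theorem clf_thm (r : ℕ) (hr : 0 < r) : ∃ N : ℕ, ∀ (n : ℕ)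
    (ρ : FreeGroup (Fin n) →* GL (Fin r) ℂ), (∀ γ, IsSimpleLoop γ → Quasi (ρ γ)) →
    Irr ρ.range →
    ((N < (Finset.univ.filter fun i => ∃ z : ℂ, (finrank ℂ (Module.End.eigenspace
        (Matrix.mulVecLin (ρ (FreeGroup.of i) : Matrix (Fin r) (Fin r) ℂ)) z)).Coprime r).card ∨
      (r.Prime ∧ N < (Finset.univ.filter fun i => ∀ z : ℂ,
        (ρ (FreeGroup.of i) : Matrix (Fin r) (Fin r) ℂ) ≠ z • 1).card)) → VirtAb ρ.range) ∧
    ∃ (S : Finset (Fin n)) (H : Subgroup (FreeGroup (Fin n))) (d e : ℕ) (α : H →* GL (Fin d) ℂ)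
      (β : H →* GL (Fin e) ℂ),
      S.card ≤ N ∧ IndTensor ρ H β α ∧ Finite α.range ∧
      Subgroup.normalClosure {x | ∃ i ∉ S, x = FreeGroup.of i} ≤ β.ker.map H.subtype ∧
      (∀ (h : H) (g γ : FreeGroup (Fin n)) (k : ℕ), IsSimpleLoop γ →
        (h : FreeGroup (Fin n)) = g * γ ^ k * g⁻¹ → Quasi (β h)) ∧
      (∀ i ∉ S, ∀ z : ℂ, e ∣ finrank ℂ (Module.End.eigenspace
        (Matrix.mulVecLin (ρ (FreeGroup.of i) : Matrix (Fin r) (Fin r) ℂ)) z)) ∧
      (N < (Finset.univ.filter fun i => ∀ z : ℂ,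
        (ρ (FreeGroup.of i) : Matrix (Fin r) (Fin r) ℂ) ≠ z • 1).card → 2 * e ≤ r) := by
  obtain ⟨N, hN⟩ := clf_final r hr
  refine ⟨N, ?_⟩
  intro n ρ hρ hirr
  obtain ⟨S, H, d, e, α, β, h1, h2, h3, h4, h5, h6, h7, h8⟩ := hN n ρ hρ hirr
  refine ⟨?_, S, H, d, e, α, β, h1, h2, h3, h4, h5, h6, h7⟩
  intro hc
  apply h8
  have hdvd : e ∣ r := by
    rw [← h2.1]
    exact Dvd.dvd.mul_left (Dvd.intro _ rfl) _
  rcases hc with hc | ⟨hp, hc⟩
  · obtain ⟨i, hi, hiS⟩ := Finset.exists_mem_notMem_of_card_lt_card (lt_of_le_of_lt h1 hc)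
    rw [Finset.mem_filter] at hi
    obtain ⟨z, hz⟩ := hi.2
    have h9 := Nat.dvd_gcd (h6 i hiS z) hdvd
    rw [hz] at h9
    exact Nat.dvd_one.1 h9
  · rcases (Nat.dvd_prime hp).1 hdvd with h9 | h9
    · exact h9
    · exfalso
      have h10 := h7 hc
      omega

end Pool.Agent.HZ
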