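import Pool.Agent.HZ.RedA
import Pool.Agent.HZ.RedB
import Pool.Agent.HZ.RedC

/-!
# Finiteness of the braid group orbit of a character: reduction to the generators outside a finite
normal subgroup
-/

set_option autoImplicit false

namespace Pool.Agent.HZ

open Matrix

variable {r : ℕ}

/-- the restriction of a character with finite orbit to the free group on a set of the generators
has a finite orbit -/
theorem finOrb_inc {n : ℕ} (ρ : FreeGroup (Fin n) →* GL (Fin r) ℂ) (S : Finset (Fin n))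
    (h : FinOrb ρ) : FinOrb (ρ.comp (inc S)) := by
  classical
  have hsub : ((std S.card).map (inc S)).Sublist (std n) := by
    rw [std_inc, std, sort_eq_filter]
    exact List.filter_sublist.map _
  obtain ⟨B, hB⟩ := Pre.sublist hsub
  have hm : S.card ≤ n := by
    have := S.card_le_univ
    rwa [Fintype.card_fin] at this
  let ι : FreeGroup (Fin S.card) →* FreeGroup (Fin n) := FreeGroup.map (Fin.castLE hm)
  have key : ∀ β' : FreeGroup (Fin S.card) →* FreeGroup (Fin S.card), IsBraid β' →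
      ∃ β : FreeGroup (Fin n) →* FreeGroup (Fin n), IsBraid β ∧
        ∀ w, β (ι w) = inc S (β' w) := by
    intro β' hβ'
    have h1 : BReach (std n) (((std S.card).map β').map (inc S) ++ B) :=
      hB.trans ((BReach.map (inc S) hβ').append_right B)
    obtain ⟨β, hβ, hL⟩ := exists_braid h1
    refine ⟨β, hβ, ?_⟩
    have h2 : β.comp ι = (inc S).comp β' := by
      refine FreeGroup.ext_hom _ _ fun i => ?_
      rw [List.map_map, std_map', std, List.map_map] at hL
      have h3 : (List.ofFn fun i => β (FreeGroup.of i))[(i : ℕ)]? =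
          (List.map ((⇑(inc S) ∘ ⇑β') ∘ FreeGroup.of) (List.finRange S.card) ++ B)[(i : ℕ)]? := by
        rw [hL]
      have hi : (i : ℕ) < n := lt_of_lt_of_le i.2 hm
      rw [List.getElem?_append_left (by simp)] at h3
      have h4 : β (FreeGroup.of (⟨i, hi⟩ : Fin n)) = inc S (β' (FreeGroup.of i)) := by
        simpa [hi] using h3
      rw [MonoidHom.comp_apply, MonoidHom.comp_apply, ← h4]
      simp only [ι, FreeGroup.map.of]
      rfl
    intro w
    exact DFunLike.congr_fun h2 w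
  have himg := h.image (fun (χ : FreeGroup (Fin n) → ℂ) (w : FreeGroup (Fin S.card)) => χ (ι w))
  refine himg.subset ?_
  rintro _ ⟨β', hβ', rfl⟩
  obtain ⟨β, hβ, hβw⟩ := key β' hβ'
  refine ⟨_, ⟨β, hβ, rfl⟩, ?_⟩
  funext w
  simp only [hβw, MonoidHom.comp_apply]

/-- **Reduction.** -/
theorem finOrb_of_inc {n : ℕ} (ρ : FreeGroup (Fin n) →* GL (Fin r) ℂ)
    (H : Subgroup (GL (Fin r) ℂ)) [Finite H] (hnorm : ∀ γ ∈ ρ.range, ∀ h ∈ H, γ * h * γ⁻¹ ∈ H)
    (S : Finset (Fin n)) (hS : ∀ i, i ∈ S ↔ ρ (FreeGroup.of i) ∉ H)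
    (h : FinOrb (ρ.comp (inc S))) : FinOrb ρ := by
  classical
  -- the quotient
  have hn : (H.comap ρ).Normal := by
    refine ⟨fun x hx y => ?_⟩
    rw [Subgroup.mem_comap] at hx ⊢
    rw [map_mul, map_mul, map_inv]
    exact hnorm _ ⟨y, rfl⟩ _ hx
  let f : FreeGroup (Fin n) →* FreeGroup (Fin n) ⧸ H.comap ρ := QuotientGroup.mk' _
  have hf1 : ∀ x, f x = 1 ↔ ρ x ∈ H := by
    intro x
    rw [← Subgroup.mem_comap]
    exact QuotientGroup.eq_one_iff x
  have hSf : ∀ i, i ∈ S ↔ f (FreeGroup.of i) ≠ 1 := by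
    intro i
    rw [hS, Ne, hf1]
  set K : ℕ := (Nat.card H).factorial * Nat.card H with hK
  have hK0 : 0 < K := Nat.mul_pos (Nat.factorial_pos _) Nat.card_pos
  have hpow : ∀ x y, f x = f y →
      (ρ x : Matrix (Fin r) (Fin r) ℂ) ^ K = (ρ y : Matrix (Fin r) (Fin r) ℂ) ^ K := by
    intro x y hxy
    have h1 : ρ x * (ρ y)⁻¹ ∈ H := by
      rw [← map_inv, ← map_mul, ← hf1, map_mul, map_inv, hxy, mul_inv_cancel]
    have h2 := pow_eq_of_coset H (ρ y) (ρ x) (hnorm _ ⟨y, rfl⟩) (hnorm _ ⟨x, rfl⟩) h1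
    have h3 := congrArg (fun g : GL (Fin r) ℂ => (g : Matrix (Fin r) (Fin r) ℂ)) h2
    simpa only [Units.val_pow_eq_pow_val] using h3
  -- the orbit of the restriction
  set O : Set (FreeGroup (Fin S.card) → ℂ) :=
    {χ | ∃ β : FreeGroup (Fin S.card) →* FreeGroup (Fin S.card), IsBraid β ∧
      χ = fun γ => ((ρ.comp (inc S)) (β γ) : Matrix (Fin r) (Fin r) ℂ).trace} with hO
  have hOfin : Finite O := h
  have hchoice : ∀ χ : O, ∃ β : FreeGroup (Fin S.card) →* FreeGroup (Fin S.card), IsBraid β ∧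
      (χ : FreeGroup (Fin S.card) → ℂ) =
        fun γ => ((ρ.comp (inc S)) (β γ) : Matrix (Fin r) (Fin r) ℂ).trace := fun χ => χ.2
  choose b _ hb using hchoice
  -- the possible eigenvalues
  let Z : FreeGroup (Fin n) → Set ℂ := fun w =>
    ⋃ χ : O, ⋃ κ : Fin n → Option (Fin S.card),
      {z : ℂ | ∃ y ∈ {y : ℂ | (ρ (inc S (b χ (pat κ w))) :
        Matrix (Fin r) (Fin r) ℂ).charpoly.IsRoot y}, z ^ K = y ^ K}
  have hZ : ∀ w, (Z w).Finite := by
    intro w
    refine Set.finite_iUnion fun χ => Set.finite_iUnion fun κ => ?_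
    refine finite_pow_eq _ ?_ K hK0
    refine ((Multiset.toFinset (Matrix.charpoly (ρ (inc S (b χ (pat κ w))) :
      Matrix (Fin r) (Fin r) ℂ)).roots).finite_toSet).subset ?_
    intro y hy
    rw [Finset.mem_coe, Multiset.mem_toFinset, Polynomial.mem_roots (charpoly_monic _).ne_zero]
    exact hy
  have hroots : ∀ (β : FreeGroup (Fin n) →* FreeGroup (Fin n)), IsBraid β → ∀ (w) (z : ℂ),
      (ρ (β w) : Matrix (Fin r) (Fin r) ℂ).charpoly.IsRoot z → z ∈ Z w := by
    intro β hβ w z hz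
    obtain ⟨β', hβ', κ, hκ⟩ := exists_pattern f S hSf β hβ
    obtain ⟨y, hy, hzy⟩ := root_of_pow _ _ K hK0 (hpow _ _ (hκ w)) z hz
    let χ : O := ⟨_, β', hβ', rfl⟩
    refine Set.mem_iUnion.2 ⟨χ, Set.mem_iUnion.2 ⟨κ, y, ?_, hzy⟩⟩
    refine root_of_traces _ _ (fun k => ?_) y hy
    have h1 := congrFun (hb χ) ((pat κ w) ^ k)
    have h2 : (χ : FreeGroup (Fin S.card) → ℂ) ((pat κ w) ^ k) =
      ((ρ.comp (inc S)) (β' ((pat κ w) ^ k)) : Matrix (Fin r) (Fin r) ℂ).trace := rfl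
    rw [h2] at h1
    simpa only [map_pow, Units.val_pow_eq_pow_val, MonoidHom.comp_apply] using h1
  -- finitely many words
  obtain ⟨s, hs⟩ := exists_words r n
  let T : FreeGroup (Fin n) → Set ℂ := fun w =>
    {t : ℂ | ∃ U : Matrix (Fin r) (Fin r) ℂ, (∀ c : ℂ, U.charpoly.IsRoot c → c ∈ Z w) ∧
      U.trace = t}
  have hT : ∀ w, (T w).Finite := fun w => finite_traces_of_roots r (Z w) (hZ w)
  have hfin : (Set.univ.pi fun x : s => T x).Finite := Set.Finite.pi fun x => hT x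
  refine Set.Finite.of_finite_image (f := fun (χ : FreeGroup (Fin n) → ℂ) (x : s) => χ x)
    (hfin.subset ?_) ?_
  · rintro _ ⟨_, ⟨β, hβ, rfl⟩, rfl⟩ x _
    exact ⟨_, fun c hc => hroots β hβ x c hc, rfl⟩
  · rintro _ ⟨β, hβ, rfl⟩ _ ⟨β', hβ', rfl⟩ h1
    funext x
    exact hs (ρ.comp β) (ρ.comp β') (fun y hy => congrFun h1 ⟨y, hy⟩) x

end Pool.Agent.HZ
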