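import Pool.Agent.HZ.Main

/-!
# Braid group orbits and trivial entries

Entries equal to one do not matter for the braid moves.  For a homomorphism `f` of the free group of
rank `n` to a group and the set `S` of the generators which are not in the kernel of `f`: modulo the
kernel every braid of the free group of rank `n` is given by a braid of the free group on `S` and a
pattern.
-/

set_option autoImplicit false

namespace Pool.Agent.HZ

section filter
variable {G : Type*} [Group G]

open Classical in
/-- the entries different from one -/
noncomputable def nt (L : List G) : List G := L.filter fun x => decide (x ≠ 1)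

theorem nt_append (L M : List G) : nt (L ++ M) = nt L ++ nt M := List.filter_append ..

theorem nt_one (L : List G) : nt (1 :: L) = nt L := by
  simp [nt]

theorem nt_ne {a : G} (h : a ≠ 1) (L : List G) : nt (a :: L) = a :: nt L := by
  simp [nt, h]

theorem nt_all {L : List G} (h : ∀ x ∈ L, x ≠ 1) : nt L = L := by
  rw [nt, List.filter_eq_self]
  intro x hx
  simpa using h x hx

theorem nt_move {L L' : List G} (h : BMove L L') : BReach (nt L) (nt L') := by
  cases h with
  | r P S a b =>
    rw [nt_append, nt_append]
    by_cases ha : a = 1
    · subst ha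
      have e : b⁻¹ * 1 * b = 1 := by group
      rw [e]
      by_cases hb : b = 1
      · subst hb
        exact BReach.refl _
      · rw [nt_one, nt_ne hb, nt_ne hb, nt_one]
        exact BReach.refl _
    · by_cases hb : b = 1
      · subst hb
        have e : (1 : G)⁻¹ * a * 1 = a := by group
        rw [e, nt_one, nt_ne ha, nt_ne ha, nt_one]
        exact BReach.refl _
      · have e : b⁻¹ * a * b ≠ 1 := by
          intro h
          apply ha
          have h1 : a = b * (b⁻¹ * a * b) * b⁻¹ := by group
          rw [h1, h]
          group
        rw [nt_ne ha, nt_ne hb, nt_ne hb, nt_ne e]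
        exact BReach.of_move (BMove.r _ _ _ _)
  | l P S a b =>
    rw [nt_append, nt_append]
    by_cases hb : b = 1
    · subst hb
      have e : a * 1 * a⁻¹ = 1 := by group
      rw [e]
      by_cases ha : a = 1
      · subst ha
        exact BReach.refl _
      · rw [nt_one, nt_ne ha, nt_ne ha, nt_one]
        exact BReach.refl _
    · by_cases ha : a = 1
      · subst ha
        have e : (1 : G) * b * 1⁻¹ = b := by group
        rw [e, nt_one, nt_ne hb, nt_ne hb, nt_one]
        exact BReach.refl _
      · have e : a * b * a⁻¹ ≠ 1 := by
          intro h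
          apply hb
          have h1 : b = a⁻¹ * (a * b * a⁻¹) * a := by group
          rw [h1, h]
          group
        rw [nt_ne ha, nt_ne hb, nt_ne e, nt_ne ha]
        exact BReach.of_move (BMove.l _ _ _ _)

/-- entries equal to one do not matter -/
theorem nt_reach {L L' : List G} (h : BReach L L') : BReach (nt L) (nt L') := by
  induction h with
  | refl => exact BReach.refl _
  | tail _ hs ih => exact ih.trans (nt_move hs)

end filter

/-! ### braids as endomorphisms of the free group -/

theorem std_length (n : ℕ) : (std n).length = n := by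
  simp [std]

theorem std_map {n : ℕ} {G : Type*} [Group G] (f : FreeGroup (Fin n) →* G) :
    (std n).map f = (List.finRange n).map fun i => f (FreeGroup.of i) := by
  simp [std, Function.comp_def]

theorem std_map' {n : ℕ} {G : Type*} [Group G] (f : FreeGroup (Fin n) →* G) :
    (std n).map f = List.ofFn fun i => f (FreeGroup.of i) := by
  rw [std_map, List.ofFn_eq_map]

/-- every list of the right length is the list of the images of the generators -/
theorem exists_hom {n : ℕ} {G : Type*} [Group G] (L : List G) (hL : L.length = n) :
    ∃ β : FreeGroup (Fin n) →* G, (std n).map β = L := by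
  subst hL
  refine ⟨FreeGroup.lift L.get, ?_⟩
  rw [std_map']
  simp only [FreeGroup.lift_apply_of]
  exact List.ofFn_get L

/-- every list in the orbit is given by a braid -/
theorem exists_braid {n : ℕ} {L : List (FreeGroup (Fin n))} (h : BReach (std n) L) :
    ∃ β : FreeGroup (Fin n) →* FreeGroup (Fin n), IsBraid β ∧ (std n).map β = L := by
  obtain ⟨β, hβ⟩ := exists_hom L (h.length_eq.trans (std_length n))
  refine ⟨β, ?_, hβ⟩
  unfold IsBraid
  rw [hβ]
  exact h

theorem isBraid_id (n : ℕ) : IsBraid (MonoidHom.id (FreeGroup (Fin n))) := by
  unfold IsBraid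
  have : (std n).map (MonoidHom.id (FreeGroup (Fin n))) = std n := by simp
  rw [this]
  exact BReach.refl _

/-! ### the generators outside the kernel -/

theorem std_inc {n : ℕ} (S : Finset (Fin n)) :
    (std S.card).map (inc S) = (S.sort).map FreeGroup.of := by
  rw [std_map, ← Finset.listMap_orderEmbOfFin_finRange S rfl, List.map_map]
  refine List.map_congr_left fun i _ => ?_
  simp [inc]

theorem sort_eq_filter {n : ℕ} (S : Finset (Fin n)) :
    S.sort = (List.finRange n).filter fun i => decide (i ∈ S) := by
  apply (Finset.sortedLT_sort S).eq_of_mem_iff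
  · rw [List.sortedLT_iff_pairwise]
    exact (List.sortedLT_iff_pairwise.1 (List.sortedLT_finRange n)).filter _
  · intro i
    simp

/-- the entries which are not one of the images of the generators -/
theorem nt_std {n : ℕ} {Q : Type*} [Group Q] (f : FreeGroup (Fin n) →* Q) (S : Finset (Fin n))
    (hS : ∀ i, i ∈ S ↔ f (FreeGroup.of i) ≠ 1) :
    nt ((std n).map f) = ((std S.card).map (inc S)).map f := by
  classical
  rw [std_inc, std_map, nt, List.filter_map, sort_eq_filter, List.map_map]
  congr 1
  refine List.filter_congr fun i _ => ?_
  simp [hS]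

/-- the map of free groups given by a pattern -/
noncomputable def pat {n m : ℕ} (κ : Fin n → Option (Fin m)) :
    FreeGroup (Fin n) →* FreeGroup (Fin m) :=
  FreeGroup.lift fun i => (κ i).elim 1 FreeGroup.of

theorem pat_of {n m : ℕ} (κ : Fin n → Option (Fin m)) (i : Fin n) :
    pat κ (FreeGroup.of i) = (κ i).elim 1 FreeGroup.of := by
  simp [pat]

/-- Modulo the kernel of `f` every braid is given by a braid of the generators outside the kernel
and a pattern. -/
theorem exists_pattern {n : ℕ} {Q : Type*} [Group Q] (f : FreeGroup (Fin n) →* Q)
    (S : Finset (Fin n)) (hS : ∀ i, i ∈ S ↔ f (FreeGroup.of i) ≠ 1)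
    (β : FreeGroup (Fin n) →* FreeGroup (Fin n)) (hβ : IsBraid β) :
    ∃ β' : FreeGroup (Fin S.card) →* FreeGroup (Fin S.card), IsBraid β' ∧
      ∃ κ : Fin n → Option (Fin S.card), ∀ w, f (β w) = f (inc S (β' (pat κ w))) := by
  classical
  have h1 := nt_reach (hβ.map f)
  rw [nt_std f S hS] at h1
  have h2 : BReach ((std S.card).map (f.comp (inc S))) (nt (((std n).map β).map f)) := by
    have e : (std S.card).map (f.comp (inc S)) = ((std S.card).map (inc S)).map f := by
      rw [List.map_map]
      rfl
    rw [e]
    exact h1
  obtain ⟨L', h3, h4⟩ := h2.lift (f.comp (inc S))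
  obtain ⟨β', hβ', hL'⟩ := exists_braid h3
  refine ⟨β', hβ', ?_⟩
  have key : ∀ i : Fin n, ∃ k : Option (Fin S.card),
      f (β (FreeGroup.of i)) = k.elim 1 fun j => f (inc S (β' (FreeGroup.of j))) := by
    intro i
    by_cases hi : f (β (FreeGroup.of i)) = 1
    · exact ⟨none, hi⟩
    · have h5 : f (β (FreeGroup.of i)) ∈ nt (((std n).map β).map f) := by
        rw [nt, List.mem_filter]
        refine ⟨?_, by simpa using hi⟩
        rw [List.map_map, List.mem_map]
        exact ⟨FreeGroup.of i, by simp [std], rfl⟩
      rw [← h4, ← hL', List.map_map, List.mem_map] at h5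
      obtain ⟨x, hx, hx'⟩ := h5
      rw [std, List.mem_map] at hx
      obtain ⟨j, _, rfl⟩ := hx
      exact ⟨some j, hx'.symm⟩
  choose κ hκ using key
  refine ⟨κ, ?_⟩
  have h6 : f.comp β = ((f.comp (inc S)).comp β').comp (pat κ) := by
    refine FreeGroup.ext_hom _ _ fun i => ?_
    simp only [MonoidHom.comp_apply]
    rw [hκ i, pat_of]
    cases κ i with
    | none => simp
    | some j => rfl
  intro w
  exact DFunLike.congr_fun h6 w

end Pool.Agent.HZ
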