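import Pool.Agent.HZ.Final

/-!
# Semisimplification

Every complex representation of a group has the same character as a completely reducible one.
-/

set_option autoImplicit false

namespace Pool.Agent.HZ

open Matrix Module

/-- the trace is additive on a stable subspace and the quotient -/
theorem trace_sub_quot {V : Type} [AddCommGroup V] [Module ℂ V] [FiniteDimensional ℂ V]
    (W : Submodule ℂ V) (f : Module.End ℂ V) (hf : W ≤ W.comap f) :
    LinearMap.trace ℂ V f = LinearMap.trace ℂ W (f.restrict hf) +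
      LinearMap.trace ℂ (V ⧸ W) (W.mapQ W f hf) := by
  obtain ⟨p, hp⟩ := LinearMap.exists_leftInverse_of_injective W.subtype W.ker_subtype
  have hpw : ∀ w : W, p (w : V) = w := fun w => DFunLike.congr_fun hp w
  have hker : W ≤ LinearMap.ker (LinearMap.id - W.subtype ∘ₗ p) := by
    intro w hw
    rw [LinearMap.mem_ker]
    simp only [LinearMap.sub_apply, LinearMap.id_apply, LinearMap.comp_apply,
      Submodule.subtype_apply]
    rw [hpw ⟨w, hw⟩, sub_self]
  let s : (V ⧸ W) →ₗ[ℂ] V := W.liftQ (LinearMap.id - W.subtype ∘ₗ p) hker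
  have hs : ∀ v : V, s (W.mkQ v) = v - (p v : V) := fun v => rfl
  have h1 : f = W.subtype ∘ₗ (p ∘ₗ f) + s ∘ₗ (W.mkQ ∘ₗ f) := by
    ext v
    simp only [LinearMap.add_apply, LinearMap.comp_apply, Submodule.subtype_apply]
    rw [hs]
    abel
  have h2 : (p ∘ₗ f) ∘ₗ W.subtype = f.restrict hf := by
    ext w
    simp only [LinearMap.comp_apply, Submodule.subtype_apply]
    rw [hpw ⟨f w, hf w.2⟩]
    rfl
  have h3 : (W.mkQ ∘ₗ f) ∘ₗ s = W.mapQ W f hf := by
    apply Submodule.linearMap_qext
    ext v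
    simp only [LinearMap.comp_apply, Submodule.mapQ_apply, Submodule.mkQ_apply]
    have h4 : s (Submodule.Quotient.mk v) = v - (p v : V) := hs v
    rw [h4, map_sub, Submodule.Quotient.mk_sub]
    have h5 : (Submodule.Quotient.mk (f (p v : V)) : V ⧸ W) = 0 := by
      rw [Submodule.Quotient.mk_eq_zero]
      exact hf (p v).2
    rw [h5, sub_zero]
  have h4 : LinearMap.trace ℂ V (W.subtype ∘ₗ (p ∘ₗ f)) =
      LinearMap.trace ℂ W ((p ∘ₗ f) ∘ₗ W.subtype) := LinearMap.trace_comp_comm' _ _
  have h5 : LinearMap.trace ℂ V (s ∘ₗ (W.mkQ ∘ₗ f)) =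
      LinearMap.trace ℂ (V ⧸ W) ((W.mkQ ∘ₗ f) ∘ₗ s) := LinearMap.trace_comp_comm' _ _
  conv_lhs => rw [h1]
  rw [map_add, h4, h5, h2, h3]

variable {F : Type} [Group F]

/-- complete reducibility of a representation -/
def Css {V : Type} [AddCommGroup V] [Module ℂ V] (σ : Representation ℂ F V) : Prop :=
  ∀ U : Submodule ℂ V, (∀ x, U ≤ U.comap (σ x)) →
    ∃ U' : Submodule ℂ V, (∀ x, U' ≤ U'.comap (σ x)) ∧ IsCompl U U'

/-- an irreducible and a completely reducible representation -/
theorem css_prod {V W : Type} [AddCommGroup V] [Module ℂ V] [AddCommGroup W] [Module ℂ W]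
    (σ : Representation ℂ F W) (τ : Representation ℂ F V)
    (hσ : ∀ U : Submodule ℂ W, (∀ x, U ≤ U.comap (σ x)) → U = ⊥ ∨ U = ⊤) (hτ : Css τ) :
    Css (σ.prod τ) := by
  intro U hU
  have hU' : ∀ x (w : W) (v : V), (w, v) ∈ U → (σ x w, τ x v) ∈ U := fun x w v h => hU x h
  -- the image in the second factor
  obtain ⟨C, hC, hCc⟩ := hτ (U.map (LinearMap.snd ℂ W V)) (by
    rintro x _ ⟨⟨w, v⟩, hwv, rfl⟩
    exact ⟨(σ x w, τ x v), hU' x w v hwv, rfl⟩)
  have hC1 : ∀ v : V, ∃ a ∈ C, ∃ w b, (w, b) ∈ U ∧ v = b + a := by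
    intro v
    have h1 : v ∈ U.map (LinearMap.snd ℂ W V) ⊔ C := by
      rw [hCc.sup_eq_top]
      trivial
    obtain ⟨_, ⟨⟨w, b⟩, hwb, rfl⟩, a, ha, h2⟩ := Submodule.mem_sup.1 h1
    exact ⟨a, ha, w, b, hwb, h2.symm⟩
  have hC2 : ∀ (w : W) (v : V), (w, v) ∈ U → v ∈ C → v = 0 := by
    intro w v h1 h2
    have h3 : v ∈ U.map (LinearMap.snd ℂ W V) ⊓ C := ⟨⟨(w, v), h1, rfl⟩, h2⟩
    rw [hCc.inf_eq_bot] at h3
    exact (Submodule.mem_bot ℂ).1 h3
  -- the intersection with the first factor
  rcases hσ (U.comap (LinearMap.inl ℂ W V)) (by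
    intro x w hw
    have h1 := hU' x w 0 hw
    rw [map_zero] at h1
    exact h1) with h0 | h0
  · refine ⟨C.comap (LinearMap.snd ℂ W V), ?_, ?_⟩
    · rintro x ⟨w, v⟩ hwv
      exact hC x hwv
    · rw [isCompl_iff, disjoint_iff, codisjoint_iff]
      constructor
      · rw [eq_bot_iff]
        rintro ⟨w, v⟩ ⟨h1, h2⟩
        have h3 := hC2 w v h1 h2
        subst h3
        have h4 : w ∈ U.comap (LinearMap.inl ℂ W V) := h1
        rw [h0, Submodule.mem_bot] at h4
        rw [Submodule.mem_bot, h4]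
        rfl
      · rw [eq_top_iff]
        rintro ⟨w, v⟩ -
        obtain ⟨a, ha, w', b, hb, rfl⟩ := hC1 v
        refine Submodule.mem_sup.2 ⟨(w', b), hb, (w - w', a), ha, ?_⟩
        simp
  · have hin : ∀ w : W, (w, (0 : V)) ∈ U := by
      intro w
      have h1 : w ∈ U.comap (LinearMap.inl ℂ W V) := by
        rw [h0]
        trivial
      exact h1
    refine ⟨C.map (LinearMap.inr ℂ W V), ?_, ?_⟩
    · rintro x _ ⟨v, hv, rfl⟩
      refine ⟨τ x v, hC x hv, ?_⟩
      simp [Representation.prod]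
    · rw [isCompl_iff, disjoint_iff, codisjoint_iff]
      constructor
      · rw [eq_bot_iff]
        rintro _ ⟨h1, ⟨v, hv, rfl⟩⟩
        have h3 := hC2 0 v h1 hv
        rw [Submodule.mem_bot, h3, map_zero]
      · rw [eq_top_iff]
        rintro ⟨w, v⟩ -
        obtain ⟨a, ha, w', b, hb, rfl⟩ := hC1 v
        refine Submodule.mem_sup.2 ⟨(w', b) + (w - w', 0), U.add_mem hb (hin _),
          (0, a), ⟨a, ha, rfl⟩, ?_⟩
        simp

/-- Every representation has the same character as a completely reducible one. -/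
theorem exists_css (d : ℕ) : ∀ (V : Type) [AddCommGroup V] [Module ℂ V] [FiniteDimensional ℂ V]
    (σ : Representation ℂ F V), finrank ℂ V = d →
    ∃ (V' : Type) (_ : AddCommGroup V') (_ : Module ℂ V') (_ : FiniteDimensional ℂ V')
      (σ' : Representation ℂ F V'), finrank ℂ V' = d ∧ Css σ' ∧
        ∀ x, LinearMap.trace ℂ V' (σ' x) = LinearMap.trace ℂ V (σ x) := by
  induction d using Nat.strong_induction_on with
  | _ d ih =>
    intro V _ _ _ σ hd
    rcases Nat.eq_zero_or_pos d with h0 | h0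
    · refine ⟨V, inferInstance, inferInstance, inferInstance, σ, hd, ?_, fun x => rfl⟩
      have : Subsingleton V := finrank_zero_iff.1 (hd.trans h0)
      intro U _
      refine ⟨⊤, fun x v _ => trivial, ?_⟩
      rw [Subsingleton.elim U ⊥]
      exact isCompl_bot_top
    · obtain ⟨W, ⟨hW0, hW⟩, hmin⟩ := (wellFounded_lt : WellFounded
        ((· < ·) : Submodule ℂ V → Submodule ℂ V → Prop)).has_min
        {W | W ≠ ⊥ ∧ ∀ x, W ≤ W.comap (σ x)} ⟨⊤, by
          have : Nontrivial V := finrank_pos_iff.1 (hd ▸ h0)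
          exact ⟨top_ne_bot, fun x v _ => trivial⟩⟩
      have hfin : finrank ℂ (V ⧸ W) + finrank ℂ W = d := by
        rw [← hd]
        exact W.finrank_quotient_add_finrank
      have hWpos : 0 < finrank ℂ W := by
        have : Nontrivial W := Submodule.nontrivial_iff_ne_bot.mpr hW0
        exact finrank_pos
      obtain ⟨V', _, _, _, σ', hf, hcss, htr⟩ := ih (finrank ℂ (V ⧸ W)) (by omega) (V ⧸ W)
        (σ.quotient W hW) rfl
      refine ⟨W × V', inferInstance, inferInstance, inferInstance,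
        (σ.subrepresentation W hW).prod σ', ?_, ?_, ?_⟩
      · rw [finrank_prod, hf, ← hfin, add_comm]
      · refine css_prod _ _ ?_ hcss
        intro X hX
        by_cases h : X = ⊥
        · exact Or.inl h
        · right
          have h1 : X.map W.subtype ≠ ⊥ := by
            intro h2
            apply h
            rw [eq_bot_iff]
            intro v hv
            have h3 : W.subtype v ∈ X.map W.subtype := Submodule.mem_map_of_mem hv
            rw [h2] at h3
            exact (Submodule.mem_bot ℂ).mpr (Subtype.ext ((Submodule.mem_bot ℂ).mp h3))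
          have h2 : X.map W.subtype ≤ W := Submodule.map_subtype_le W X
          have h3 : X.map W.subtype = W := by
            by_contra hne
            refine hmin (X.map W.subtype) ⟨h1, ?_⟩ (lt_of_le_of_ne h2 hne)
            rintro x _ ⟨v, hv, rfl⟩
            exact ⟨_, hX x hv, rfl⟩
          rw [eq_top_iff]
          intro v _
          have h4 : (v : V) ∈ X.map W.subtype := by
            rw [h3]
            exact v.2
          obtain ⟨w, hw, hwv⟩ := h4
          have h5 : w = v := Subtype.ext hwv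
          rwa [← h5]
      · intro x
        rw [trace_sub_quot W (σ x) (hW x)]
        have h1 : ((σ.subrepresentation W hW).prod σ') x =
          ((σ.subrepresentation W hW) x).prodMap (σ' x) := rfl
        rw [h1, LinearMap.trace_prodMap', htr x]
        rfl

/-- Every representation by matrices has the same character as a completely reducible one. -/
theorem exists_cred {r : ℕ} (ρ : F →* GL (Fin r) ℂ) :
    ∃ ρ' : F →* GL (Fin r) ℂ, CRed ρ'.range ∧
      ∀ x, (ρ' x : Matrix (Fin r) (Fin r) ℂ).trace = (ρ x : Matrix (Fin r) (Fin r) ℂ).trace := by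
  let σ : Representation ℂ F (Fin r → ℂ) :=
    { toFun := fun x => Matrix.toLin' (ρ x : Matrix (Fin r) (Fin r) ℂ)
      map_one' := by
        rw [map_one, Units.val_one, Matrix.toLin'_one]
        rfl
      map_mul' := fun x y => by
        rw [map_mul, Units.val_mul, Matrix.toLin'_mul]
        rfl }
  obtain ⟨V', _, _, _, σ', hd, hcss, htr⟩ := exists_css r (Fin r → ℂ) σ (by simp)
  let b : Basis (Fin r) ℂ V' := finBasisOfFinrankEq ℂ V' hd
  let M : F →* Matrix (Fin r) (Fin r) ℂ :=
    { toFun := fun x => LinearMap.toMatrix b b (σ' x)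
      map_one' := by
        rw [map_one]
        exact LinearMap.toMatrix_one b
      map_mul' := fun x y => by
        rw [map_mul]
        exact LinearMap.toMatrix_mul b (σ' x) (σ' y) }
  have hM : ∀ x, ((M.toHomUnits x : GL (Fin r) ℂ) : Matrix (Fin r) (Fin r) ℂ) =
      LinearMap.toMatrix b b (σ' x) := fun x => rfl
  refine ⟨M.toHomUnits, ?_, ?_⟩
  · intro W hW
    let e : V' ≃ₗ[ℂ] (Fin r → ℂ) := b.equivFun
    have he : ∀ x (v : V'), ((M.toHomUnits x : GL (Fin r) ℂ) : Matrix (Fin r) (Fin r) ℂ) *ᵥ (e v) =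
        e (σ' x v) := by
      intro x v
      rw [hM]
      exact LinearMap.toMatrix_mulVec_repr b b (σ' x) v
    obtain ⟨U', hU', hc⟩ := hcss (W.comap (e : V' →ₗ[ℂ] (Fin r → ℂ))) (by
      intro x v hv
      have h1 := hW _ ⟨x, rfl⟩ _ hv
      have h2 := he x v
      show e (σ' x v) ∈ W
      rw [← h2]
      exact h1)
    refine ⟨U'.map (e : V' →ₗ[ℂ] (Fin r → ℂ)), ?_, ?_⟩
    · rintro _ ⟨x, rfl⟩ _ ⟨v, hv, rfl⟩
      refine ⟨σ' x v, hU' x hv, ?_⟩
      exact (he x v).symm
    · have h3 := (Submodule.orderIsoMapComap e).isCompl hc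
      have h4 : (Submodule.orderIsoMapComap e) (W.comap (e : V' →ₗ[ℂ] (Fin r → ℂ))) = W :=
        Submodule.map_comap_eq_of_surjective e.surjective W
      rw [h4] at h3
      exact h3
  · intro x
    rw [hM, ← LinearMap.trace_eq_matrix_trace ℂ b, htr x]
    exact Matrix.trace_toLin'_eq _

end Pool.Agent.HZ
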