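import Pool.Agent.HZ.RedD
import Pool.Agent.HZ.RedS

/-!
# The reduction to a bounded number of punctures

`red_main`: for every rank `r` there is `N` such that for every representation of rank `r` of the
free group of rank `n`, all simple loops of which have only roots of unity as eigenvalues, there is
a set `S` of at most `N` generators such that the others are in a normal subgroup all elements of
which have only roots of unity as eigenvalues, and the braid group orbit of the character is finite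
if and only if the braid group orbit of the restriction of the character to the free group on `S`
is finite.
-/

set_option autoImplicit false

namespace Pool.Agent.HZ

open Matrix

variable {r : ℕ}

theorem quasi_of_traces {F : Type} [Group F] (ρ ρ' : F →* GL (Fin r) ℂ)
    (h : ∀ x, (ρ' x : Matrix (Fin r) (Fin r) ℂ).trace = (ρ x : Matrix (Fin r) (Fin r) ℂ).trace)
    (x : F) (hx : Quasi (ρ x)) : Quasi (ρ' x) := by
  intro z hz
  refine hx z (root_of_traces _ _ (fun k => ?_) z hz)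
  have h1 := h (x ^ k)
  simpa only [map_pow, Units.val_pow_eq_pow_val] using h1

theorem finOrb_of_traces {n : ℕ} (ρ ρ' : FreeGroup (Fin n) →* GL (Fin r) ℂ)
    (h : ∀ x, (ρ' x : Matrix (Fin r) (Fin r) ℂ).trace = (ρ x : Matrix (Fin r) (Fin r) ℂ).trace)
    (hx : FinOrb ρ) : FinOrb ρ' := by
  refine Set.Finite.subset hx ?_
  rintro χ ⟨β, hβ, rfl⟩
  exact ⟨β, hβ, funext fun γ => h (β γ)⟩

theorem range_fg {n : ℕ} (ρ : FreeGroup (Fin n) →* GL (Fin r) ℂ) : (ρ.range).FG := by
  have hrange : Subgroup.closure {x | x ∈ (std n).map ρ} = ρ.range := by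
    have h1 : {x | x ∈ (std n).map ρ} = ρ '' {x | x ∈ std n} := by
      ext x
      simp
    rw [h1, ← MonoidHom.map_closure, closure_std, MonoidHom.range_eq_map]
  rw [← hrange, Subgroup.fg_iff]
  exact ⟨_, rfl, List.finite_toSet _⟩

/-- simple loops of a subdisc are simple loops -/
theorem simple_inc {n : ℕ} (S : Finset (Fin n)) (γ : FreeGroup (Fin S.card))
    (h : IsSimpleLoop γ) : IsSimpleLoop (inc S γ) := by
  have hsub : ((std S.card).map (inc S)).Sublist (std n) := by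
    rw [std_inc, std, sort_eq_filter]
    exact List.filter_sublist.map _
  exact Loop.of_pre (Pre.sublist hsub) (Loop.map (inc S) h)

open Classical in
/-- **The reduction to a bounded number of punctures.** -/
theorem red_main (r : ℕ) : ∃ N : ℕ, ∀ (n : ℕ) (ρ : FreeGroup (Fin n) →* GL (Fin r) ℂ),
    (∀ γ, IsSimpleLoop γ → Quasi (ρ γ)) → ∃ S : Finset (Fin n), S.card ≤ N ∧
      (∀ x ∈ Subgroup.normalClosure {x | ∃ i ∉ S, x = FreeGroup.of i}, Quasi (ρ x)) ∧
      (CRed ρ.range →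
        Finite ((Subgroup.normalClosure {x | ∃ i ∉ S, x = FreeGroup.of i}).map ρ)) ∧
      (FinOrb ρ ↔ FinOrb (ρ.comp (inc S))) := by
  obtain ⟨N, hN⟩ := main r
  refine ⟨N, ?_⟩
  intro n ρ hρ
  obtain ⟨ρ', hcr, htr⟩ := exists_cred ρ
  have hρ' : ∀ γ, IsSimpleLoop γ → Quasi (ρ' γ) := fun γ hγ =>
    quasi_of_traces ρ ρ' htr γ (hρ γ hγ)
  obtain ⟨S₀, H, hS₀, hH, hnorm, hgen, hroot⟩ := hN n ρ' hρ'
  have hfin : Finite H := finite_of_roots ρ'.range H (range_fg ρ') hH hnorm hroot hcr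
  set S : Finset (Fin n) := Finset.univ.filter fun i => ρ' (FreeGroup.of i) ∉ H with hS
  have hmem : ∀ i, i ∈ S ↔ ρ' (FreeGroup.of i) ∉ H := fun i => by
    rw [hS, Finset.mem_filter]
    exact ⟨fun h => h.2, fun h => ⟨Finset.mem_univ i, h⟩⟩
  have hle : Subgroup.normalClosure {x | ∃ i ∉ S, x = FreeGroup.of i} ≤ H.comap ρ' := by
    have hn : (H.comap ρ').Normal := by
      refine ⟨fun x hx y => ?_⟩
      rw [Subgroup.mem_comap] at hx ⊢
      rw [map_mul, map_mul, map_inv]
      exact hnorm _ ⟨y, rfl⟩ _ hx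
    refine Subgroup.normalClosure_le_normal ?_
    rintro x ⟨i, hi, rfl⟩
    by_contra hcon
    exact hi ((hmem i).2 hcon)
  have hquasi : ∀ x ∈ Subgroup.normalClosure {x | ∃ i ∉ S, x = FreeGroup.of i}, Quasi (ρ x) :=
    fun x hx => quasi_of_traces ρ' ρ (fun y => (htr y).symm) x (fun z hz => hroot _ (hle hx) z hz)
  refine ⟨S, ?_, hquasi, ?_, ?_⟩
  · refine (Finset.card_le_card ?_).trans hS₀
    intro i hi
    by_contra hcon
    exact (hmem i).1 hi (hgen i hcon)
  · intro hc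
    refine finite_of_roots ρ.range _ (range_fg ρ) (Subgroup.map_le_range ρ _) ?_ ?_ hc
    · rintro _ ⟨y, rfl⟩ _ ⟨x, hx, rfl⟩
      refine ⟨y * x * y⁻¹, Subgroup.normalClosure_normal.conj_mem x hx y, ?_⟩
      rw [map_mul, map_mul, map_inv]
    · rintro _ ⟨x, hx, rfl⟩ z hz
      exact hquasi x hx z hz
  · refine ⟨fun h => finOrb_inc ρ S h, fun h => ?_⟩
    have h1 : FinOrb (ρ'.comp (inc S)) :=
      finOrb_of_traces (ρ.comp (inc S)) (ρ'.comp (inc S)) (fun x => htr (inc S x)) h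
    exact finOrb_of_traces ρ' ρ (fun y => (htr y).symm) (finOrb_of_inc ρ' H hnorm S hmem h1)

/-- The reduction, and: in rank `r` it is enough to consider discs with at most `N` punctures. -/
theorem red_fin (r : ℕ) : ∃ N : ℕ,
    (∀ (n : ℕ) (ρ : FreeGroup (Fin n) →* GL (Fin r) ℂ),
      (∀ γ, IsSimpleLoop γ → Quasi (ρ γ)) → ∃ S : Finset (Fin n), S.card ≤ N ∧
        (∀ x ∈ Subgroup.normalClosure {x | ∃ i ∉ S, x = FreeGroup.of i}, Quasi (ρ x)) ∧
        (CRed ρ.range →
          Finite ((Subgroup.normalClosure {x | ∃ i ∉ S, x = FreeGroup.of i}).map ρ)) ∧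
        (FinOrb ρ ↔ FinOrb (ρ.comp (inc S)))) ∧
    ((∀ n ≤ N, ∀ ρ : FreeGroup (Fin n) →* GL (Fin r) ℂ,
      (∀ γ, IsSimpleLoop γ → Quasi (ρ γ)) → FinOrb ρ) →
    ∀ (n : ℕ) (ρ : FreeGroup (Fin n) →* GL (Fin r) ℂ),
      (∀ γ, IsSimpleLoop γ → Quasi (ρ γ)) → FinOrb ρ) := by
  obtain ⟨N, hN⟩ := red_main r
  refine ⟨N, hN, fun h n ρ hρ => ?_⟩
  obtain ⟨S, hS, _, _, hiff⟩ := hN n ρ hρ
  exact hiff.2 (h S.card hS _ fun γ hγ => hρ _ (simple_inc S γ hγ))

end Pool.Agent.HZ
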