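import Pool.Agent.HZ.Lists

/-!
# The core of the structure theorem
-/

set_option autoImplicit false

namespace Pool.Agent.HZ

open Helper12.Sc Module Pointwise

variable {G : Type} [Group G] {ι : Type} {e : ι → G → ℂ}

/-- evaluation of a word at a pair variable -/
theorem evw_mem (h : Good e) {q m : ℕ} (y : Fin q → G) (v : Fin m × Bool → G)
    (W : FreeGroup (Fin q ⊕ Fin m × Bool)) (d D : ℕ) (hD : W.toWord.length ≤ D)
    (F : G → ℂ) (hF : F ∈ space e d) (k : Fin m × Bool) :
    (fun u => F (evw y (Function.update v k u) W)) ∈ space e (D * d) := by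
  have h1 := h.lift_mem (Sum.elim y v) (Sum.inr k) W d D hD F hF
  have e1 : ∀ u, Function.update (Sum.elim y v) (Sum.inr k) u =
      Sum.elim y (Function.update v k u) := by
    intro u
    exact Sum.update_elim_inr
  simp only [e1] at h1
  exact h1

/-- the degree of the product of conjugates in one of the conjugating elements -/
theorem conj_mem (h : Good e) {m : ℕ} (w g : Fin m → G) (k : Fin m) (d : ℕ) (F : G → ℂ)
    (hF : F ∈ space e d) : (fun u => F (((List.finRange m).map fun i =>
      Function.update w k u i * g i * (Function.update w k u i)⁻¹).prod)) ∈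
      space e (2 * m * d) := by
  have key : ∀ l : List (Fin m), ∀ F ∈ V1 e, (fun u => F ((l.map fun i =>
      Function.update w k u i * g i * (Function.update w k u i)⁻¹).prod)) ∈
      space e (2 * l.length) := by
    intro l
    induction l with
    | nil => exact comp_const (1 : G)
    | cons i l ih =>
      have h1 : ∀ F ∈ V1 e, (fun u => F (Function.update w k u i)) ∈ space e 1 := by
        intro F hF
        by_cases hi : i = k
        · subst hi
          simp only [Function.update_self]
          exact comp_id F hF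
        · simp only [Function.update_of_ne hi]
          exact const_space e _ 1
      have h2 : ∀ F ∈ V1 e, (fun u => F ((Function.update w k u i)⁻¹)) ∈ space e 1 := by
        intro F hF
        by_cases hi : i = k
        · subst hi
          simp only [Function.update_self]
          exact h.comp_inv F hF
        · simp only [Function.update_of_ne hi]
          exact const_space e _ 1
      have h3 := h.comp_mul (h.comp_mul (h.comp_mul h1 (comp_const (g i))) h2) ih
      intro F hF
      have h4 := h3 F hF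
      rw [List.length_cons]
      have e1 : 2 * (l.length + 1) = 1 + 0 + 1 + 2 * l.length := by ring
      rw [e1]
      simpa using h4
  have h1 := comp_space (key (List.finRange m)) d F hF
  rw [List.length_finRange] at h1
  exact h1

/-- the conjugates of the group generated by `R` by the group generated by `P` -/
def cj (P R : List G) : Set G :=
  {z | ∃ w ∈ Subgroup.closure {x | x ∈ P}, ∃ g ∈ Subgroup.closure {x | x ∈ R}, z = w * g * w⁻¹}

theorem core (B : ℕ → ℕ) (d0 : ℕ) : ∃ N : ℕ, ∀ (G : Type) [Group G] (ι : Type) [Finite ι]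
    (e : ι → G → ℂ), Good e → (∀ d, finrank ℂ (space e d) ≤ B d) → ∀ 𝓕 : Set (G → ℂ),
    (∀ F ∈ 𝓕, F ∈ space e d0) → ∀ T : List G, (∀ γ, Loop T γ → ∀ F ∈ 𝓕, F γ = 0) →
    ∃ P R : List G, BReach T (P ++ R) ∧ P.length ≤ N ∧
      ∀ x ∈ Subgroup.closure (cj P R), ∀ F ∈ 𝓕, F x = 0 := by
  obtain ⟨m, hm⟩ : ∃ m, m = B d0 + 1 := ⟨_, rfl⟩
  obtain ⟨l, hl⟩ : ∃ l, l = B (2 * m * d0) + 1 := ⟨_, rfl⟩
  obtain ⟨D, hD⟩ := exists_bound (m * l) m l
  obtain ⟨q, hq⟩ : ∃ q, q = B (D * d0) + 1 := ⟨_, rfl⟩
  refine ⟨2 * m * q * (B (D * d0)) ^ 2 * (B (D * d0)) ^ 2, ?_⟩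
  intro G _ ι _ e he hB 𝓕 h𝓕 T hT
  have hfd : ∀ d, FiniteDimensional ℂ (space e d) := by
    intro d
    have := Fintype.ofFinite ι
    exact finite_space e d
  have hV : ∀ y : G, ∀ F ∈ space e (D * d0), rtr y F ∈ space e (D * d0) :=
    fun y F hF => he.rtr_mem y _ F hF
  -- the robust list and the windows
  obtain ⟨P, R, hPR, hPlen, hrob⟩ := exists_robust (space e (D * d0)) hV T
    (2 * m * q * (finrank ℂ (space e (D * d0))) ^ 2)
  obtain ⟨Us, R', hUlen, hUs, hUalg⟩ := exists_windows (space e (D * d0)) hV R (2 * m * q) hrob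
  refine ⟨P, R, hPR, ?_, ?_⟩
  · refine hPlen.trans ?_
    have h1 := hB (D * d0)
    have h2 : (finrank ℂ (space e (D * d0))) ^ 2 ≤ (B (D * d0)) ^ 2 := Nat.pow_le_pow_left h1 2
    exact Nat.mul_le_mul (Nat.mul_le_mul_left _ h2) h2
  obtain ⟨grp, hgrp1, hgrp2⟩ := exists_groups q m Us hUlen
  have hTU : BReach T (P ++ (((List.finRange m).map fun i =>
      grp (i, false) ++ grp (i, true)).flatten.flatten ++ R')) := by
    rw [← hgrp2]
    exact hPR.trans (hUs.append_left P)
  -- groups are saturated
  have hsat : ∀ k : Fin m × Bool, ∀ F ∈ space e (D * d0), (∀ z ∈ zs (grp k), F z = 0) →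
      ∀ g ∈ (Subgroup.closure {x | x ∈ R} : Set G), F g = 0 := by
    intro k F hF h0 g hg
    refine saturate (space e (D * d0)) hV R (grp k) ?_ ?_ F hF h0 g hg
    · rw [hgrp1 k, hq]
      exact Nat.lt_succ_of_le (hB _)
    · intro U hU
      apply hUalg
      rw [hgrp2]
      rw [List.mem_flatten]
      rcases k with ⟨i, b⟩
      refine ⟨_, List.mem_map.2 ⟨i, List.mem_finRange i, rfl⟩, ?_⟩
      rw [List.mem_append]
      cases b
      · exact Or.inl hU
      · exact Or.inr hU
  -- short words
  have short : ∀ F ∈ 𝓕, ∀ g : Fin m → G, (∀ i, g i ∈ Subgroup.closure {x | x ∈ R}) →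
      ∀ u : Fin m → List G, (∀ i, (u i).length ≤ l) → (∀ i, ∀ x ∈ u i, x ∈ P) →
      F (((List.finRange m).map fun i => (u i).prod * g i * (u i).prod⁻¹).prod) = 0 := by
    intro F hF g hg u hu1 hu2
    obtain ⟨Y, hY1, hY2, hY3⟩ := exists_sub P ((List.finRange m).map u).flatten (by
      intro x hx
      rw [List.mem_flatten] at hx
      obtain ⟨s, hs, hx⟩ := hx
      rw [List.mem_map] at hs
      obtain ⟨i, _, rfl⟩ := hs
      exact hu2 i x hx)
    have hlenS : ((List.finRange m).map u).flatten.length ≤ m * l := by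
      rw [List.length_flatten, List.map_map]
      refine (List.sum_le_card_nsmul _ l ?_).trans ?_
      · intro x hx
        rw [List.mem_map] at hx
        obtain ⟨i, _, rfl⟩ := hx
        exact hu1 i
      · simp
    have hYall : ∀ i, ∀ x ∈ u i, x ∈ Y := by
      intro i x hx
      apply hY3
      rw [List.mem_flatten]
      exact ⟨u i, List.mem_map.2 ⟨i, List.mem_finRange i, rfl⟩, hx⟩
    choose w hw using fun i => exists_word_idx Y (u i) (hYall i)
    obtain ⟨W, hW1, hW2, hW3⟩ := hD Y.length (hY2.trans hlenS) w (by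
      intro i
      have := hu1 i
      rw [← hw i, List.length_map] at this
      exact this)
    have hall := saturate_all (space e (D * d0)) (fun k => zs (grp k))
      (Subgroup.closure {x | x ∈ R} : Set G) hsat (fun v => F (evw Y.get v W))
      (fun v k => evw_mem he Y.get v W d0 D hW1 F (h𝓕 F hF) k)
      (fun v hv => hT _ (tup_loop T P R' grp hTU Y hY1 v hv _ (hW2 G Y.get v)) F hF)
      (fun p => if p.2 then (g p.1)⁻¹ else g p.1) (by
        rintro ⟨i, b⟩
        cases b
        · simpa using hg i
        · simpa using hg i)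
    rw [hW3 G Y.get g] at hall
    simp only [hw] at hall
    exact hall
  -- all words
  have long : ∀ F ∈ 𝓕, ∀ g : Fin m → G, (∀ i, g i ∈ Subgroup.closure {x | x ∈ R}) →
      ∀ w : Fin m → G, (∀ i, w i ∈ (Subgroup.closure {x | x ∈ P} : Set G)) →
      F (((List.finRange m).map fun i => w i * g i * (w i)⁻¹).prod) = 0 := by
    intro F hF g hg
    refine saturate_all (space e (2 * m * d0)) (fun _ => prods (List.replicate l {x | x ∈ P}))
      (Subgroup.closure {x | x ∈ P} : Set G) ?_
      (fun w => F (((List.finRange m).map fun i => w i * g i * (w i)⁻¹).prod))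
      (fun w k => conj_mem he w g k d0 F (h𝓕 F hF)) ?_
    · intro k F' hF' h0 x hx
      obtain ⟨Y, hY, hprop⟩ := propagate (space e (2 * m * d0))
        (fun y F hF => he.rtr_mem y _ F hF) (List.replicate l {x | x ∈ P}) (by
          rw [List.length_replicate, hl]
          exact Nat.lt_succ_of_le (hB _))
      rw [List.mem_replicate] at hY
      rw [hY.2] at hprop
      exact hprop F' ⟨hF', h0⟩ x hx
    · intro w hw
      choose u hu1 hu2 hu3 using fun i => prods_replicate_list P l (w i) (hw i)
      have h1 := short F hF g hg u hu1 hu2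
      simp only [hu3] at h1
      exact h1
  -- the whole group
  intro x hx F hF
  obtain ⟨Y, hY, hprop⟩ := propagate (space e d0)
    (fun y F hF => he.rtr_mem y _ F hF) (List.replicate m (cj P R)) (by
      rw [List.length_replicate, hm]
      exact Nat.lt_succ_of_le (hB _))
  rw [List.mem_replicate] at hY
  rw [hY.2] at hprop
  refine hprop F ⟨h𝓕 F hF, ?_⟩ x hx
  intro p hp
  obtain ⟨f, hf, rfl⟩ := prods_replicate (cj P R) m p hp
  have hf2 : ∀ i, ∃ w g : G, w ∈ Subgroup.closure {x | x ∈ P} ∧
      g ∈ Subgroup.closure {x | x ∈ R} ∧ f i = w * g * w⁻¹ := by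
    intro i
    rcases hf i with h1 | ⟨w, hw, g, hg, h1⟩
    · exact ⟨1, 1, Subgroup.one_mem _, Subgroup.one_mem _, by rw [h1]; simp⟩
    · exact ⟨w, g, hw, hg, h1⟩
  choose w g hw hg hfe using hf2
  have h1 := long F hF g hg w hw
  simp only [← hfe] at h1
  exact h1

end Pool.Agent.HZ
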