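import Pool.Agent.HZ.Stm

/-!
# Hurwitz moves on tuples

`BMove` are the elementary braid moves on a list of elements of a group, `BReach` is the braid
group orbit.  `Pre L S`: the list `S` is the beginning of a list in the orbit of `L`.  `Loop L γ`:
`γ` is the product of the beginning of a list in the orbit of `L`; for the standard generators of
the fundamental group of a disc with `n` punctures these are the simple closed curves.
-/

set_option autoImplicit false

namespace Pool.Agent.HZ

/-- the beginning of a list in the orbit -/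
def Pre {G : Type*} [Group G] (L A : List G) : Prop := ∃ B : List G, BReach L (A ++ B)

section
variable {G : Type*} [Group G]

theorem BMove.symm {L L' : List G} (h : BMove L L') : BMove L' L := by
  cases h with
  | r P S a b =>
    have h1 := BMove.l P S b (b⁻¹ * a * b)
    have e : b * (b⁻¹ * a * b) * b⁻¹ = a := by group
    rw [e] at h1
    exact h1
  | l P S a b =>
    have h1 := BMove.r P S (a * b * a⁻¹) a
    have e : a⁻¹ * (a * b * a⁻¹) * a = b := by group
    rw [e] at h1
    exact h1

theorem BReach.refl (L : List G) : BReach L L := Relation.ReflTransGen.refl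

theorem BReach.trans {L L' L'' : List G} (h : BReach L L') (h' : BReach L' L'') : BReach L L'' :=
  Relation.ReflTransGen.trans h h'

theorem BReach.of_move {L L' : List G} (h : BMove L L') : BReach L L' :=
  Relation.ReflTransGen.single h

theorem BReach.symm {L L' : List G} (h : BReach L L') : BReach L' L := by
  induction h with
  | refl => exact BReach.refl _
  | tail _ hs ih => exact (BReach.of_move hs.symm).trans ih

theorem BMove.context {L L' : List G} (h : BMove L L') (P S : List G) :
    BMove (P ++ L ++ S) (P ++ L' ++ S) := by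
  cases h with
  | r P' S' a b =>
    have h1 := BMove.r (P ++ P') (S' ++ S) a b
    simpa using h1
  | l P' S' a b =>
    have h1 := BMove.l (P ++ P') (S' ++ S) a b
    simpa using h1

theorem BReach.context {L L' : List G} (h : BReach L L') (P S : List G) :
    BReach (P ++ L ++ S) (P ++ L' ++ S) := by
  induction h with
  | refl => exact BReach.refl _
  | tail _ hs ih => exact ih.trans (BReach.of_move (hs.context P S))

theorem BReach.append {A A' B B' : List G} (h : BReach A A') (h' : BReach B B') :
    BReach (A ++ B) (A' ++ B') := by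
  have h1 := h.context [] B
  have h2 := h'.context A' []
  simp only [List.nil_append, List.append_nil] at h1 h2
  exact h1.trans h2

theorem BReach.append_left (A : List G) {B B' : List G} (h : BReach B B') :
    BReach (A ++ B) (A ++ B') := (BReach.refl A).append h

theorem BReach.append_right {A A' : List G} (h : BReach A A') (B : List G) :
    BReach (A ++ B) (A' ++ B) := h.append (BReach.refl B)

theorem BReach.cons (a : G) {B B' : List G} (h : BReach B B') :
    BReach (a :: B) (a :: B') := h.append_left [a]

theorem BMove.prod_eq {L L' : List G} (h : BMove L L') : L'.prod = L.prod := by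
  cases h <;> simp [mul_assoc]

theorem BReach.prod_eq {L L' : List G} (h : BReach L L') : L'.prod = L.prod := by
  induction h with
  | refl => rfl
  | tail _ hs ih => rw [hs.prod_eq, ih]

theorem BMove.length_eq {L L' : List G} (h : BMove L L') : L'.length = L.length := by
  cases h <;> simp

theorem BReach.length_eq {L L' : List G} (h : BReach L L') : L'.length = L.length := by
  induction h with
  | refl => rfl
  | tail _ hs ih => rw [hs.length_eq, ih]

/-- images under homomorphisms -/
theorem BMove.map {H : Type*} [Group H] (f : G →* H) {L L' : List G} (h : BMove L L') :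
    BMove (L.map f) (L'.map f) := by
  cases h with
  | r P S a b =>
    have h1 := BMove.r (P.map f) (S.map f) (f a) (f b)
    simpa using h1
  | l P S a b =>
    have h1 := BMove.l (P.map f) (S.map f) (f a) (f b)
    simpa using h1

theorem BReach.map {H : Type*} [Group H] (f : G →* H) {L L' : List G} (h : BReach L L') :
    BReach (L.map f) (L'.map f) := by
  induction h with
  | refl => exact BReach.refl _
  | tail _ hs ih => exact ih.trans (BReach.of_move (hs.map f))

/-- moves lift along homomorphisms -/
theorem BMove.lift {H : Type*} [Group H] (f : G →* H) {M : List H} {L : List G}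
    (h : BMove (L.map f) M) : ∃ L' : List G, BMove L L' ∧ L'.map f = M := by
  generalize hK : L.map f = K at h
  cases h with
  | r P S a b =>
    rw [List.map_eq_append_iff] at hK
    obtain ⟨L1, L2, rfl, h1, h2⟩ := hK
    rw [List.map_eq_cons_iff] at h2
    obtain ⟨a', L3, rfl, rfl, h3⟩ := h2
    rw [List.map_eq_cons_iff] at h3
    obtain ⟨b', L4, rfl, rfl, h4⟩ := h3
    refine ⟨_, BMove.r L1 L4 a' b', ?_⟩
    simp [h1, h4]
  | l P S a b =>
    rw [List.map_eq_append_iff] at hK
    obtain ⟨L1, L2, rfl, h1, h2⟩ := hK
    rw [List.map_eq_cons_iff] at h2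
    obtain ⟨a', L3, rfl, rfl, h3⟩ := h2
    rw [List.map_eq_cons_iff] at h3
    obtain ⟨b', L4, rfl, rfl, h4⟩ := h3
    refine ⟨_, BMove.l L1 L4 a' b', ?_⟩
    simp [h1, h4]

theorem BReach.lift {H : Type*} [Group H] (f : G →* H) {M : List H} {L : List G}
    (h : BReach (L.map f) M) : ∃ L' : List G, BReach L L' ∧ L'.map f = M := by
  induction h with
  | refl => exact ⟨L, BReach.refl L, rfl⟩
  | tail _ hs ih =>
    obtain ⟨L', h1, h2⟩ := ih
    rw [← h2] at hs
    obtain ⟨L'', h3, h4⟩ := hs.lift f
    exact ⟨L'', h1.trans (BReach.of_move h3), h4⟩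

/-- the generated subgroup -/
theorem BMove.closure_le {L L' : List G} (h : BMove L L') :
    Subgroup.closure {x | x ∈ L'} ≤ Subgroup.closure {x | x ∈ L} := by
  rw [Subgroup.closure_le]
  intro x hx
  have hm : ∀ y ∈ L, y ∈ Subgroup.closure {x | x ∈ L} := fun y hy => Subgroup.subset_closure hy
  cases h with
  | r P S a b =>
    have ha := hm a (by simp)
    have hb := hm b (by simp)
    simp only [Set.mem_ofPred_eq, List.mem_append, List.mem_cons] at hx
    rcases hx with hx | rfl | rfl | hx
    · exact hm x (by simp [hx])
    · exact hb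
    · exact Subgroup.mul_mem _ (Subgroup.mul_mem _ (Subgroup.inv_mem _ hb) ha) hb
    · exact hm x (by simp [hx])
  | l P S a b =>
    have ha := hm a (by simp)
    have hb := hm b (by simp)
    simp only [Set.mem_ofPred_eq, List.mem_append, List.mem_cons] at hx
    rcases hx with hx | rfl | rfl | hx
    · exact hm x (by simp [hx])
    · exact Subgroup.mul_mem _ (Subgroup.mul_mem _ ha hb) (Subgroup.inv_mem _ ha)
    · exact ha
    · exact hm x (by simp [hx])

theorem BReach.closure_eq {L L' : List G} (h : BReach L L') :
    Subgroup.closure {x | x ∈ L'} = Subgroup.closure {x | x ∈ L} := by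
  induction h with
  | refl => rfl
  | tail _ hs ih => exact (le_antisymm hs.closure_le hs.symm.closure_le).trans ih

/-! ### moving one element -/

/-- an element moves to the right unchanged -/
theorem move_right (a : G) (B : List G) :
    BReach (a :: B) (B.map (fun x => a * x * a⁻¹) ++ [a]) := by
  induction B with
  | nil => exact BReach.refl _
  | cons b B ih =>
    have h1 := BReach.of_move (BMove.l [] B a b)
    simp only [List.nil_append] at h1
    exact h1.trans (ih.cons (a * b * a⁻¹))

/-- an element moves to the left unchanged -/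
theorem move_left (a : G) (B : List G) :
    BReach (B ++ [a]) (a :: B.map (fun x => a⁻¹ * x * a)) := by
  induction B with
  | nil => exact BReach.refl _
  | cons b B ih =>
    have h1 := BReach.of_move (BMove.r [] (B.map (fun x => a⁻¹ * x * a)) b a)
    simp only [List.nil_append] at h1
    exact (ih.cons b).trans h1

/-- an element moves to the right, the others are unchanged -/
theorem pass_right (a : G) (B : List G) :
    BReach (a :: B) (B ++ [B.prod⁻¹ * a * B.prod]) := by
  induction B generalizing a with
  | nil =>
    have e : ([] : List G).prod⁻¹ * a * ([] : List G).prod = a := by simp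
    rw [e]
    exact BReach.refl _
  | cons b B ih =>
    have h1 := BReach.of_move (BMove.r [] B a b)
    simp only [List.nil_append] at h1
    have h2 := (ih (b⁻¹ * a * b)).cons b
    have e : B.prod⁻¹ * (b⁻¹ * a * b) * B.prod = (b :: B).prod⁻¹ * a * (b :: B).prod := by
      rw [List.prod_cons]
      group
    rw [e] at h2
    exact h1.trans h2

/-- an element moves to the left, the others are unchanged -/
theorem pass_left (a : G) (B : List G) :
    BReach (B ++ [a]) ((B.prod * a * B.prod⁻¹) :: B) := by
  have h1 := (pass_right (B.prod * a * B.prod⁻¹) B).symm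
  have e : B.prod⁻¹ * (B.prod * a * B.prod⁻¹) * B.prod = a := by group
  rw [e] at h1
  exact h1

/-! ### beginnings -/

theorem Pre.refl (L : List G) : Pre L L := ⟨[], by rw [List.append_nil]; exact BReach.refl L⟩

theorem Pre.of_reach {L L' : List G} (h : BReach L L') : Pre L L' :=
  ⟨[], by rw [List.append_nil]; exact h⟩

theorem Pre.trans {L L' L'' : List G} (h : Pre L L') (h' : Pre L' L'') : Pre L L'' := by
  obtain ⟨B, hB⟩ := h
  obtain ⟨C, hC⟩ := h'
  refine ⟨C ++ B, ?_⟩
  have h1 := hC.append_right B
  rw [List.append_assoc] at h1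
  exact hB.trans h1

theorem Pre.append_right (A B : List G) : Pre (A ++ B) A := ⟨B, BReach.refl _⟩

/-- a sublist can be moved to the front unchanged -/
theorem Pre.sublist {L A : List G} (h : A.Sublist L) : Pre L A := by
  induction h with
  | slnil => exact Pre.refl _
  | @cons A L a h ih =>
    obtain ⟨B, hB⟩ := ih
    have h1 := hB.cons a
    have h2 := (pass_right a A).append_right B
    rw [List.append_assoc] at h2
    exact ⟨_, h1.trans h2⟩
  | @cons_cons A L a h ih =>
    obtain ⟨B, hB⟩ := ih
    exact ⟨B, hB.cons a⟩

theorem Pre.append {A A' B B' : List G} (h : Pre A A') (h' : Pre B B') :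
    Pre (A ++ B) (A' ++ B') := by
  obtain ⟨C, hC⟩ := h
  obtain ⟨D, hD⟩ := h'
  have h1 : Pre (A ++ B) ((A' ++ C) ++ (B' ++ D)) := Pre.of_reach (hC.append hD)
  refine h1.trans (Pre.sublist ?_)
  exact (List.sublist_append_left A' C).append (List.sublist_append_left B' D)

theorem Pre.map {H : Type*} [Group H] (f : G →* H) {L A : List G} (h : Pre L A) :
    Pre (L.map f) (A.map f) := by
  obtain ⟨B, hB⟩ := h
  refine ⟨B.map f, ?_⟩
  rw [← List.map_append]
  exact hB.map f

theorem Pre.lift {H : Type*} [Group H] (f : G →* H) {M : List H} {L : List G}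
    (h : Pre (L.map f) M) : ∃ A : List G, Pre L A ∧ A.map f = M := by
  obtain ⟨B, hB⟩ := h
  obtain ⟨L', h1, h2⟩ := hB.lift f
  rw [List.map_eq_append_iff] at h2
  obtain ⟨L1, L2, rfl, h3, _⟩ := h2
  exact ⟨L1, ⟨L2, h1⟩, h3⟩

theorem loop_iff (L : List G) (γ : G) : Loop L γ ↔ ∃ A, Pre L A ∧ A.prod = γ :=
  ⟨fun ⟨A, B, h, e⟩ => ⟨A, ⟨B, h⟩, e⟩, fun ⟨A, ⟨B, h⟩, e⟩ => ⟨A, B, h, e⟩⟩

theorem Loop.map {H : Type*} [Group H] (f : G →* H) {L : List G} {γ : G} (h : Loop L γ) :
    Loop (L.map f) (f γ) := by
  rw [loop_iff] at h ⊢
  obtain ⟨A, h1, rfl⟩ := h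
  exact ⟨A.map f, h1.map f, by rw [List.prod_hom]⟩

theorem Loop.of_pre {L L' : List G} {γ : G} (h : Pre L L') (h' : Loop L' γ) : Loop L γ := by
  rw [loop_iff] at h' ⊢
  obtain ⟨A, h1, e⟩ := h'
  exact ⟨A, h.trans h1, e⟩

/-! ### blocks -/

theorem conj_prod (c : G) (l : List G) :
    (l.map fun x => c⁻¹ * x * c).prod = c⁻¹ * l.prod * c := by
  induction l with
  | nil => simp
  | cons x l ih =>
    rw [List.map_cons, List.prod_cons, ih, List.prod_cons]
    group

theorem conj_prod' (c : G) (l : List G) :
    (l.map fun x => c * x * c⁻¹).prod = c * l.prod * c⁻¹ := by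
  induction l with
  | nil => simp
  | cons x l ih =>
    rw [List.map_cons, List.prod_cons, ih, List.prod_cons]
    group

/-- Blocks move like their products. -/
theorem blocks_move {Bs : List (List G)} {M : List G} (h : BMove (Bs.map List.prod) M) :
    ∃ Cs : List (List G), Cs.map List.prod = M ∧ BReach Bs.flatten Cs.flatten := by
  generalize hK : Bs.map List.prod = K at h
  cases h with
  | r P S a b =>
    rw [List.map_eq_append_iff] at hK
    obtain ⟨L1, L2, rfl, rfl, h2⟩ := hK
    rw [List.map_eq_cons_iff] at h2
    obtain ⟨a', L3, rfl, rfl, h3⟩ := h2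
    rw [List.map_eq_cons_iff] at h3
    obtain ⟨b', L4, rfl, rfl, rfl⟩ := h3
    refine ⟨L1 ++ b' :: (a'.map fun x => b'.prod⁻¹ * x * b'.prod) :: L4, ?_, ?_⟩
    · simp [conj_prod]
    · have key : BReach (a' ++ b') (b' ++ a'.map fun x => b'.prod⁻¹ * x * b'.prod) := by
        induction a' with
        | nil => simpa using BReach.refl _
        | cons x a' ih =>
          have h1 := ih.cons x
          have h2 := (pass_right x b').append_right (a'.map fun x => b'.prod⁻¹ * x * b'.prod)
          simp only [List.cons_append, List.append_assoc, List.map_cons, List.nil_append]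
            at h1 h2 ⊢
          exact h1.trans h2
      have h1 := key.context L1.flatten L4.flatten
      simpa using h1
  | l P S a b =>
    rw [List.map_eq_append_iff] at hK
    obtain ⟨L1, L2, rfl, rfl, h2⟩ := hK
    rw [List.map_eq_cons_iff] at h2
    obtain ⟨a', L3, rfl, rfl, h3⟩ := h2
    rw [List.map_eq_cons_iff] at h3
    obtain ⟨b', L4, rfl, rfl, rfl⟩ := h3
    refine ⟨L1 ++ (b'.map fun x => a'.prod * x * a'.prod⁻¹) :: a' :: L4, ?_, ?_⟩
    · simp [conj_prod']
    · have key : BReach (a' ++ b') ((b'.map fun x => a'.prod * x * a'.prod⁻¹) ++ a') := by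
        induction b' with
        | nil => simpa using BReach.refl _
        | cons x b' ih =>
          have h1 := (pass_left x a').append_right b'
          have h2 := ih.cons (a'.prod * x * a'.prod⁻¹)
          simp only [List.cons_append, List.append_assoc, List.map_cons, List.nil_append]
            at h1 h2 ⊢
          exact h1.trans h2
      have h1 := key.context L1.flatten L4.flatten
      simpa using h1

theorem blocks_reach {Bs : List (List G)} {M : List G} (h : BReach (Bs.map List.prod) M) :
    ∃ Cs : List (List G), Cs.map List.prod = M ∧ BReach Bs.flatten Cs.flatten := by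
  induction h with
  | refl => exact ⟨Bs, rfl, BReach.refl _⟩
  | tail _ hs ih =>
    obtain ⟨Cs, h1, h2⟩ := ih
    rw [← h1] at hs
    obtain ⟨Ds, h3, h4⟩ := blocks_move hs
    exact ⟨Ds, h3, h2.trans h4⟩

theorem blocks_loop {Bs : List (List G)} {γ : G} (h : Loop (Bs.map List.prod) γ) :
    Loop Bs.flatten γ := by
  obtain ⟨A, B, h1, rfl⟩ := h
  obtain ⟨Cs, h2, h3⟩ := blocks_reach h1
  rw [List.map_eq_append_iff] at h2
  obtain ⟨C1, C2, rfl, rfl, rfl⟩ := h2
  refine ⟨C1.flatten, C2.flatten, ?_, ?_⟩
  · rw [← List.flatten_append]
    exact h3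
  · exact List.prod_flatten

end

end Pool.Agent.HZ
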