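import Pool.Agent.Helper12.ScGreedy
import Pool.Agent.Helper7.Burnside

/-!
# Normal subgroups with roots of unity as eigenvalues of semisimple linear groups are finite
-/

set_option autoImplicit false

namespace Pool.Agent.HZ

open Matrix

/-- a matrix with the only eigenvalue one is unipotent -/
private theorem kol_nil {r : ℕ} (g : Matrix (Fin r) (Fin r) ℂ)
    (hroot : ∀ z : ℂ, g.charpoly.IsRoot z → z = 1) : IsNilpotent (g - 1) := by
  have h1 : g.charpoly = (Polynomial.X - Polynomial.C 1) ^ Multiset.card g.charpoly.roots := by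
    have h2 := (IsAlgClosed.splits g.charpoly).eq_prod_roots
    rw [(charpoly_monic g).leadingCoeff, Polynomial.C_1, one_mul] at h2
    have h3 : g.charpoly.roots = Multiset.replicate (Multiset.card g.charpoly.roots) 1 := by
      rw [Multiset.eq_replicate]
      refine ⟨rfl, ?_⟩
      intro z hz
      exact hroot z ((Polynomial.mem_roots (charpoly_monic g).ne_zero).1 hz)
    conv_lhs => rw [h2, h3]
    rw [Multiset.map_replicate, Multiset.prod_replicate]
  refine ⟨Multiset.card g.charpoly.roots, ?_⟩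
  have h4 := aeval_self_charpoly g
  rw [h1, map_pow, map_sub, Polynomial.aeval_X, Polynomial.aeval_C, map_one] at h4
  exact h4

/-- the action on a stable subspace -/
private noncomputable def kol_phi {r : ℕ} (G : Subgroup (GL (Fin r) ℂ))
    (W : Submodule ℂ (Fin r → ℂ))
    (hW : ∀ g ∈ G, ∀ v ∈ W, (g : Matrix (Fin r) (Fin r) ℂ) *ᵥ v ∈ W) :
    G →* Module.End ℂ W where
  toFun g := (Matrix.mulVecLin ((g : GL (Fin r) ℂ) : Matrix (Fin r) (Fin r) ℂ)).restrict
    (hW g g.2)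
  map_one' := by
    ext v
    simp
  map_mul' := by
    intro g h
    ext v
    simp

/-- **Kolchin**: a unipotent group has a fixed vector in every stable subspace. -/
private theorem kolchin {r : ℕ} (G : Subgroup (GL (Fin r) ℂ))
    (hG : ∀ g ∈ G, ∀ z : ℂ, (g : Matrix (Fin r) (Fin r) ℂ).charpoly.IsRoot z → z = 1)
    (U : Submodule ℂ (Fin r → ℂ))
    (hU : ∀ g ∈ G, ∀ v ∈ U, (g : Matrix (Fin r) (Fin r) ℂ) *ᵥ v ∈ U) (hU0 : U ≠ ⊥) :
    ∃ v ∈ U, v ≠ 0 ∧ ∀ g ∈ G, (g : Matrix (Fin r) (Fin r) ℂ) *ᵥ v = v := by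
  obtain ⟨W, ⟨hW0, hWU, hW⟩, hmin⟩ := (wellFounded_lt : WellFounded
    ((· < ·) : Submodule ℂ (Fin r → ℂ) → Submodule ℂ (Fin r → ℂ) → Prop)).has_min
    {W | W ≠ ⊥ ∧ W ≤ U ∧ ∀ g ∈ G, ∀ v ∈ W, (g : Matrix (Fin r) (Fin r) ℂ) *ᵥ v ∈ W}
    ⟨U, hU0, le_rfl, hU⟩
  haveI : Nontrivial W := Submodule.nontrivial_iff_ne_bot.mpr hW0
  set φ := kol_phi G W hW with hφ
  have hφv : ∀ (g : G) (v : W), ((φ g v : W) : Fin r → ℂ) =
      ((g : GL (Fin r) ℂ) : Matrix (Fin r) (Fin r) ℂ) *ᵥ (v : Fin r → ℂ) := fun g v => rfl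
  -- irreducibility
  have hirr : ∀ X : Submodule ℂ W, (∀ s ∈ Set.range φ, ∀ v ∈ X, s v ∈ X) → X = ⊥ ∨ X = ⊤ := by
    intro X hX
    by_cases h : X = ⊥
    · exact Or.inl h
    · right
      have h1 : X.map W.subtype ≠ ⊥ := by
        intro h2
        apply h
        rw [eq_bot_iff]
        intro v hv
        have h3 : W.subtype v ∈ X.map W.subtype := Submodule.mem_map_of_mem hv
        rw [h2] at h3
        exact (Submodule.mem_bot ℂ).mpr (Subtype.ext ((Submodule.mem_bot ℂ).mp h3))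
      have h2 : X.map W.subtype ≤ W := Submodule.map_subtype_le W X
      have h3 : X.map W.subtype = W := by
        by_contra hne
        refine hmin (X.map W.subtype) ⟨h1, h2.trans hWU, ?_⟩ (lt_of_le_of_ne h2 hne)
        rintro g hg _ ⟨v, hv, rfl⟩
        exact ⟨φ ⟨g, hg⟩ v, hX _ ⟨_, rfl⟩ v hv, rfl⟩
      rw [eq_top_iff]
      intro v _
      have h4 : (v : Fin r → ℂ) ∈ X.map W.subtype := by
        rw [h3]
        exact v.2
      obtain ⟨w, hw, hwv⟩ := h4
      have h5 : w = v := Subtype.ext hwv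
      rwa [← h5]
  -- Schur
  have hcomm : ∀ t : Module.End ℂ W, (∀ s ∈ Set.range φ, s * t = t * s) →
      ∃ c : ℂ, t = c • 1 := by
    intro t ht
    obtain ⟨c, hc⟩ := Module.End.exists_eigenvalue t
    refine ⟨c, ?_⟩
    have h1 : t.eigenspace c ≠ ⊥ := hc
    have h2 := hirr (t.eigenspace c) (by
      intro s hs v hv
      rw [Module.End.mem_eigenspace_iff] at hv ⊢
      have h3 : s (t v) = t (s v) := congrArg (fun f => f v) (ht s hs)
      rw [← h3, hv, map_smul])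
    have h3 := h2.resolve_left h1
    ext1 v
    have h4 : v ∈ t.eigenspace c := by
      rw [h3]
      trivial
    rw [Module.End.mem_eigenspace_iff] at h4
    exact h4
  have hbur := Helper7.burnside (Set.range φ) hirr hcomm
  have hspan : Submodule.span ℂ (Set.range φ) = ⊤ := by
    have h1 := Algebra.adjoin_eq_span ℂ (Set.range φ)
    rw [hbur, ← MonoidHom.coe_mrange, Submonoid.closure_eq] at h1
    rw [← MonoidHom.coe_mrange, ← h1]
    rfl
  -- traces
  have htr : ∀ g : G, LinearMap.trace ℂ W (φ g - 1) = 0 := by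
    intro g
    obtain ⟨k, hk⟩ := kol_nil _ (hG g g.2)
    have h1 : ∀ (k : ℕ) (v : W), (((φ g - 1) ^ k) v : Fin r → ℂ) =
        ((((g : GL (Fin r) ℂ) : Matrix (Fin r) (Fin r) ℂ) - 1) ^ k) *ᵥ (v : Fin r → ℂ) := by
      intro k
      induction k with
      | zero =>
        intro v
        simp
      | succ k ih =>
        intro v
        rw [pow_succ, pow_succ, Module.End.mul_apply, ih, ← Matrix.mulVec_mulVec]
        congr 1
        rw [LinearMap.sub_apply, Submodule.coe_sub, hφv, Matrix.sub_mulVec, Matrix.one_mulVec]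
        rfl
    have h2 : IsNilpotent (φ g - 1) := by
      refine ⟨k, ?_⟩
      ext1 v
      apply Subtype.ext
      rw [h1, hk, Matrix.zero_mulVec]
      rfl
    exact (LinearMap.isNilpotent_trace_of_isNilpotent h2).eq_zero
  have hone : ∀ h : G, φ h = 1 := by
    intro h
    have h1 : ∀ b : Module.End ℂ W, LinearMap.trace ℂ W ((φ h - 1) * b) = 0 := by
      intro b
      have hb : b ∈ Submodule.span ℂ (Set.range φ) := by
        rw [hspan]
        trivial
      induction hb using Submodule.span_induction with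
      | mem x hx =>
        obtain ⟨g, rfl⟩ := hx
        have h2 : (φ h - 1) * φ g = (φ (h * g) - 1) - (φ g - 1) := by
          ext1 w
          simp only [LinearMap.sub_apply, Module.End.mul_apply, map_mul, Module.End.one_apply]
          abel
        rw [h2]
        refine (LinearMap.map_sub (LinearMap.trace ℂ W) (φ (h * g) - 1) (φ g - 1)).trans ?_
        rw [htr, htr, sub_zero]
      | zero => rw [mul_zero, map_zero]
      | add x y _ _ hx hy => rw [mul_add, map_add, hx, hy, add_zero]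
      | smul a x _ hx => rw [mul_smul_comm, map_smul, hx, smul_zero]
    have h2 : φ h - 1 = 0 := by
      ext1 w
      rw [LinearMap.zero_apply]
      refine (Module.forall_dual_apply_eq_zero_iff ℂ _).mp fun f => ?_
      have h3 := h1 (f.smulRight w)
      have h4 : (φ h - 1) * (f.smulRight w) = f.smulRight ((φ h - 1) w) := by
        ext1 x
        simp
      rw [h4, LinearMap.trace_smulRight] at h3
      exact h3
    exact sub_eq_zero.mp h2
  obtain ⟨v, hv⟩ := exists_ne (0 : W)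
  refine ⟨v, hWU v.2, fun h => hv (Subtype.ext h), fun g hg => ?_⟩
  rw [← hφv ⟨g, hg⟩ v, hone]
  rfl

/-- Let `Γ` be a finitely generated completely reducible subgroup of `GL_r(ℂ)` and `N` a normal
subgroup all of whose elements have only roots of unity as eigenvalues.  Then `N` is finite.
PROOF. `exists_finite_quotient` (Helper88/ScTorsion) gives a homomorphism `ρ` from `Γ` to a finite
group such that the roots of unity among the eigenvalues of elements of its kernel are `1`.  So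
`N' = N ∩ ker ρ` is a unipotent group, normal in `Γ`, of finite index in `N`.  KOLCHIN: a unipotent
group acting on a nonzero space has a nonzero fixed vector (take a minimal nonzero stable subspace
`W`; `burnside` with Schur's lemma: the group spans `End W`; `tr ((h - 1) b) = 0` for `b` in the
group, so `h = 1` on `W`).  The fixed space of `N'` is stable under `Γ`; a stable complement has no
fixed vector so it is `0`: `N' = 1`. -/
theorem finite_of_roots {r : ℕ} (Γ N : Subgroup (GL (Fin r) ℂ)) (hfg : Γ.FG) (hN : N ≤ Γ)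
    (hnorm : ∀ γ ∈ Γ, ∀ n ∈ N, γ * n * γ⁻¹ ∈ N)
    (hroot : ∀ n ∈ N, ∀ z : ℂ, (n : Matrix (Fin r) (Fin r) ℂ).charpoly.IsRoot z →
      ∃ k > 0, z ^ k = 1)
    (hss : ∀ W : Submodule ℂ (Fin r → ℂ),
      (∀ γ ∈ Γ, ∀ v ∈ W, (γ : Matrix (Fin r) (Fin r) ℂ) *ᵥ v ∈ W) →
      ∃ W' : Submodule ℂ (Fin r → ℂ),
        (∀ γ ∈ Γ, ∀ v ∈ W', (γ : Matrix (Fin r) (Fin r) ℂ) *ᵥ v ∈ W') ∧ IsCompl W W') :
    Finite N := by
  obtain ⟨F, _, _, ρ, hρ⟩ := Helper12.Sc.exists_finite_quotient r Γ hfg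
  -- the unipotent subgroup
  let N' : Subgroup (GL (Fin r) ℂ) := (ρ.ker).map Γ.subtype ⊓ N
  have hN'N : ∀ g ∈ N', g ∈ N := fun g hg => hg.2
  have hN'1 : ∀ (g : GL (Fin r) ℂ) (hg : g ∈ Γ), g ∈ N → ρ ⟨g, hg⟩ = 1 → g ∈ N' :=
    fun g hg hgN h => ⟨⟨⟨g, hg⟩, h, rfl⟩, hgN⟩
  have hN'ρ : ∀ (g : GL (Fin r) ℂ) (hg : g ∈ Γ), g ∈ N' → ρ ⟨g, hg⟩ = 1 := by
    rintro g hg ⟨⟨⟨g', hg'⟩, h1, h2⟩, -⟩
    have h3 : g' = g := h2
    subst h3
    exact h1
  have huni : ∀ g ∈ N', ∀ z : ℂ, (g : Matrix (Fin r) (Fin r) ℂ).charpoly.IsRoot z → z = 1 := by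
    intro g hg z hz
    obtain ⟨k, hk, hzk⟩ := hroot g (hN'N g hg) z hz
    exact hρ ⟨g, hN (hN'N g hg)⟩ (hN'ρ g _ hg) z hz k hk hzk
  have hnorm' : ∀ γ ∈ Γ, ∀ g ∈ N', γ⁻¹ * g * γ ∈ N' := by
    intro γ hγ g hg
    have h1 := hnorm γ⁻¹ (Γ.inv_mem hγ) g (hN'N g hg)
    rw [inv_inv] at h1
    refine hN'1 _ (hN h1) h1 ?_
    have h2 : (⟨γ⁻¹ * g * γ, hN h1⟩ : Γ) = (⟨γ, hγ⟩ : Γ)⁻¹ * ⟨g, hN (hN'N g hg)⟩ * ⟨γ, hγ⟩ := rfl
    rw [h2, map_mul, map_mul, hN'ρ g _ hg, mul_one, map_inv, inv_mul_cancel]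
  -- the fixed space
  let W0 : Submodule ℂ (Fin r → ℂ) :=
    { carrier := {v | ∀ g ∈ N', (g : Matrix (Fin r) (Fin r) ℂ) *ᵥ v = v}
      zero_mem' := fun g _ => Matrix.mulVec_zero _
      add_mem' := fun {v w} hv hw g hg => by rw [Matrix.mulVec_add, hv g hg, hw g hg]
      smul_mem' := fun c v hv g hg => by rw [Matrix.mulVec_smul, hv g hg] }
  obtain ⟨W', hW', hcompl⟩ := hss W0 (by
    intro γ hγ v hv g hg
    have h1 := hv _ (hnorm' γ hγ g hg)
    have h2 : (g : Matrix (Fin r) (Fin r) ℂ) * (γ : Matrix (Fin r) (Fin r) ℂ) =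
        (γ : Matrix (Fin r) (Fin r) ℂ) *
          ((γ⁻¹ * g * γ : GL (Fin r) ℂ) : Matrix (Fin r) (Fin r) ℂ) := by
      rw [← Units.val_mul, ← Units.val_mul]
      congr 1
      group
    rw [Matrix.mulVec_mulVec, h2, ← Matrix.mulVec_mulVec, h1])
  have hbot : W' = ⊥ := by
    by_contra hne
    obtain ⟨v, hvW, hv0, hv⟩ := kolchin N' huni W'
      (fun g hg v hv => hW' g (hN (hN'N g hg)) v hv) hne
    apply hv0
    have h1 : v ∈ W0 ⊓ W' := ⟨hv, hvW⟩
    rw [hcompl.inf_eq_bot] at h1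
    exact (Submodule.mem_bot ℂ).mp h1
  have htop : W0 = ⊤ := by
    have h1 := hcompl.sup_eq_top
    rwa [hbot, sup_bot_eq] at h1
  have hN'bot : ∀ g ∈ N', g = 1 := by
    intro g hg
    apply Units.ext
    apply Matrix.ext_of_mulVec_single
    intro i
    have h1 : (Pi.single i 1 : Fin r → ℂ) ∈ W0 := by
      rw [htop]
      trivial
    rw [h1 g hg, Units.val_one, Matrix.one_mulVec]
  refine Finite.of_injective (fun n : N => ρ ⟨n, hN n.2⟩) fun a b hab => ?_
  have h1 : (a : GL (Fin r) ℂ) * (b : GL (Fin r) ℂ)⁻¹ ∈ N := N.mul_mem a.2 (N.inv_mem b.2)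
  have h2 : ρ ⟨(a : GL (Fin r) ℂ) * (b : GL (Fin r) ℂ)⁻¹, hN h1⟩ = 1 := by
    have h3 : (⟨(a : GL (Fin r) ℂ) * (b : GL (Fin r) ℂ)⁻¹, hN h1⟩ : Γ) =
        ⟨a, hN a.2⟩ * (⟨b, hN b.2⟩ : Γ)⁻¹ := rfl
    rw [h3, map_mul, map_inv]
    have hab' : ρ ⟨a, hN a.2⟩ = ρ ⟨b, hN b.2⟩ := hab
    rw [hab', mul_inv_cancel]
  have h3 := hN'bot _ (hN'1 _ (hN h1) h1 h2)
  exact Subtype.ext (mul_inv_eq_one.mp h3)

end Pool.Agent.HZ
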