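import Pool.Agent.HZ.Core
import Pool.Agent.HZ.Root
import Pool.Agent.HZ.Kol

/-!
# Local systems on punctured discs: almost all local monodromies are in a finite normal subgroup
-/

set_option autoImplicit false

namespace Pool.Agent.HZ

open Helper12.Sc Matrix Module Polynomial

section group
variable {G : Type} [Group G]

/-- a subgroup normalised by a list -/
def Nrm (N : Subgroup G) (L : List G) : Prop :=
  ∀ a ∈ Subgroup.closure {x | x ∈ L}, ∀ x ∈ N, a * x * a⁻¹ ∈ N

theorem Nrm.iff {N : Subgroup G} {L : List G} (h : Nrm N L) (a : G)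
    (ha : a ∈ Subgroup.closure {x | x ∈ L}) (x : G) : a * x * a⁻¹ ∈ N ↔ x ∈ N := by
  constructor
  · intro hx
    have h1 := h a⁻¹ (Subgroup.inv_mem _ ha) _ hx
    have e : a⁻¹ * (a * x * a⁻¹) * a⁻¹⁻¹ = x := by group
    rw [e] at h1
    exact h1
  · exact h a ha x

open Classical in
/-- the number of entries outside a normalised subgroup is invariant -/
theorem count_move {N : Subgroup G} {L L' : List G} (h : BMove L L') (hN : Nrm N L) :
    L'.countP (fun x => decide (x ∉ N)) = L.countP (fun x => decide (x ∉ N)) := by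
  cases h with
  | r P S a b =>
    have hb : b ∈ Subgroup.closure {x | x ∈ P ++ a :: b :: S} :=
      Subgroup.subset_closure (by simp)
    have h1 : b⁻¹ * a * b ∈ N ↔ a ∈ N := by
      have := hN.iff b⁻¹ (Subgroup.inv_mem _ hb) a
      rw [inv_inv] at this
      exact this
    simp only [List.countP_append, List.countP_cons, h1]
    omega
  | l P S a b =>
    have ha : a ∈ Subgroup.closure {x | x ∈ P ++ a :: b :: S} :=
      Subgroup.subset_closure (by simp)
    have h1 : a * b * a⁻¹ ∈ N ↔ b ∈ N := hN.iff a ha b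
    simp only [List.countP_append, List.countP_cons, h1]
    omega

open Classical in
theorem count_reach {N : Subgroup G} {L L' : List G} (h : BReach L L') (hN : Nrm N L) :
    L'.countP (fun x => decide (x ∉ N)) = L.countP (fun x => decide (x ∉ N)) := by
  have key : Nrm N L' ∧
      L'.countP (fun x => decide (x ∉ N)) = L.countP (fun x => decide (x ∉ N)) := by
    induction h with
    | refl => exact ⟨hN, rfl⟩
    | tail _ hs ih =>
      refine ⟨?_, (count_move hs ih.1).trans ih.2⟩
      intro a ha
      exact ih.1 a (hs.closure_le ha)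
  exact key.2

theorem cj_right (P R : List G) (g : G) (hg : g ∈ Subgroup.closure {x | x ∈ R}) : g ∈ cj P R :=
  ⟨1, Subgroup.one_mem _, g, hg, by simp⟩

theorem nrm_cj (P R : List G) : Nrm (Subgroup.closure (cj P R)) (P ++ R) := by
  have key : ∀ a ∈ Subgroup.closure {x | x ∈ P ++ R}, ∀ x ∈ Subgroup.closure (cj P R),
      a * x * a⁻¹ ∈ Subgroup.closure (cj P R) ∧ a⁻¹ * x * a ∈ Subgroup.closure (cj P R) := by
    intro a ha
    induction ha using Subgroup.closure_induction with
    | mem a ha =>
      simp only [Set.mem_ofPred_eq, List.mem_append] at ha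
      rcases ha with ha | ha
      · have haP : a ∈ Subgroup.closure {x | x ∈ P} := Subgroup.subset_closure ha
        have hconj : ∀ b ∈ Subgroup.closure {x | x ∈ P}, ∀ x ∈ Subgroup.closure (cj P R),
            b * x * b⁻¹ ∈ Subgroup.closure (cj P R) := by
          intro b hb x hx
          induction hx using Subgroup.closure_induction with
          | mem x hx =>
            obtain ⟨w, hw, g, hg, rfl⟩ := hx
            refine Subgroup.subset_closure ⟨b * w, Subgroup.mul_mem _ hb hw, g, hg, ?_⟩
            group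
          | one => simp
          | mul x y _ _ hx hy =>
            have e : b * (x * y) * b⁻¹ = (b * x * b⁻¹) * (b * y * b⁻¹) := by group
            rw [e]
            exact Subgroup.mul_mem _ hx hy
          | inv x _ hx =>
            have e : b * x⁻¹ * b⁻¹ = (b * x * b⁻¹)⁻¹ := by group
            rw [e]
            exact Subgroup.inv_mem _ hx
        intro x hx
        refine ⟨hconj a haP x hx, ?_⟩
        have h1 := hconj a⁻¹ (Subgroup.inv_mem _ haP) x hx
        rw [inv_inv] at h1
        exact h1
      · have haN : a ∈ Subgroup.closure (cj P R) :=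
          Subgroup.subset_closure (cj_right P R a (Subgroup.subset_closure ha))
        intro x hx
        exact ⟨Subgroup.mul_mem _ (Subgroup.mul_mem _ haN hx) (Subgroup.inv_mem _ haN),
          Subgroup.mul_mem _ (Subgroup.mul_mem _ (Subgroup.inv_mem _ haN) hx) haN⟩
    | one => intro x hx; simpa using hx
    | mul a b _ _ ha hb =>
      intro x hx
      have h1 := ha _ (hb x hx).1
      have h2 := hb _ (ha x hx).2
      constructor
      · have e : a * b * x * (a * b)⁻¹ = a * (b * x * b⁻¹) * a⁻¹ := by group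
        rw [e]
        exact h1.1
      · have e : (a * b)⁻¹ * x * (a * b) = b⁻¹ * (a⁻¹ * x * a) * b := by group
        rw [e]
        exact h2.2
    | inv a _ ha =>
      intro x hx
      rw [inv_inv]
      exact ⟨(ha x hx).2, (ha x hx).1⟩
  exact fun a ha x hx => (key a ha x hx).1

end group

theorem closure_std (n : ℕ) : Subgroup.closure {x | x ∈ std n} = ⊤ := by
  rw [eq_top_iff, ← FreeGroup.closure_range_of]
  refine Subgroup.closure_mono ?_
  rintro x ⟨i, rfl⟩
  simp [std]

/-- Almost all the local monodromies of a local system on a punctured disc whose simple loops have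
only roots of unity as eigenvalues generate a normal subgroup all of whose elements have only roots
of unity as eigenvalues. -/
theorem main (r : ℕ) : ∃ N : ℕ, ∀ (n : ℕ) (ρ : FreeGroup (Fin n) →* GL (Fin r) ℂ),
    (∀ γ, IsSimpleLoop γ → ∀ z : ℂ, (ρ γ : Matrix (Fin r) (Fin r) ℂ).charpoly.IsRoot z →
      ∃ k > 0, z ^ k = 1) →
    ∃ (S : Finset (Fin n)) (H : Subgroup (GL (Fin r) ℂ)), S.card ≤ N ∧ H ≤ ρ.range ∧
      (∀ γ ∈ ρ.range, ∀ h ∈ H, γ * h * γ⁻¹ ∈ H) ∧ (∀ i ∉ S, ρ (FreeGroup.of i) ∈ H) ∧
      ∀ h ∈ H, ∀ z : ℂ, (h : Matrix (Fin r) (Fin r) ℂ).charpoly.IsRoot z →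
        ∃ k > 0, z ^ k = 1 := by
  classical
  obtain ⟨N, hN⟩ := core (fun d => (6 * r ^ 2 + 1) ^ d) (d0 r)
  refine ⟨N, ?_⟩
  intro n ρ hρ
  have hrange : Subgroup.closure {x | x ∈ (std n).map ρ} = ρ.range := by
    have h1 : {x | x ∈ (std n).map ρ} = ρ '' {x | x ∈ std n} := by
      ext x
      simp
    rw [h1, ← MonoidHom.map_closure, closure_std, MonoidHom.range_eq_map]
  have hfg : (ρ.range).FG := by
    rw [← hrange, Subgroup.fg_iff]
    exact ⟨_, rfl, List.finite_toSet _⟩
  obtain ⟨M, hM, hexp⟩ := exists_exponent ρ.range hfg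
  obtain ⟨σ, σ', hσ, horb⟩ := exists_auts M hM
  obtain ⟨P, R, hPR, hPlen, hzero⟩ := hN (GL (Fin r) ℂ) (Ix r) (cr σ σ') (good_cr σ σ')
    (finrank_cr σ σ') {F | ∃ i j, F = Es σ σ' i j} (by
      rintro F ⟨i, j, rfl⟩
      exact Es_mem σ σ' i j) ((std n).map ρ) (by
      rintro γ hγ F ⟨i, j, rfl⟩
      rw [loop_iff] at hγ
      obtain ⟨A, hA, rfl⟩ := hγ
      obtain ⟨A', hA', rfl⟩ := hA.lift ρ
      rw [List.prod_hom]
      have hsl : IsSimpleLoop A'.prod := (loop_iff _ _).2 ⟨A', hA', rfl⟩
      refine Es_zero σ σ' M hσ _ ?_ i j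
      intro z hz
      exact hexp _ ⟨_, rfl⟩ z hz (hρ _ hsl z hz))
  have hPRc : Subgroup.closure {x | x ∈ P ++ R} = ρ.range := by
    rw [hPR.closure_eq, hrange]
  have hnrm : Nrm (Subgroup.closure (cj P R)) ((std n).map ρ) := by
    intro a ha
    rw [hrange, ← hPRc] at ha
    exact nrm_cj P R a ha
  refine ⟨Finset.univ.filter fun i => ρ (FreeGroup.of i) ∉ Subgroup.closure (cj P R),
    Subgroup.closure (cj P R), ?_, ?_, ?_, ?_, ?_⟩
  · have h1 := count_reach hPR hnrm
    have h2 : ((std n).map ρ).countP (fun x => decide (x ∉ Subgroup.closure (cj P R))) =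
        (Finset.univ.filter fun i => ρ (FreeGroup.of i) ∉ Subgroup.closure (cj P R)).card := by
      rw [std, List.map_map, List.countP_map, List.countP_eq_length_filter]
      rw [Finset.card_def, Finset.filter_val]
      simp [Fin.univ_val_map, Function.comp_def, Finset.univ, Fintype.elems]
    rw [← h2, ← h1, List.countP_append]
    have h3 : R.countP (fun x => decide (x ∉ Subgroup.closure (cj P R))) = 0 := by
      rw [List.countP_eq_zero]
      intro x hx
      have : x ∈ Subgroup.closure (cj P R) :=
        Subgroup.subset_closure (cj_right P R x (Subgroup.subset_closure hx))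
      simpa using this
    rw [h3, add_zero]
    exact List.countP_le_length.trans hPlen
  · rw [Subgroup.closure_le]
    rintro x ⟨w, hw, g, hg, rfl⟩
    rw [← hPRc]
    have hw' : w ∈ Subgroup.closure {x | x ∈ P ++ R} :=
      Subgroup.closure_mono (fun x hx => List.mem_append_left R hx) hw
    have hg' : g ∈ Subgroup.closure {x | x ∈ P ++ R} :=
      Subgroup.closure_mono (fun x hx => List.mem_append_right P hx) hg
    exact Subgroup.mul_mem _ (Subgroup.mul_mem _ hw' hg') (Subgroup.inv_mem _ hw')
  · intro γ hγ h hh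
    rw [← hrange] at hγ
    exact hnrm γ hγ h hh
  · intro i hi
    simpa using hi
  · intro h hh z hz
    exact root_of_Es σ σ' horb h (fun i j => hzero h hh _ ⟨i, j, rfl⟩) z hz

end Pool.Agent.HZ
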