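import Pool.Agent.HZ.Pairs

/-!
# Universal words of bounded length
-/

set_option autoImplicit false

namespace Pool.Agent.HZ

/-- the properties of the universal word -/
def Uni {q m : ℕ} (w : Fin m → List (Fin q)) (W : FreeGroup (Fin q ⊕ Fin m × Bool)) : Prop :=
  (∀ (G : Type) [Group G] (y : Fin q → G) (v : Fin m × Bool → G), Loop (tup y v) (evw y v W)) ∧
    ∀ (G : Type) [Group G] (y : Fin q → G) (g : Fin m → G),
      evw y (fun p => if p.2 then (g p.1)⁻¹ else g p.1) W =
        ((List.finRange m).map fun i => ((w i).map y).prod * g i * ((w i).map y).prod⁻¹).prod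

theorem exists_uni {q m : ℕ} (w : Fin m → List (Fin q)) :
    ∃ W : FreeGroup (Fin q ⊕ Fin m × Bool), Uni w W := by
  obtain ⟨W, h1, h2⟩ := exists_word (fun i => ((w i).map FreeGroup.of).prod)
  refine ⟨W, h1, ?_⟩
  intro G _ y g
  rw [h2]
  congr 1
  apply List.map_congr_left
  intro i _
  have e : FreeGroup.lift y ((w i).map FreeGroup.of).prod = ((w i).map y).prod := by
    rw [← List.prod_hom, List.map_map]
    congr 1
    apply List.map_congr_left
    intro j _
    simp
  rw [e]

open Classical in
theorem exists_bound_one (q m l : ℕ) :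
    ∃ D : ℕ, ∀ w : Fin m → List (Fin q), (∀ i, (w i).length ≤ l) →
      ∃ W : FreeGroup (Fin q ⊕ Fin m × Bool), W.toWord.length ≤ D ∧ Uni w W := by
  choose W hW using fun w : Fin m → List (Fin q) => exists_uni w
  have hfin : {w : Fin m → List (Fin q) | ∀ i, (w i).length ≤ l}.Finite := by
    have h1 : {u : List (Fin q) | u.length ≤ l}.Finite := List.finite_length_le _ _
    have h2 := Set.Finite.pi (fun _ : Fin m => h1)
    refine h2.subset ?_
    intro w hw i _
    exact hw i
  refine ⟨hfin.toFinset.sup fun w => (W w).toWord.length, ?_⟩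
  intro w hw
  refine ⟨W w, ?_, hW w⟩
  exact Finset.le_sup (f := fun w => (W w).toWord.length) (hfin.mem_toFinset.2 hw)

open Classical in
/-- There is a bound for the lengths of the universal words. -/
theorem exists_bound (Q0 m l : ℕ) :
    ∃ D : ℕ, ∀ q ≤ Q0, ∀ w : Fin m → List (Fin q), (∀ i, (w i).length ≤ l) →
      ∃ W : FreeGroup (Fin q ⊕ Fin m × Bool), W.toWord.length ≤ D ∧ Uni w W := by
  choose D hD using fun q : ℕ => exists_bound_one q m l
  refine ⟨(Finset.range (Q0 + 1)).sup D, ?_⟩
  intro q hq w hw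
  obtain ⟨W, h1, h2⟩ := hD q w hw
  refine ⟨W, h1.trans ?_, h2⟩
  exact Finset.le_sup (f := D) (Finset.mem_range.2 (by omega))

end Pool.Agent.HZ
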