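import Mathlib

/-!
# Clifford theory over the complex numbers, part A: the algebra of a normal subgroup
-/

set_option autoImplicit false

namespace Pool.Agent.HZ

open Module

variable {V : Type} [AddCommGroup V] [Module ℂ V] {G : Type} [Group G]

/-- the algebra generated by the operators of a subgroup -/
def algK (ρ : G →* (V ≃ₗ[ℂ] V)) (K : Subgroup G) : Subalgebra ℂ (Module.End ℂ V) :=
  Algebra.adjoin ℂ {f | ∃ x ∈ K, f = (ρ x : V →ₗ[ℂ] V)}

variable (ρ : G →* (V ≃ₗ[ℂ] V)) (K : Subgroup G)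

theorem mem_algK {x : G} (hx : x ∈ K) : (ρ x : V →ₗ[ℂ] V) ∈ algK ρ K :=
  Algebra.subset_adjoin ⟨x, hx, rfl⟩

/-- an element of the subgroup as an element of the algebra -/
def elK {x : G} (hx : x ∈ K) : algK ρ K := ⟨_, mem_algK ρ K hx⟩

theorem elK_smul {x : G} (hx : x ∈ K) (v : V) : elK ρ K hx • v = ρ x v := rfl

/-- conjugation -/
def cjg (g : G) (a : Module.End ℂ V) : Module.End ℂ V :=
  (ρ g : V →ₗ[ℂ] V) ∘ₗ a ∘ₗ (ρ g⁻¹ : V →ₗ[ℂ] V)

theorem cjg_apply (g : G) (a : Module.End ℂ V) (v : V) : cjg ρ g a v = ρ g (a (ρ g⁻¹ v)) := rfl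

theorem inv_app (g : G) (v : V) : ρ g⁻¹ (ρ g v) = v := by
  have h : ρ g⁻¹ * ρ g = 1 := by rw [← map_mul, inv_mul_cancel, map_one]
  exact DFunLike.congr_fun h v

theorem app_inv (g : G) (v : V) : ρ g (ρ g⁻¹ v) = v := by
  have h : ρ g * ρ g⁻¹ = 1 := by rw [← map_mul, mul_inv_cancel, map_one]
  exact DFunLike.congr_fun h v

theorem mul_app (g h : G) (v : V) : ρ (g * h) v = ρ g (ρ h v) := by
  rw [map_mul]
  rfl

theorem cjg_mem [hK : K.Normal] (g : G) {a : Module.End ℂ V} (ha : a ∈ algK ρ K) :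
    cjg ρ g a ∈ algK ρ K := by
  unfold algK at ha
  induction ha using Algebra.adjoin_induction with
  | mem f hf =>
    obtain ⟨x, hx, rfl⟩ := hf
    have h1 : cjg ρ g (ρ x : V →ₗ[ℂ] V) = (ρ (g * x * g⁻¹) : V →ₗ[ℂ] V) := by
      ext v
      show ρ g (ρ x (ρ g⁻¹ v)) = ρ (g * x * g⁻¹) v
      rw [mul_app, mul_app]
    rw [h1]
    exact mem_algK ρ K (hK.conj_mem x hx g)
  | algebraMap c =>
    have h1 : cjg ρ g (algebraMap ℂ (Module.End ℂ V) c) = algebraMap ℂ (Module.End ℂ V) c := by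
      ext v
      rw [cjg_apply, Module.algebraMap_end_apply, Module.algebraMap_end_apply, map_smul, app_inv]
    rw [h1]
    exact Subalgebra.algebraMap_mem _ _
  | add a b _ _ ha hb =>
    have h1 : cjg ρ g (a + b) = cjg ρ g a + cjg ρ g b := by
      ext v
      rw [cjg_apply, LinearMap.add_apply, LinearMap.add_apply, cjg_apply, cjg_apply, map_add]
    rw [h1]
    exact Subalgebra.add_mem _ ha hb
  | mul a b _ _ ha hb =>
    have h1 : cjg ρ g (a * b) = cjg ρ g a * cjg ρ g b := by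
      ext v
      show ρ g (a (b (ρ g⁻¹ v))) = ρ g (a (ρ g⁻¹ (ρ g (b (ρ g⁻¹ v)))))
      rw [inv_app]
    rw [h1]
    exact Subalgebra.mul_mem _ ha hb

/-- an element of the algebra conjugated by `g` -/
def cjA [K.Normal] (g : G) (a : algK ρ K) : algK ρ K := ⟨cjg ρ g a, cjg_mem ρ K g a.2⟩

theorem smul_app [K.Normal] (g : G) (a : algK ρ K) (v : V) :
    ρ g (a • v) = cjA ρ K g a • ρ g v := by
  show ρ g ((a : Module.End ℂ V) v) = ρ g ((a : Module.End ℂ V) (ρ g⁻¹ (ρ g v)))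
  rw [inv_app]

/-- the translate of a submodule -/
def trK [K.Normal] (g : G) (U : Submodule (algK ρ K) V) : Submodule (algK ρ K) V where
  carrier := {v | ρ g⁻¹ v ∈ U}
  add_mem' := by
    intro v w hv hw
    show ρ g⁻¹ (v + w) ∈ U
    rw [map_add]
    exact U.add_mem hv hw
  zero_mem' := by
    show ρ g⁻¹ 0 ∈ U
    rw [map_zero]
    exact U.zero_mem
  smul_mem' := by
    intro a v hv
    show ρ g⁻¹ (a • v) ∈ U
    rw [smul_app ρ K g⁻¹]
    exact U.smul_mem _ hv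

theorem mem_trK [K.Normal] (g : G) (U : Submodule (algK ρ K) V) (v : V) :
    v ∈ trK ρ K g U ↔ ρ g⁻¹ v ∈ U := Iff.rfl

theorem app_mem_trK [K.Normal] (g : G) {U : Submodule (algK ρ K) V} {v : V} (hv : v ∈ U) :
    ρ g v ∈ trK ρ K g U := by
  rw [mem_trK, inv_app]
  exact hv

theorem trK_mul [K.Normal] (g h : G) (U : Submodule (algK ρ K) V) :
    trK ρ K (g * h) U = trK ρ K g (trK ρ K h U) := by
  ext v
  rw [mem_trK, mem_trK, mem_trK, mul_inv_rev, mul_app]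

theorem trK_one [K.Normal] (U : Submodule (algK ρ K) V) : trK ρ K 1 U = U := by
  ext v
  rw [mem_trK, inv_one, map_one]
  rfl

/-- the translation of submodules -/
def trI [K.Normal] (g : G) : Submodule (algK ρ K) V ≃o Submodule (algK ρ K) V where
  toFun := trK ρ K g
  invFun := trK ρ K g⁻¹
  left_inv U := by rw [← trK_mul, inv_mul_cancel, trK_one]
  right_inv U := by rw [← trK_mul, mul_inv_cancel, trK_one]
  map_rel_iff' := by
    intro U W
    constructor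
    · intro h v hv
      have h1 := h (app_mem_trK ρ K g hv)
      change ρ g v ∈ trK ρ K g W at h1
      rw [mem_trK, inv_app] at h1
      exact h1
    · intro h v hv
      exact h hv

theorem trI_apply [K.Normal] (g : G) (U : Submodule (algK ρ K) V) : trI ρ K g U = trK ρ K g U := rfl

/-- translates of isomorphic submodules are isomorphic -/
def trE [K.Normal] (g : G) {U W : Submodule (algK ρ K) V} (f : U ≃ₗ[algK ρ K] W) :
    trK ρ K g U ≃ₗ[algK ρ K] trK ρ K g W where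
  toFun v := ⟨ρ g (f ⟨ρ g⁻¹ v, v.2⟩ : V), app_mem_trK ρ K g (f ⟨ρ g⁻¹ v, v.2⟩).2⟩
  invFun v := ⟨ρ g (f.symm ⟨ρ g⁻¹ v, v.2⟩ : V), app_mem_trK ρ K g (f.symm ⟨ρ g⁻¹ v, v.2⟩).2⟩
  map_add' v w := by
    apply Subtype.ext
    show ρ g (f ⟨ρ g⁻¹ (v + w : V), _⟩ : V) = ρ g (f ⟨ρ g⁻¹ v, _⟩ : V) + ρ g (f ⟨ρ g⁻¹ w, _⟩ : V)
    have h1 : (⟨ρ g⁻¹ (v + w : V), (v + w).2⟩ : U) = ⟨ρ g⁻¹ v, v.2⟩ + ⟨ρ g⁻¹ w, w.2⟩ := by
      apply Subtype.ext
      exact map_add (ρ g⁻¹) _ _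
    have h2 := congrArg (fun u : U => ρ g (f u : V)) h1
    refine h2.trans ?_
    show ρ g (f (_ + _) : V) = _
    rw [map_add, Submodule.coe_add, map_add]
  map_smul' a v := by
    apply Subtype.ext
    show ρ g (f ⟨ρ g⁻¹ (a • v : V), _⟩ : V) = a • ρ g (f ⟨ρ g⁻¹ v, _⟩ : V)
    have h1 : (⟨ρ g⁻¹ (a • v : V), (a • v).2⟩ : U) = cjA ρ K g⁻¹ a • ⟨ρ g⁻¹ v, v.2⟩ := by
      apply Subtype.ext
      exact smul_app ρ K g⁻¹ a v
    have h2 := congrArg (fun u : U => ρ g (f u : V)) h1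
    refine h2.trans ?_
    show ρ g (f (cjA ρ K g⁻¹ a • _) : V) = _
    rw [map_smul, Submodule.coe_smul, smul_app ρ K g]
    congr 1
    apply Subtype.ext
    ext w
    show ρ g (ρ g⁻¹ ((a : Module.End ℂ V) (ρ g⁻¹⁻¹ (ρ g⁻¹ w)))) = (a : Module.End ℂ V) w
    rw [app_inv, inv_inv, app_inv]
  left_inv v := by
    apply Subtype.ext
    show ρ g (f.symm ⟨ρ g⁻¹ (ρ g (f ⟨ρ g⁻¹ v, v.2⟩ : V)), _⟩ : V) = v
    have h1 : (⟨ρ g⁻¹ (ρ g (f ⟨ρ g⁻¹ v, v.2⟩ : V)), by rw [inv_app]; exact Subtype.mem _⟩ : W) =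
        f ⟨ρ g⁻¹ v, v.2⟩ := by
      apply Subtype.ext
      exact inv_app ρ g _
    have h2 := congrArg (fun u : W => ρ g (f.symm u : V)) h1
    refine h2.trans ?_
    show ρ g (f.symm (f _) : V) = v
    rw [LinearEquiv.symm_apply_apply]
    exact app_inv ρ g _
  right_inv v := by
    apply Subtype.ext
    show ρ g (f ⟨ρ g⁻¹ (ρ g (f.symm ⟨ρ g⁻¹ v, v.2⟩ : V)), _⟩ : V) = v
    have h1 : (⟨ρ g⁻¹ (ρ g (f.symm ⟨ρ g⁻¹ v, v.2⟩ : V)), by rw [inv_app]; exact Subtype.mem _⟩ : U) =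
        f.symm ⟨ρ g⁻¹ v, v.2⟩ := by
      apply Subtype.ext
      exact inv_app ρ g _
    have h2 := congrArg (fun u : U => ρ g (f u : V)) h1
    refine h2.trans ?_
    show ρ g (f (f.symm _) : V) = v
    rw [LinearEquiv.apply_symm_apply]
    exact app_inv ρ g _

theorem simple_trK [K.Normal] (g : G) (U : Submodule (algK ρ K) V)
    (h : IsSimpleModule (algK ρ K) U) : IsSimpleModule (algK ρ K) (trK ρ K g U) := by
  rw [isSimpleModule_iff_isAtom] at h ⊢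
  rw [← trI_apply, OrderIso.isAtom_iff]
  exact h

theorem trK_isotypic [K.Normal] (g : G) (U : Submodule (algK ρ K) V) :
    trK ρ K g (isotypicComponent (algK ρ K) V U) =
      isotypicComponent (algK ρ K) V (trK ρ K g U) := by
  unfold isotypicComponent
  rw [← trI_apply, OrderIso.map_sSup, ← sSup_image]
  congr 1
  ext W
  constructor
  · rintro ⟨m, ⟨e⟩, rfl⟩
    exact ⟨trE ρ K g e⟩
  · rintro ⟨e⟩
    refine ⟨trK ρ K g⁻¹ W, ⟨?_⟩, ?_⟩
    · have e1 := trE ρ K g⁻¹ e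
      have e2 : trK ρ K g⁻¹ (trK ρ K g U) = U := by rw [← trK_mul, inv_mul_cancel, trK_one]
      exact e1.trans (LinearEquiv.ofEq _ _ e2)
    · show trK ρ K g (trK ρ K g⁻¹ W) = W
      rw [← trK_mul, mul_inv_cancel, trK_one]

end Pool.Agent.HZ
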