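import Pool.Agent.HZ.ClfA

/-!
# Clifford theory over the complex numbers, part B: the isotypic components
-/

set_option autoImplicit false

namespace Pool.Agent.HZ

open Module

variable {V : Type} [AddCommGroup V] [Module ℂ V] {G : Type} [Group G]
variable (ρ : G →* (V ≃ₗ[ℂ] V)) (K : Subgroup G)

/-- irreducibility -/
def IrrV : Prop := ∀ W : Submodule ℂ V, (∀ g, ∀ v ∈ W, ρ g v ∈ W) → W = ⊥ ∨ W = ⊤

theorem exists_simple [FiniteDimensional ℂ V] [Nontrivial V] :
    ∃ U : Submodule (algK ρ K) V, IsSimpleModule (algK ρ K) U := by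
  have h1 : IsArtinian (algK ρ K) V := isArtinian_of_tower ℂ inferInstance
  obtain ⟨U, hU⟩ := IsAtomic.exists_atom (Submodule (algK ρ K) V)
  rw [← isSimpleModule_iff_isAtom] at hU
  exact ⟨U, hU⟩

theorem iSup_trK [K.Normal] (hirr : IrrV ρ) (U : Submodule (algK ρ K) V) (hU : U ≠ ⊥) :
    (⨆ g, trK ρ K g U) = ⊤ := by
  have h1 := hirr ((⨆ g, trK ρ K g U).restrictScalars ℂ) (by
    intro h v hv
    have h2 : (⨆ g, trK ρ K g U) ≤ trK ρ K h⁻¹ (⨆ g, trK ρ K g U) := by
      refine iSup_le fun g => ?_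
      have h3 : trK ρ K h (trK ρ K g U) ≤ ⨆ g, trK ρ K g U := by
        rw [← trK_mul]
        exact le_iSup (fun g => trK ρ K g U) (h * g)
      intro w hw
      rw [mem_trK, inv_inv]
      exact h3 (app_mem_trK ρ K h hw)
    have h4 := h2 hv
    rw [mem_trK, inv_inv] at h4
    exact h4)
  rcases h1 with h1 | h1
  · exfalso
    apply hU
    rw [eq_bot_iff]
    intro v hv
    have h2 : v ∈ (⨆ g, trK ρ K g U).restrictScalars ℂ := by
      have h3 := le_iSup (fun g => trK ρ K g U) 1
      rw [trK_one] at h3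
      exact h3 hv
    rw [h1] at h2
    exact h2
  · rw [eq_top_iff]
    intro v _
    have h2 : v ∈ (⨆ g, trK ρ K g U).restrictScalars ℂ := by
      rw [h1]
      exact Submodule.mem_top
    exact h2

theorem semisimple [K.Normal] (hirr : IrrV ρ) (U : Submodule (algK ρ K) V)
    (hU : IsSimpleModule (algK ρ K) U) : IsSemisimpleModule (algK ρ K) V := by
  have h1 : U ≠ ⊥ := by
    have := IsSimpleModule.nontrivial (algK ρ K) U
    exact (Submodule.nontrivial_iff_ne_bot).1 this
  refine isSemisimpleModule_of_isSemisimpleModule_submodule' (p := fun g => trK ρ K g U) ?_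
    (iSup_trK ρ K hirr U h1)
  intro g
  have := simple_trK ρ K g U hU
  infer_instance

/-- every component is a translate of the first one -/
theorem component_eq [K.Normal] (hirr : IrrV ρ) (U : Submodule (algK ρ K) V)
    (hU : IsSimpleModule (algK ρ K) U) (c : Submodule (algK ρ K) V)
    (hc : c ∈ isotypicComponents (algK ρ K) V) :
    ∃ g, c = trK ρ K g (isotypicComponent (algK ρ K) V U) := by
  obtain ⟨S, hS, rfl⟩ := hc
  have h1 : U ≠ ⊥ := by
    have := IsSimpleModule.nontrivial (algK ρ K) U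
    exact (Submodule.nontrivial_iff_ne_bot).1 this
  have h2 : S ≤ sSup (Set.range fun g => trK ρ K g U) := by
    rw [sSup_range, iSup_trK ρ K hirr U h1]
    exact le_top
  have h3 : ∀ m : (Set.range fun g => trK ρ K g U), IsSimpleModule (algK ρ K) m := by
    rintro ⟨_, g, rfl⟩
    exact simple_trK ρ K g U hU
  obtain ⟨_, ⟨g, rfl⟩, ⟨e⟩⟩ := S.linearEquiv_of_le_sSup _ h2
  refine ⟨g, ?_⟩
  rw [trK_isotypic]
  exact e.isotypicComponent_eq

theorem trK_mem_components [K.Normal] (U : Submodule (algK ρ K) V)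
    (hU : IsSimpleModule (algK ρ K) U) (g : G) :
    trK ρ K g (isotypicComponent (algK ρ K) V U) ∈ isotypicComponents (algK ρ K) V := by
  rw [trK_isotypic]
  exact ⟨_, simple_trK ρ K g U hU, rfl⟩

/-- the stabiliser of a submodule -/
def stK [K.Normal] (W : Submodule (algK ρ K) V) : Subgroup G where
  carrier := {g | trK ρ K g W = W}
  one_mem' := trK_one ρ K W
  mul_mem' := by
    intro g h hg hh
    show trK ρ K (g * h) W = W
    rw [trK_mul, (hh : trK ρ K h W = W), (hg : trK ρ K g W = W)]
  inv_mem' := by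
    intro g hg
    have h1 : trK ρ K g W = W := hg
    show trK ρ K g⁻¹ W = W
    have h2 : trK ρ K g⁻¹ (trK ρ K g W) = W := by rw [← trK_mul, inv_mul_cancel, trK_one]
    rw [h1] at h2
    exact h2

theorem mem_stK [K.Normal] (W : Submodule (algK ρ K) V) (g : G) :
    g ∈ stK ρ K W ↔ trK ρ K g W = W := Iff.rfl

theorem le_stK [K.Normal] (W : Submodule (algK ρ K) V) : K ≤ stK ρ K W := by
  intro x hx
  rw [mem_stK]
  ext v
  rw [mem_trK]
  constructor
  · intro h
    have h1 := W.smul_mem (elK ρ K hx) h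
    rw [elK_smul, app_inv] at h1
    exact h1
  · intro h
    have h1 := W.smul_mem (elK ρ K (K.inv_mem hx)) h
    rw [elK_smul] at h1
    exact h1

/-- the translate as a complex vector space -/
def trC [K.Normal] (g : G) (W : Submodule (algK ρ K) V) : W ≃ₗ[ℂ] trK ρ K g W where
  toFun v := ⟨ρ g v, app_mem_trK ρ K g v.2⟩
  invFun v := ⟨ρ g⁻¹ v, v.2⟩
  map_add' _ _ := Subtype.ext (map_add (ρ g) _ _)
  map_smul' c v := Subtype.ext (map_smul (ρ g) c (v : V))
  left_inv _ := Subtype.ext (inv_app ρ g _)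
  right_inv _ := Subtype.ext (app_inv ρ g _)

/-- the components indexed by cosets -/
noncomputable def comp [K.Normal] (W : Submodule (algK ρ K) V) (q : G ⧸ stK ρ K W) :
    Submodule (algK ρ K) V := trK ρ K q.out W

theorem comp_inj [K.Normal] (W : Submodule (algK ρ K) V) : Function.Injective (comp ρ K W) := by
  intro q q' h
  unfold comp at h
  have h1 : q.out⁻¹ * q'.out ∈ stK ρ K W := by
    rw [mem_stK, trK_mul, ← h, ← trK_mul, inv_mul_cancel, trK_one]
  have h2 : (q.out : G ⧸ stK ρ K W) = (q'.out : G ⧸ stK ρ K W) := QuotientGroup.eq.2 h1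
  rwa [QuotientGroup.out_eq', QuotientGroup.out_eq'] at h2

theorem dims [K.Normal] [FiniteDimensional ℂ V] (hirr : IrrV ρ) (U : Submodule (algK ρ K) V)
    (hU : IsSimpleModule (algK ρ K) U) :
    (stK ρ K (isotypicComponent (algK ρ K) V U)).index ≠ 0 ∧
    (stK ρ K (isotypicComponent (algK ρ K) V U)).index *
      finrank ℂ (isotypicComponent (algK ρ K) V U) = finrank ℂ V := by
  classical
  have hss := semisimple ρ K hirr U hU
  obtain ⟨W, hW⟩ : ∃ W, W = isotypicComponent (algK ρ K) V U := ⟨_, rfl⟩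
  rw [← hW]
  have hnoeth : IsNoetherian (algK ρ K) V := isNoetherian_of_tower ℂ inferInstance
  have hfin : Finite (isotypicComponents (algK ρ K) V) := inferInstance
  have hmem : ∀ q, comp ρ K W q ∈ isotypicComponents (algK ρ K) V := by
    intro q
    have h1 := trK_mem_components ρ K U hU q.out
    rw [← hW] at h1
    exact h1
  have hfq : Finite (G ⧸ stK ρ K W) :=
    Finite.of_injective (fun q => (⟨comp ρ K W q, hmem q⟩ : isotypicComponents (algK ρ K) V))
      (fun q q' h => comp_inj ρ K W (congrArg Subtype.val h))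
  have := Fintype.ofFinite (G ⧸ stK ρ K W)
  have hind : iSupIndep (comp ρ K W) := by
    have h1 := (sSupIndep_iff _).1 (sSupIndep_isotypicComponents (algK ρ K) V)
    exact h1.comp (f := fun q => (⟨comp ρ K W q, hmem q⟩ : isotypicComponents (algK ρ K) V))
      (fun q q' h => comp_inj ρ K W (congrArg Subtype.val h))
  have htop : (⨆ q, comp ρ K W q) = ⊤ := by
    rw [eq_top_iff, ← sSup_isotypicComponents (algK ρ K) V]
    refine sSup_le fun c hc => ?_
    obtain ⟨g, hg⟩ := component_eq ρ K hirr U hU c hc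
    rw [← hW] at hg
    have h1 : c = comp ρ K W (g : G ⧸ stK ρ K W) := by
      rw [hg]
      unfold comp
      obtain ⟨⟨h, hh⟩, h2⟩ := QuotientGroup.mk_out_eq_mul (stK ρ K W) g
      rw [h2, trK_mul, (hh : trK ρ K h W = W)]
    rw [h1]
    exact le_iSup _ _
  have hint : DirectSum.IsInternal (comp ρ K W) :=
    DirectSum.isInternal_submodule_of_iSupIndep_of_iSup_eq_top hind htop
  have e := (LinearEquiv.ofBijective (DirectSum.coeLinearMap (comp ρ K W)) hint).restrictScalars ℂ
  have h3 := e.finrank_eq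
  have hfd : ∀ q, Module.Finite ℂ (comp ρ K W q) := fun q =>
    inferInstanceAs (Module.Finite ℂ ((comp ρ K W q).restrictScalars ℂ))
  have hfr : ∀ q, Module.Free ℂ (comp ρ K W q) := fun q =>
    inferInstanceAs (Module.Free ℂ ((comp ρ K W q).restrictScalars ℂ))
  rw [Module.finrank_directSum] at h3
  have h4 : ∀ q, finrank ℂ (comp ρ K W q) = finrank ℂ W := fun q =>
    (trC ρ K q.out W).finrank_eq.symm
  simp only [h4, Finset.sum_const, Finset.card_univ, smul_eq_mul] at h3
  refine ⟨?_, ?_⟩
  · rw [Subgroup.index_ne_zero_iff_finite]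
    exact hfq
  · rw [← h3, Subgroup.index_eq_card, Nat.card_eq_fintype_card]

end Pool.Agent.HZ
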