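import Pool.Agent.HZ.ClfB

/-!
# Clifford theory over the complex numbers, part C: the tensor product structure
-/

set_option autoImplicit false

namespace Pool.Agent.HZ

open Module Matrix
open scoped Kronecker

variable {V : Type} [AddCommGroup V] [Module ℂ V] {G : Type} [Group G]
variable (ρ : G →* (V ≃ₗ[ℂ] V)) (K : Subgroup G)

/-- Schur's lemma for maps commuting with the operators of the subgroup -/
theorem schurK (U : Submodule (algK ρ K) V) (hU : IsSimpleModule (algK ρ K) U)
    [FiniteDimensional ℂ V] (f : U →ₗ[ℂ] U)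
    (hf : ∀ x (hx : x ∈ K) (u : U), f (elK ρ K hx • u) = elK ρ K hx • f u) :
    ∃ z : ℂ, ∀ u, f u = z • u := by
  have hfd : FiniteDimensional ℂ U := inferInstanceAs (FiniteDimensional ℂ (U.restrictScalars ℂ))
  have h1 : ∀ a (ha : a ∈ algK ρ K) (u : U),
      f ((⟨a, ha⟩ : algK ρ K) • u) = (⟨a, ha⟩ : algK ρ K) • f u := by
    intro a ha
    have ha' : a ∈ Algebra.adjoin ℂ {f | ∃ x ∈ K, f = (ρ x : V →ₗ[ℂ] V)} := ha
    induction ha' using Algebra.adjoin_induction with
    | mem g hg =>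
      obtain ⟨x, hx, rfl⟩ := hg
      exact hf x hx
    | algebraMap c =>
      intro u
      have h2 : ∀ w : U, (⟨algebraMap ℂ (Module.End ℂ V) c, ha⟩ : algK ρ K) • w = c • w := by
        intro w
        apply Subtype.ext
        show (algebraMap ℂ (Module.End ℂ V) c) (w : V) = c • (w : V)
        rw [Module.algebraMap_end_apply]
      rw [h2, h2, map_smul]
    | add a b ha1 hb1 iha ihb =>
      intro u
      have h2 : ∀ w : U, (⟨a + b, ha⟩ : algK ρ K) • w =
          (⟨a, ha1⟩ : algK ρ K) • w + (⟨b, hb1⟩ : algK ρ K) • w := by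
        intro w
        rfl
      rw [h2, h2, map_add, iha, ihb]
    | mul a b ha1 hb1 iha ihb =>
      intro u
      have h2 : ∀ w : U, (⟨a * b, ha⟩ : algK ρ K) • w =
          (⟨a, ha1⟩ : algK ρ K) • (⟨b, hb1⟩ : algK ρ K) • w := by
        intro w
        rfl
      rw [h2, h2, iha, ihb]
  let F : Module.End (algK ρ K) U :=
    { toFun := f
      map_add' := fun u w => map_add f u w
      map_smul' := fun a u => h1 a.1 a.2 u }
  obtain ⟨z, hz⟩ := (IsSimpleModule.algebraMap_end_bijective_of_isAlgClosed (A := algK ρ K)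
    (V := U) ℂ).2 F
  refine ⟨z, fun u => ?_⟩
  have h3 := congrArg (fun T : Module.End (algK ρ K) U => T u) hz
  exact h3.symm

/-- the twisted automorphism of the simple module -/
theorem twist [K.Normal] (U : Submodule (algK ρ K) V) (hU : IsSimpleModule (algK ρ K) U)
    (h : G) (hh : h ∈ stK ρ K (isotypicComponent (algK ρ K) V U)) :
    ∃ a : U ≃ₗ[ℂ] U, ∀ (m : algK ρ K) (u : U), a (m • u) = cjA ρ K h m • a u := by
  have h1 : trK ρ K h U ≤ isotypicComponent (algK ρ K) V U := by
    have h2 : trK ρ K h U ≤ trK ρ K h (isotypicComponent (algK ρ K) V U) :=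
      (trI ρ K h).monotone U.le_isotypicComponent
    rwa [(hh : trK ρ K h (isotypicComponent (algK ρ K) V U) = _)] at h2
  have h3 : IsSimpleModule (algK ρ K) (trK ρ K h U) := simple_trK ρ K h U hU
  obtain ⟨θ⟩ := isIsotypicOfType_submodule_iff.1
    (IsIsotypicOfType.isotypicComponent (algK ρ K) V U) _ h1
  refine ⟨(trC ρ K h U).trans (θ.restrictScalars ℂ), ?_⟩
  intro m u
  show θ (trC ρ K h U (m • u)) = cjA ρ K h m • θ (trC ρ K h U u)
  rw [← map_smul]
  congr 1
  apply Subtype.ext
  exact smul_app ρ K h m u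

theorem cjA_cjA [K.Normal] (h : G) (m : algK ρ K) : cjA ρ K h (cjA ρ K h⁻¹ m) = m := by
  apply Subtype.ext
  ext w
  show ρ h (ρ h⁻¹ ((m : Module.End ℂ V) (ρ h⁻¹⁻¹ (ρ h⁻¹ w)))) = (m : Module.End ℂ V) w
  rw [app_inv, inv_inv, app_inv]

end Pool.Agent.HZ
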