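import Pool.Agent.HZ.ClfC

/-!
# Clifford theory over the complex numbers, part C2: the operators
-/

set_option autoImplicit false

namespace Pool.Agent.HZ

open Module Matrix
open scoped Kronecker

variable {V : Type} [AddCommGroup V] [Module ℂ V] {G : Type} [Group G]
variable (ρ : G →* (V ≃ₗ[ℂ] V)) (K : Subgroup G)

/-- the operator of an element of the stabiliser -/
theorem oper [K.Normal] [FiniteDimensional ℂ V] (U : Submodule (algK ρ K) V)
    (hU : IsSimpleModule (algK ρ K) U) (e : ℕ)
    (E : isotypicComponent (algK ρ K) V U ≃ₗ[algK ρ K] (Fin e → U))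
    (h : G) (hh : h ∈ stK ρ K (isotypicComponent (algK ρ K) V U))
    (a : U ≃ₗ[ℂ] U) (ha : ∀ (m : algK ρ K) (u : U), a (m • u) = cjA ρ K h m • a u) :
    ∃ B : Matrix (Fin e) (Fin e) ℂ, ∀ v : Fin e → U,
      ρ h (E.symm v : V) = (E.symm fun i => ∑ j, B i j • a (v j) : V) := by
  classical
  have hst : ∀ w : isotypicComponent (algK ρ K) V U,
      ρ h (w : V) ∈ isotypicComponent (algK ρ K) V U := by
    intro w
    have h1 := app_mem_trK ρ K h w.2
    rwa [(hh : trK ρ K h (isotypicComponent (algK ρ K) V U) = _)] at h1
  let A' : (Fin e → U) → (Fin e → U) := fun v i => a.symm (v i)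
  have hA' : ∀ (m : algK ρ K) (v : Fin e → U), A' (m • v) = cjA ρ K h⁻¹ m • A' v := by
    intro m v
    funext i
    show a.symm (m • v i) = cjA ρ K h⁻¹ m • a.symm (v i)
    rw [LinearEquiv.symm_apply_eq, ha, LinearEquiv.apply_symm_apply, cjA_cjA]
  let T : (Fin e → U) →ₗ[algK ρ K] (Fin e → U) :=
    { toFun := fun v => E ⟨ρ h (E.symm (A' v) : V), hst _⟩
      map_add' := by
        intro v w
        rw [← map_add]
        congr 1
        apply Subtype.ext
        show ρ h (E.symm (A' (v + w)) : V) = ρ h (E.symm (A' v) : V) + ρ h (E.symm (A' w) : V)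
        have h1 : A' (v + w) = A' v + A' w := by
          funext i
          exact map_add a.symm _ _
        rw [h1, map_add, Submodule.coe_add, map_add]
      map_smul' := by
        intro m v
        rw [RingHom.id_apply, ← map_smul]
        congr 1
        apply Subtype.ext
        show ρ h (E.symm (A' (m • v)) : V) = m • ρ h (E.symm (A' v) : V)
        rw [hA', map_smul, Submodule.coe_smul, smul_app ρ K h, cjA_cjA] }
  have hT : ∀ i j, ∃ z : ℂ, ∀ u : U, T (Pi.single j u) i = z • u := by
    intro i j
    refine schurK ρ K U hU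
      { toFun := fun u => T (Pi.single j u) i
        map_add' := by
          intro u w
          rw [Pi.single_add, map_add]
          rfl
        map_smul' := by
          intro c u
          have h1 : (Pi.single j (c • u) : Fin e → U) =
              (algebraMap ℂ (algK ρ K) c) • (Pi.single j u : Fin e → U) := by
            rw [← Pi.single_smul]
            congr 1
          rw [h1, map_smul]
          rfl } ?_
    intro x hx u
    show T (Pi.single j (elK ρ K hx • u)) i = elK ρ K hx • T (Pi.single j u) i
    rw [Pi.single_smul, map_smul]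
    rfl
  choose B hB using hT
  refine ⟨Matrix.of B, ?_⟩
  intro v
  have h1 : T (fun i => a (v i)) = fun i => ∑ j, B i j • a (v j) := by
    have h2 : (fun i => a (v i)) = ∑ j, (Pi.single j (a (v j)) : Fin e → U) := by
      funext i
      rw [Finset.sum_apply]
      simp [Pi.single_apply]
    rw [h2, map_sum]
    funext i
    rw [Finset.sum_apply]
    exact Finset.sum_congr rfl fun j _ => hB i j _
  have h3 : T (fun i => a (v i)) = E ⟨ρ h (E.symm v : V), hst _⟩ := by
    show E ⟨ρ h (E.symm (A' fun i => a (v i)) : V), hst _⟩ = E ⟨ρ h (E.symm v : V), hst _⟩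
    have h4 : (A' fun i => a (v i)) = v := by
      funext i
      exact a.symm_apply_apply _
    congr 1
    apply Subtype.ext
    show ρ h (E.symm (A' fun i => a (v i)) : V) = ρ h (E.symm v : V)
    rw [h4]
  have h5 : (⟨ρ h (E.symm v : V), hst _⟩ : isotypicComponent (algK ρ K) V U) =
      E.symm fun i => ∑ j, B i j • a (v j) := by
    rw [← h1, h3, LinearEquiv.symm_apply_apply]
  exact congrArg Subtype.val h5

end Pool.Agent.HZ
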