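import Mathlib

/-!
# Clifford theory over the complex numbers, part D: matrices
-/

set_option autoImplicit false

namespace Pool.Agent.HZ

open Module Matrix
open scoped Kronecker

variable {U : Type} [AddCommMonoid U] [Module ℂ U] {e d : ℕ}

theorem det_toMatrix_ne (b : Basis (Fin d) ℂ U) (a : U ≃ₗ[ℂ] U) :
    (LinearMap.toMatrix b b (a : U →ₗ[ℂ] U)).det ≠ 0 := by
  have h0 : (a : U →ₗ[ℂ] U) ∘ₗ (a.symm : U →ₗ[ℂ] U) = LinearMap.id := by
    ext u
    exact a.apply_symm_apply u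
  have h1 := congrArg (fun f => (LinearMap.toMatrix b b f).det) h0
  rw [LinearMap.toMatrix_comp b b b, Matrix.det_mul, LinearMap.toMatrix_id, Matrix.det_one] at h1
  exact left_ne_zero_of_mul_eq_one h1

/-- linear combinations of a basis -/
theorem kron_comb (b : Basis (Fin d) ℂ U) (f : U →ₗ[ℂ] U) (B : Matrix (Fin e) (Fin e) ℂ)
    (v : Fin e × Fin d → ℂ) (i : Fin e) :
    (∑ j, B i j • f (∑ l, v (j, l) • b l)) =
      ∑ k, ((B ⊗ₖ LinearMap.toMatrix b b f) *ᵥ v) (i, k) • b k := by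
  have h1 : ∀ l, f (b l) = ∑ k, LinearMap.toMatrix b b f k l • b k := by
    intro l
    refine (b.sum_repr (f (b l))).symm.trans (Finset.sum_congr rfl fun k _ => ?_)
    rw [LinearMap.toMatrix_apply]
  have h2 : ∀ k, ((B ⊗ₖ LinearMap.toMatrix b b f) *ᵥ v) (i, k) =
      ∑ j, ∑ l, B i j * LinearMap.toMatrix b b f k l * v (j, l) := by
    intro k
    rw [Matrix.mulVec, dotProduct, Fintype.sum_prod_type]
    rfl
  simp only [h2, map_sum, map_smul, h1, Finset.smul_sum, Finset.sum_smul, smul_smul]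
  rw [Finset.sum_comm]
  have h3 : ∀ j : Fin e, (∑ l, ∑ k, (B i j * (v (j, l) * LinearMap.toMatrix b b f k l)) • b k) =
      ∑ k, ∑ l, (B i j * LinearMap.toMatrix b b f k l * v (j, l)) • b k := by
    intro j
    rw [Finset.sum_comm]
    refine Finset.sum_congr rfl fun k _ => Finset.sum_congr rfl fun l _ => ?_
    congr 1
    ring
  rw [Finset.sum_comm]
  simp only [h3]
  rw [Finset.sum_comm]

/-- If a Kronecker product is the identity tensored with a matrix, the first factor is scalar. -/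
theorem kron_scalar (B : Matrix (Fin e) (Fin e) ℂ) (A M : Matrix (Fin d) (Fin d) ℂ)
    (hA : A ≠ 0) (h : B ⊗ₖ A = (1 : Matrix (Fin e) (Fin e) ℂ) ⊗ₖ M) : ∃ z : ℂ, B = z • 1 := by
  have h1 : ∃ k l, A k l ≠ 0 := by
    by_contra hcon
    push Not at hcon
    exact hA (by ext k l; exact hcon k l)
  obtain ⟨k, l, hkl⟩ := h1
  have h2 : ∀ i j, B i j * A k l = (1 : Matrix (Fin e) (Fin e) ℂ) i j * M k l := by
    intro i j
    have h3 := congrArg (fun T : Matrix (Fin e × Fin d) (Fin e × Fin d) ℂ => T (i, k) (j, l)) h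
    simpa only [Matrix.kroneckerMap_apply] using h3
  refine ⟨M k l / A k l, ?_⟩
  ext i j
  rw [Matrix.smul_apply, smul_eq_mul, div_mul_eq_mul_div, eq_div_iff hkl, h2, mul_comm]

/-- Scaling the factors of a Kronecker product. -/
theorem kron_norm (hd : 0 < d) (B : Matrix (Fin e) (Fin e) ℂ) (A : Matrix (Fin d) (Fin d) ℂ)
    (hA : A.det ≠ 0) : ∃ (B' : Matrix (Fin e) (Fin e) ℂ) (A' : Matrix (Fin d) (Fin d) ℂ),
      B' ⊗ₖ A' = B ⊗ₖ A ∧ A'.det = 1 ∧ ∃ c : ℂ, c ≠ 0 ∧ A' = c • A := by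
  obtain ⟨c, hc⟩ := IsAlgClosed.exists_pow_nat_eq A.det hd
  have hc0 : c ≠ 0 := by
    rintro rfl
    rw [zero_pow hd.ne'] at hc
    exact hA hc.symm
  refine ⟨c • B, c⁻¹ • A, ?_, ?_, c⁻¹, inv_ne_zero hc0, rfl⟩
  · rw [Matrix.smul_kronecker, Matrix.kronecker_smul, smul_smul, mul_inv_cancel₀ hc0, one_smul]
  · rw [Matrix.det_smul, Fintype.card_fin, ← hc, inv_pow, inv_mul_cancel₀]
    exact pow_ne_zero _ hc0

theorem kron_inv_left (B : Matrix (Fin e) (Fin e) ℂ) (A : Matrix (Fin d) (Fin d) ℂ)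
    (hd : 0 < d) (h : Function.Injective fun v : Fin e × Fin d → ℂ => (B ⊗ₖ A) *ᵥ v) :
    B.det ≠ 0 := by
  have h1 : (B ⊗ₖ A).det ≠ 0 := by
    have h2 : IsUnit (B ⊗ₖ A) := Matrix.mulVec_injective_iff_isUnit.1 h
    exact ((Matrix.isUnit_iff_isUnit_det _).1 h2).ne_zero
  rw [Matrix.det_kronecker, Fintype.card_fin, Fintype.card_fin] at h1
  intro h2
  apply h1
  rw [h2, zero_pow hd.ne', zero_mul]

/-- finitely many matrices of determinant one normalise a finite irreducible set -/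
theorem norm_finite (hd : 0 < d) (S : Set (Matrix (Fin d) (Fin d) ℂ)) (hS : S.Finite)
    (hirr : ∀ X : Matrix (Fin d) (Fin d) ℂ, (∀ M ∈ S, X * M = M * X) → ∃ z : ℂ, X = z • 1) :
    {A : Matrix (Fin d) (Fin d) ℂ | A.det = 1 ∧ ∀ M ∈ S, A * M * A⁻¹ ∈ S}.Finite := by
  classical
  have hfs : Finite S := hS
  -- the fibres
  have hfib : ∀ f : S → S, {A : Matrix (Fin d) (Fin d) ℂ | A.det = 1 ∧
      ∀ M : S, A * M * A⁻¹ = f M}.Finite := by
    intro f
    rcases Set.eq_empty_or_nonempty {A : Matrix (Fin d) (Fin d) ℂ | A.det = 1 ∧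
      ∀ M : S, A * M * A⁻¹ = f M} with h | ⟨A, hA1, hA2⟩
    · rw [h]
      exact Set.finite_empty
    · have hroots : {z : ℂ | z ^ d = 1}.Finite := by
        have h1 : {z : ℂ | z ^ d = 1} ⊆ ((Polynomial.X ^ d - 1 : Polynomial ℂ).roots.toFinset : Set ℂ) := by
          intro z hz
          rw [Finset.mem_coe, Multiset.mem_toFinset, Polynomial.mem_roots']
          refine ⟨(Polynomial.monic_X_pow_sub_C (1 : ℂ) hd.ne').ne_zero, ?_⟩
          have hz' : z ^ d = 1 := hz
          rw [Polynomial.IsRoot, Polynomial.eval_sub, Polynomial.eval_pow, Polynomial.eval_X,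
            Polynomial.eval_one, hz', sub_self]
        exact (Finset.finite_toSet _).subset h1
      refine (hroots.image fun z => z • A).subset ?_
      rintro A' ⟨hB1, hB2⟩
      have hAu : IsUnit A.det := by rw [hA1]; exact isUnit_one
      have hBu : IsUnit A'.det := by rw [hB1]; exact isUnit_one
      have h1 : ∀ M ∈ S, (A⁻¹ * A') * M = M * (A⁻¹ * A') := by
        intro M hM
        have h2 : A * M * A⁻¹ = A' * M * A'⁻¹ := by rw [hA2 ⟨M, hM⟩, hB2 ⟨M, hM⟩]
        calc A⁻¹ * A' * M = A⁻¹ * (A' * M * A'⁻¹) * A' := by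
              rw [Matrix.mul_assoc A⁻¹, Matrix.mul_assoc A⁻¹, Matrix.mul_assoc (A' * M),
                Matrix.nonsing_inv_mul A' hBu, Matrix.mul_one]
          _ = A⁻¹ * (A * M * A⁻¹) * A' := by rw [h2]
          _ = M * (A⁻¹ * A') := by
              rw [← Matrix.mul_assoc, ← Matrix.mul_assoc, Matrix.nonsing_inv_mul A hAu,
                Matrix.one_mul, Matrix.mul_assoc]
      obtain ⟨z, hz⟩ := hirr _ h1
      have h3 : A' = z • A := by
        calc A' = A * (A⁻¹ * A') := by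
              rw [← Matrix.mul_assoc, Matrix.mul_nonsing_inv A hAu, Matrix.one_mul]
          _ = z • A := by rw [hz, Matrix.mul_smul, Matrix.mul_one]
      refine ⟨z, ?_, h3.symm⟩
      rw [h3, Matrix.det_smul, Fintype.card_fin, hA1, mul_one] at hB1
      exact hB1
  refine (Set.finite_iUnion hfib).subset ?_
  rintro A ⟨h1, h2⟩
  rw [Set.mem_iUnion]
  exact ⟨fun M => ⟨A * M * A⁻¹, h2 M M.2⟩, h1, fun M => rfl⟩

/-- eigenvalues of the first factor -/
theorem kron_eig (B : Matrix (Fin e) (Fin e) ℂ) (A : Matrix (Fin d) (Fin d) ℂ) (z w : ℂ)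
    (u : Fin e → ℂ) (y : Fin d → ℂ) (hu : B *ᵥ u = z • u) (hy : A *ᵥ y = w • y) :
    (B ⊗ₖ A) *ᵥ (fun p => u p.1 * y p.2) = (z * w) • (fun p : Fin e × Fin d => u p.1 * y p.2) := by
  funext p
  rw [Matrix.mulVec, dotProduct, Fintype.sum_prod_type]
  have h1 : ∀ i, (∑ j, B i j * u j) = z * u i := fun i => congrFun hu i
  have h2 : ∀ k, (∑ l, A k l * y l) = w * y k := fun k => congrFun hy k
  simp only [Matrix.kroneckerMap_apply, Pi.smul_apply, smul_eq_mul]
  calc (∑ j, ∑ l, B p.1 j * A p.2 l * (u j * y l))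
      = ∑ j, ∑ l, (B p.1 j * u j) * (A p.2 l * y l) :=
        Finset.sum_congr rfl fun j _ => Finset.sum_congr rfl fun l _ => by ring
    _ = (∑ j, B p.1 j * u j) * (∑ l, A p.2 l * y l) := by rw [Finset.sum_mul_sum]
    _ = z * w * (u p.1 * y p.2) := by rw [h1, h2]; ring

end Pool.Agent.HZ
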