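import Pool.Agent.HZ.ClfD

/-!
# Clifford theory over the complex numbers, part E: homomorphisms from a free group
-/

set_option autoImplicit false

namespace Pool.Agent.HZ

open Module Matrix
open scoped Kronecker

theorem free_section {F T : Type} [Group F] [IsFreeGroup F] [Group T] (π : T →* F)
    (hπ : Function.Surjective π) : ∃ s : F →* T, ∀ x, π (s x) = x := by
  choose f hf using hπ
  refine ⟨IsFreeGroup.lift (fun i => f (IsFreeGroup.of i)), ?_⟩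
  have h : π.comp (IsFreeGroup.lift (fun i => f (IsFreeGroup.of i))) = MonoidHom.id F := by
    refine IsFreeGroup.ext_hom fun i => ?_
    rw [MonoidHom.comp_apply, IsFreeGroup.lift_of, hf, MonoidHom.id_apply]
  intro x
  exact DFunLike.congr_fun h x

variable {V : Type} [AddCommGroup V] [Module ℂ V] {G : Type} [Group G]
variable (ρ : G →* (V ≃ₗ[ℂ] V)) (K : Subgroup G)

/-- conjugation of the normal subgroup -/
def cjK [hK : K.Normal] (h : G) (x : K) : K := ⟨h * x * h⁻¹, hK.conj_mem x x.2 h⟩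

theorem cjK_mul [K.Normal] (g h : G) (x : K) : cjK K (g * h) x = cjK K g (cjK K h x) := by
  apply Subtype.ext
  show g * h * x * (g * h)⁻¹ = g * (h * x * h⁻¹) * g⁻¹
  group

theorem cjK_inv [K.Normal] (h : G) (x : K) : cjK K h (cjK K h⁻¹ x) = x := by
  apply Subtype.ext
  show h * (h⁻¹ * x * h⁻¹⁻¹) * h⁻¹ = x
  group

theorem cjK_one [K.Normal] (x : K) : cjK K 1 x = x := by
  apply Subtype.ext
  show 1 * x * (1 : G)⁻¹ = (x : G)
  group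

theorem gl_inv_mul {d : ℕ} (A : GL (Fin d) ℂ) :
    (A : Matrix (Fin d) (Fin d) ℂ)⁻¹ = ((A⁻¹ : GL (Fin d) ℂ) : Matrix (Fin d) (Fin d) ℂ) :=
  (Matrix.coe_units_inv A).symm

/-- the group of compatible triples -/
def triples [K.Normal] (H : Subgroup G) {e d : ℕ} (ι : (Fin e × Fin d → ℂ) →ₗ[ℂ] V)
    (M : K → Matrix (Fin d) (Fin d) ℂ) : Subgroup (H × GL (Fin e) ℂ × GL (Fin d) ℂ) where
  carrier := {t | (t.2.2 : Matrix (Fin d) (Fin d) ℂ).det = 1 ∧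
    (∀ x : K, (t.2.2 : Matrix (Fin d) (Fin d) ℂ) * M x = M (cjK K t.1 x) *
      (t.2.2 : Matrix (Fin d) (Fin d) ℂ)) ∧
    ∀ v, ρ t.1 (ι v) = ι (((t.2.1 : Matrix (Fin e) (Fin e) ℂ) ⊗ₖ
      (t.2.2 : Matrix (Fin d) (Fin d) ℂ)) *ᵥ v)}
  one_mem' := by
    refine ⟨?_, ?_, ?_⟩
    · show ((1 : GL (Fin d) ℂ) : Matrix (Fin d) (Fin d) ℂ).det = 1
      rw [Units.val_one, Matrix.det_one]
    · intro x
      show ((1 : GL (Fin d) ℂ) : Matrix (Fin d) (Fin d) ℂ) * M x =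
        M (cjK K ((1 : H) : G) x) * ((1 : GL (Fin d) ℂ) : Matrix (Fin d) (Fin d) ℂ)
      rw [Units.val_one, Matrix.one_mul, Matrix.mul_one, Subgroup.coe_one, cjK_one]
    · intro v
      show ρ ((1 : H) : G) (ι v) = ι ((((1 : GL (Fin e) ℂ) : Matrix (Fin e) (Fin e) ℂ) ⊗ₖ
        ((1 : GL (Fin d) ℂ) : Matrix (Fin d) (Fin d) ℂ)) *ᵥ v)
      rw [Units.val_one, Units.val_one, Matrix.one_kronecker_one, Matrix.one_mulVec,
        Subgroup.coe_one, map_one]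
      rfl
  mul_mem' := by
    rintro ⟨h, B, A⟩ ⟨h', B', A'⟩ ⟨h1, h2, h3⟩ ⟨h1', h2', h3'⟩
    refine ⟨?_, ?_, ?_⟩
    · show ((A * A' : GL (Fin d) ℂ) : Matrix (Fin d) (Fin d) ℂ).det = 1
      rw [Units.val_mul, Matrix.det_mul, show (A : Matrix (Fin d) (Fin d) ℂ).det = 1 from h1,
        show (A' : Matrix (Fin d) (Fin d) ℂ).det = 1 from h1', one_mul]
    · intro x
      show ((A * A' : GL (Fin d) ℂ) : Matrix (Fin d) (Fin d) ℂ) * M x =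
        M (cjK K ((h * h' : H) : G) x) * ((A * A' : GL (Fin d) ℂ) : Matrix (Fin d) (Fin d) ℂ)
      have k2 : (A' : Matrix (Fin d) (Fin d) ℂ) * M x = M (cjK K h' x) * A' := h2' x
      have k1 : (A : Matrix (Fin d) (Fin d) ℂ) * M (cjK K h' x) =
        M (cjK K h (cjK K h' x)) * A := h2 _
      rw [Units.val_mul, Matrix.mul_assoc, k2, ← Matrix.mul_assoc, k1, Subgroup.coe_mul,
        cjK_mul, Matrix.mul_assoc]
    · intro v
      show ρ ((h * h' : H) : G) (ι v) =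
        ι ((((B * B' : GL (Fin e) ℂ) : Matrix (Fin e) (Fin e) ℂ) ⊗ₖ
        ((A * A' : GL (Fin d) ℂ) : Matrix (Fin d) (Fin d) ℂ)) *ᵥ v)
      have k3 : ∀ v, ρ h (ι v) = ι (((B : Matrix (Fin e) (Fin e) ℂ) ⊗ₖ
        (A : Matrix (Fin d) (Fin d) ℂ)) *ᵥ v) := h3
      have k3' : ∀ v, ρ h' (ι v) = ι (((B' : Matrix (Fin e) (Fin e) ℂ) ⊗ₖ
        (A' : Matrix (Fin d) (Fin d) ℂ)) *ᵥ v) := h3'
      have k4 : ρ ((h * h' : H) : G) (ι v) = ρ h (ρ h' (ι v)) := by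
        rw [Subgroup.coe_mul, map_mul]
        rfl
      rw [k4, k3', k3, Units.val_mul, Units.val_mul, Matrix.mul_kronecker_mul,
        Matrix.mulVec_mulVec]
  inv_mem' := by
    rintro ⟨h, B, A⟩ ⟨h1, h2, h3⟩
    have k1 : (A : Matrix (Fin d) (Fin d) ℂ).det = 1 := h1
    have k2 : ∀ x, (A : Matrix (Fin d) (Fin d) ℂ) * M x = M (cjK K h x) * A := h2
    have k3 : ∀ v, ρ h (ι v) = ι (((B : Matrix (Fin e) (Fin e) ℂ) ⊗ₖ
        (A : Matrix (Fin d) (Fin d) ℂ)) *ᵥ v) := h3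
    have hA : (A : Matrix (Fin d) (Fin d) ℂ) * ((A⁻¹ : GL (Fin d) ℂ) : Matrix (Fin d) (Fin d) ℂ) = 1 :=
      Units.mul_inv A
    have hA' : ((A⁻¹ : GL (Fin d) ℂ) : Matrix (Fin d) (Fin d) ℂ) * (A : Matrix (Fin d) (Fin d) ℂ) = 1 :=
      Units.inv_mul A
    have hB : (B : Matrix (Fin e) (Fin e) ℂ) * ((B⁻¹ : GL (Fin e) ℂ) : Matrix (Fin e) (Fin e) ℂ) = 1 :=
      Units.mul_inv B
    refine ⟨?_, ?_, ?_⟩
    · show ((A⁻¹ : GL (Fin d) ℂ) : Matrix (Fin d) (Fin d) ℂ).det = 1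
      have k4 := congrArg Matrix.det hA
      rw [Matrix.det_mul, k1, one_mul, Matrix.det_one] at k4
      exact k4
    · intro x
      show ((A⁻¹ : GL (Fin d) ℂ) : Matrix (Fin d) (Fin d) ℂ) * M x =
        M (cjK K ((h⁻¹ : H) : G) x) * ((A⁻¹ : GL (Fin d) ℂ) : Matrix (Fin d) (Fin d) ℂ)
      have k4 := k2 (cjK K (h : G)⁻¹ x)
      rw [cjK_inv] at k4
      rw [Subgroup.coe_inv]
      calc ((A⁻¹ : GL (Fin d) ℂ) : Matrix (Fin d) (Fin d) ℂ) * M x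
          = ((A⁻¹ : GL (Fin d) ℂ) : Matrix (Fin d) (Fin d) ℂ) * (M x * (A *
            ((A⁻¹ : GL (Fin d) ℂ) : Matrix (Fin d) (Fin d) ℂ))) := by rw [hA, Matrix.mul_one]
        _ = ((A⁻¹ : GL (Fin d) ℂ) : Matrix (Fin d) (Fin d) ℂ) * A *
            M (cjK K (h : G)⁻¹ x) * ((A⁻¹ : GL (Fin d) ℂ) : Matrix (Fin d) (Fin d) ℂ) := by
              rw [← Matrix.mul_assoc (M x), ← k4]
              simp only [Matrix.mul_assoc]
        _ = _ := by rw [hA', Matrix.one_mul]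
    · intro v
      show ρ ((h⁻¹ : H) : G) (ι v) =
        ι ((((B⁻¹ : GL (Fin e) ℂ) : Matrix (Fin e) (Fin e) ℂ) ⊗ₖ
        ((A⁻¹ : GL (Fin d) ℂ) : Matrix (Fin d) (Fin d) ℂ)) *ᵥ v)
      have k4 : v = ((B : Matrix (Fin e) (Fin e) ℂ) ⊗ₖ (A : Matrix (Fin d) (Fin d) ℂ)) *ᵥ
          ((((B⁻¹ : GL (Fin e) ℂ) : Matrix (Fin e) (Fin e) ℂ) ⊗ₖ
          ((A⁻¹ : GL (Fin d) ℂ) : Matrix (Fin d) (Fin d) ℂ)) *ᵥ v) := by
        rw [Matrix.mulVec_mulVec, ← Matrix.mul_kronecker_mul, hB, hA, Matrix.one_kronecker_one,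
          Matrix.one_mulVec]
      have k5 : ρ ((h⁻¹ : H) : G) (ρ h (ι ((((B⁻¹ : GL (Fin e) ℂ) : Matrix (Fin e) (Fin e) ℂ) ⊗ₖ
          ((A⁻¹ : GL (Fin d) ℂ) : Matrix (Fin d) (Fin d) ℂ)) *ᵥ v))) =
          ι ((((B⁻¹ : GL (Fin e) ℂ) : Matrix (Fin e) (Fin e) ℂ) ⊗ₖ
          ((A⁻¹ : GL (Fin d) ℂ) : Matrix (Fin d) (Fin d) ℂ)) *ᵥ v) := by
        have k6 : ρ ((h⁻¹ : H) : G) * ρ h = 1 := by
          rw [← map_mul, Subgroup.coe_inv, inv_mul_cancel, map_one]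
        exact DFunLike.congr_fun k6 _
      rw [k3, ← k4] at k5
      exact k5

/-- The two factors as homomorphisms. -/
theorem assemble [IsFreeGroup G] [K.Normal] (H : Subgroup G) {e d : ℕ} (hd : 0 < d)
    (ι : (Fin e × Fin d → ℂ) →ₗ[ℂ] V) (M : K → Matrix (Fin d) (Fin d) ℂ)
    (hM : (Set.range M).Finite)
    (hSch : ∀ X : Matrix (Fin d) (Fin d) ℂ, (∀ x, X * M x = M x * X) → ∃ z : ℂ, X = z • 1)
    (hgood : ∀ h ∈ H, ∃ (B : Matrix (Fin e) (Fin e) ℂ) (A : Matrix (Fin d) (Fin d) ℂ),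
      B.det ≠ 0 ∧ A.det = 1 ∧ (∀ x : K, A * M x = M (cjK K h x) * A) ∧
      ∀ v, ρ h (ι v) = ι ((B ⊗ₖ A) *ᵥ v)) :
    ∃ (α : H →* GL (Fin d) ℂ) (β : H →* GL (Fin e) ℂ), Finite α.range ∧
      (∀ h, (α h : Matrix (Fin d) (Fin d) ℂ).det = 1) ∧
      (∀ (h : H) v, ρ h (ι v) = ι (((β h : Matrix (Fin e) (Fin e) ℂ) ⊗ₖ
        (α h : Matrix (Fin d) (Fin d) ℂ)) *ᵥ v)) := by
  have hfree : IsFreeGroup H := subgroupIsFreeOfIsFree H
  obtain ⟨s, hs⟩ := free_section ((MonoidHom.fst H (GL (Fin e) ℂ × GL (Fin d) ℂ)).comp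
    (triples ρ K H ι M).subtype) (by
      intro h
      obtain ⟨B, A, h1, h2, h3, h4⟩ := hgood h h.2
      have hB : IsUnit B.det := isUnit_iff_ne_zero.2 h1
      have hA : IsUnit A.det := by rw [h2]; exact isUnit_one
      exact ⟨⟨(h, Matrix.nonsingInvUnit B hB, Matrix.nonsingInvUnit A hA), h2, h3, h4⟩, rfl⟩)
  have hs1 : ∀ h, (s h).1.1 = h := hs
  let α : H →* GL (Fin d) ℂ := (MonoidHom.snd (GL (Fin e) ℂ) (GL (Fin d) ℂ)).comp
    ((MonoidHom.snd H (GL (Fin e) ℂ × GL (Fin d) ℂ)).comp ((triples ρ K H ι M).subtype.comp s))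
  let β : H →* GL (Fin e) ℂ := (MonoidHom.fst (GL (Fin e) ℂ) (GL (Fin d) ℂ)).comp
    ((MonoidHom.snd H (GL (Fin e) ℂ × GL (Fin d) ℂ)).comp ((triples ρ K H ι M).subtype.comp s))
  have hα : ∀ h, α h = (s h).1.2.2 := fun h => rfl
  have hβ : ∀ h, β h = (s h).1.2.1 := fun h => rfl
  refine ⟨α, β, ?_, ?_, ?_⟩
  · have h1 := norm_finite hd (Set.range M) hM (by
      intro X hX
      exact hSch X fun x => hX _ ⟨x, rfl⟩)
    have h2 : Set.MapsTo (fun A : GL (Fin d) ℂ => (A : Matrix (Fin d) (Fin d) ℂ))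
        (α.range : Set (GL (Fin d) ℂ)) {A : Matrix (Fin d) (Fin d) ℂ | A.det = 1 ∧
          ∀ N ∈ Set.range M, A * N * A⁻¹ ∈ Set.range M} := by
      rintro _ ⟨h, rfl⟩
      refine ⟨(s h).2.1, ?_⟩
      rintro _ ⟨x, rfl⟩
      refine ⟨cjK K h x, ?_⟩
      have h3 := (s h).2.2.1 x
      rw [hs1] at h3
      rw [hα]
      rw [h3, gl_inv_mul, Matrix.mul_assoc, Units.mul_inv, Matrix.mul_one]
    exact Set.Finite.of_injOn h2 (fun A _ B _ hAB => Units.ext hAB) h1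
  · intro h
    exact (s h).2.1
  · intro h v
    have h3 := (s h).2.2.2 v
    rw [hs1] at h3
    exact h3

end Pool.Agent.HZ
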