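import Pool.Agent.HZ.ClfC2
import Pool.Agent.HZ.ClfE

/-!
# Clifford theory over the complex numbers, part F: the decomposition
-/

set_option autoImplicit false

namespace Pool.Agent.HZ

open Module Matrix
open scoped Kronecker

variable {V : Type} [AddCommGroup V] [Module ℂ V] {G : Type} [Group G]
variable (ρ : G →* (V ≃ₗ[ℂ] V)) (K : Subgroup G)

/-- the operator of an element of the subgroup on a submodule -/
def opU (U : Submodule (algK ρ K) V) (x : K) : U →ₗ[ℂ] U where
  toFun u := elK ρ K x.2 • u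
  map_add' u w := smul_add _ u w
  map_smul' c u := by
    apply Subtype.ext
    exact map_smul (ρ x) c (u : V)

theorem opU_apply (U : Submodule (algK ρ K) V) (x : K) (u : U) :
    opU ρ K U x u = elK ρ K x.2 • u := rfl

/-- The isotypic component as the image of a tensor product. -/
noncomputable def iot (U : Submodule (algK ρ K) V) {e d : ℕ} (b : Basis (Fin d) ℂ U)
    (E : isotypicComponent (algK ρ K) V U ≃ₗ[algK ρ K] (Fin e → U)) :
    (Fin e × Fin d → ℂ) →ₗ[ℂ] V where
  toFun v := (E.symm fun i => ∑ l, v (i, l) • b l : V)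
  map_add' v w := by
    have h1 : (fun i => ∑ l, (v + w) (i, l) • b l : Fin e → U) =
        (fun i => ∑ l, v (i, l) • b l) + fun i => ∑ l, w (i, l) • b l := by
      funext i
      rw [Pi.add_apply, ← Finset.sum_add_distrib]
      exact Finset.sum_congr rfl fun l _ => by rw [Pi.add_apply, add_smul]
    rw [h1, map_add, Submodule.coe_add]
  map_smul' c v := by
    have h1 : (fun i => ∑ l, (c • v) (i, l) • b l : Fin e → U) =
        (algebraMap ℂ (algK ρ K) c) • fun i => ∑ l, v (i, l) • b l := by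
      funext i
      rw [Pi.smul_apply, Finset.smul_sum]
      refine Finset.sum_congr rfl fun l _ => ?_
      rw [Pi.smul_apply, smul_eq_mul, mul_smul]
      rfl
    rw [h1, map_smul, Submodule.coe_smul, RingHom.id_apply]
    rfl

theorem iot_apply (U : Submodule (algK ρ K) V) {e d : ℕ} (b : Basis (Fin d) ℂ U)
    (E : isotypicComponent (algK ρ K) V U ≃ₗ[algK ρ K] (Fin e → U)) (v : Fin e × Fin d → ℂ) :
    iot ρ K U b E v = (E.symm fun i => ∑ l, v (i, l) • b l : V) := rfl

theorem iot_inj (U : Submodule (algK ρ K) V) {e d : ℕ} (b : Basis (Fin d) ℂ U)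
    (E : isotypicComponent (algK ρ K) V U ≃ₗ[algK ρ K] (Fin e → U)) :
    Function.Injective (iot ρ K U b E) := by
  intro v w h
  have h1 := E.symm.injective (Subtype.ext h :
    E.symm (fun i => ∑ l, v (i, l) • b l) = E.symm fun i => ∑ l, w (i, l) • b l)
  funext p
  have h2 : (∑ l, v (p.1, l) • b l) = ∑ l, w (p.1, l) • b l := congrFun h1 p.1
  have h3 := congrArg b.equivFun h2
  have h4 : ∀ f : Fin d → ℂ, b.equivFun (∑ l, f l • b l) = f := fun f => by
    rw [← b.equivFun_symm_apply, LinearEquiv.apply_symm_apply]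
  have h5 : (fun l => v (p.1, l)) = fun l => w (p.1, l) := by
    rw [← h4 fun l => v (p.1, l), h3, h4]
  exact congrFun h5 p.2

theorem iot_surj (U : Submodule (algK ρ K) V) {e d : ℕ} (b : Basis (Fin d) ℂ U)
    (E : isotypicComponent (algK ρ K) V U ≃ₗ[algK ρ K] (Fin e → U)) (w : V)
    (hw : w ∈ isotypicComponent (algK ρ K) V U) : ∃ v, iot ρ K U b E v = w := by
  refine ⟨fun p => b.equivFun (E ⟨w, hw⟩ p.1) p.2, ?_⟩
  have h1 : (fun i => ∑ l, b.equivFun (E ⟨w, hw⟩ i) l • b l) = E ⟨w, hw⟩ := by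
    funext i
    exact b.sum_equivFun _
  rw [iot_apply, h1, LinearEquiv.symm_apply_apply]

theorem iot_mem (U : Submodule (algK ρ K) V) {e d : ℕ} (b : Basis (Fin d) ℂ U)
    (E : isotypicComponent (algK ρ K) V U ≃ₗ[algK ρ K] (Fin e → U)) (v : Fin e × Fin d → ℂ) :
    iot ρ K U b E v ∈ isotypicComponent (algK ρ K) V U := (E.symm _).2

/-- The operators of the stabiliser. -/
theorem good_stab [K.Normal] [FiniteDimensional ℂ V] (U : Submodule (algK ρ K) V)
    (hU : IsSimpleModule (algK ρ K) U) {e d : ℕ} (hd : 0 < d) (b : Basis (Fin d) ℂ U)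
    (E : isotypicComponent (algK ρ K) V U ≃ₗ[algK ρ K] (Fin e → U))
    (h : G) (hh : h ∈ stK ρ K (isotypicComponent (algK ρ K) V U)) :
    ∃ (B : Matrix (Fin e) (Fin e) ℂ) (A : Matrix (Fin d) (Fin d) ℂ),
      B.det ≠ 0 ∧ A.det = 1 ∧ (∀ x : K, A * LinearMap.toMatrix b b (opU ρ K U x) =
        LinearMap.toMatrix b b (opU ρ K U (cjK K h x)) * A) ∧
      ∀ v, ρ h (iot ρ K U b E v) = iot ρ K U b E ((B ⊗ₖ A) *ᵥ v) := by
  obtain ⟨a, ha⟩ := twist ρ K U hU h hh
  obtain ⟨B, hB⟩ := oper ρ K U hU e E h hh a ha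
  have hdet : (LinearMap.toMatrix b b (a : U →ₗ[ℂ] U)).det ≠ 0 := det_toMatrix_ne b a
  obtain ⟨B', A', h1, h2, c, hc, h3⟩ := kron_norm hd B (LinearMap.toMatrix b b (a : U →ₗ[ℂ] U)) hdet
  have h4 : ∀ v, ρ h (iot ρ K U b E v) = iot ρ K U b E ((B' ⊗ₖ A') *ᵥ v) := by
    intro v
    rw [iot_apply, hB, h1, iot_apply]
    have h5 : (fun i => ∑ j, B i j • a (∑ l, v (j, l) • b l)) =
        fun i => ∑ k, ((B ⊗ₖ LinearMap.toMatrix b b (a : U →ₗ[ℂ] U)) *ᵥ v) (i, k) • b k := by
      funext i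
      exact kron_comb b (a : U →ₗ[ℂ] U) B v i
    rw [h5]
  refine ⟨B', A', ?_, h2, ?_, h4⟩
  · refine kron_inv_left B' A' hd ?_
    intro v w hvw
    have h5 : iot ρ K U b E ((B' ⊗ₖ A') *ᵥ v) = iot ρ K U b E ((B' ⊗ₖ A') *ᵥ w) :=
      congrArg (iot ρ K U b E) hvw
    rw [← h4, ← h4] at h5
    exact iot_inj ρ K U b E ((ρ h).injective h5)
  · intro x
    have h5 : (a : U →ₗ[ℂ] U) ∘ₗ opU ρ K U x = opU ρ K U (cjK K h x) ∘ₗ (a : U →ₗ[ℂ] U) := by
      ext u
      rw [LinearMap.comp_apply, LinearMap.comp_apply, opU_apply, opU_apply]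
      have h6 : cjA ρ K h (elK ρ K x.2) = elK ρ K (cjK K h x).2 := by
        apply Subtype.ext
        ext v
        show ρ h (ρ x (ρ h⁻¹ v)) = ρ (h * x * h⁻¹) v
        rw [mul_app, mul_app]
      have h7 := ha (elK ρ K x.2) u
      rw [h6] at h7
      exact congrArg Subtype.val h7
    have h6 := congrArg (LinearMap.toMatrix b b) h5
    rw [LinearMap.toMatrix_comp b b b, LinearMap.toMatrix_comp b b b] at h6
    rw [h3, Matrix.smul_mul, Matrix.mul_smul, h6]

end Pool.Agent.HZ
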