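import Pool.Agent.HZ.ClfF

/-!
# Clifford theory over the complex numbers, part G: the theorem
-/

set_option autoImplicit false

namespace Pool.Agent.HZ

open Module Matrix
open scoped Kronecker

variable {V : Type} [AddCommGroup V] [Module ℂ V] {G : Type} [Group G]
variable (ρ : G →* (V ≃ₗ[ℂ] V)) (K : Subgroup G)

theorem iot_K (U : Submodule (algK ρ K) V) {e d : ℕ} (b : Basis (Fin d) ℂ U)
    (E : isotypicComponent (algK ρ K) V U ≃ₗ[algK ρ K] (Fin e → U)) (x : K)
    (v : Fin e × Fin d → ℂ) :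
    ρ x (iot ρ K U b E v) = iot ρ K U b E
      (((1 : Matrix (Fin e) (Fin e) ℂ) ⊗ₖ LinearMap.toMatrix b b (opU ρ K U x)) *ᵥ v) := by
  have h1 : ∀ w : Fin e → U, ρ x (E.symm w : V) =
      (E.symm fun i => opU ρ K U x (w i) : V) := by
    intro w
    have h2 : (fun i => opU ρ K U x (w i)) = elK ρ K x.2 • w := rfl
    rw [h2, map_smul, Submodule.coe_smul]
    rfl
  rw [iot_apply, h1, iot_apply]
  have h3 : (fun i => opU ρ K U x (∑ l, v (i, l) • b l)) = fun i =>
      ∑ k, (((1 : Matrix (Fin e) (Fin e) ℂ) ⊗ₖ LinearMap.toMatrix b b (opU ρ K U x)) *ᵥ v)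
        (i, k) • b k := by
    funext i
    rw [← kron_comb b (opU ρ K U x) 1 v i]
    rw [Finset.sum_eq_single i]
    · rw [Matrix.one_apply_eq, one_smul]
    · intro j _ hj
      rw [Matrix.one_apply_ne (Ne.symm hj), zero_smul]
    · intro h
      exact absurd (Finset.mem_univ i) h
  rw [h3]

theorem span_iot (hirr : IrrV ρ) {m : Type} [Nonempty m] (ι : (m → ℂ) →ₗ[ℂ] V)
    (hι : Function.Injective ι) (W : Submodule ℂ V) (hW : ∀ g v, ρ g (ι v) ∈ W) : W = ⊤ := by
  obtain ⟨T, hT⟩ : ∃ T, T = Submodule.span ℂ {w | ∃ g v, w = ρ g (ι v)} := ⟨_, rfl⟩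
  have h1 := hirr T (by
    intro h v hv
    rw [hT] at hv ⊢
    induction hv using Submodule.span_induction with
    | mem w hw =>
      obtain ⟨g, v, rfl⟩ := hw
      refine Submodule.subset_span ⟨h * g, v, ?_⟩
      rw [mul_app]
    | zero =>
      rw [map_zero]
      exact Submodule.zero_mem _
    | add a b _ _ ha hb =>
      rw [map_add]
      exact Submodule.add_mem _ ha hb
    | smul c a _ ha =>
      rw [map_smul]
      exact Submodule.smul_mem _ c ha)
  have h2 : T ≤ W := by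
    rw [hT, Submodule.span_le]
    rintro w ⟨g, v, rfl⟩
    exact hW g v
  rcases h1 with h1 | h1
  · exfalso
    have h3 : ι (fun _ => 1) ∈ T := by
      rw [hT]
      refine Submodule.subset_span ⟨1, fun _ => 1, ?_⟩
      rw [map_one]
      rfl
    rw [h1, Submodule.mem_bot, ← map_zero ι] at h3
    have h4 := congrFun (hι h3) (Classical.arbitrary m)
    exact one_ne_zero h4
  · rw [eq_top_iff, ← h1]
    exact h2

/-- Clifford's theorem for irreducible representations of free groups over the complex numbers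
and a normal subgroup with finite image. -/
theorem clifford [IsFreeGroup G] [K.Normal] [FiniteDimensional ℂ V] [Nontrivial V]
    (hirr : IrrV ρ) (hfin : Set.Finite {f : Module.End ℂ V | ∃ x ∈ K, f = (ρ x : V →ₗ[ℂ] V)}) :
    ∃ (H : Subgroup G) (d e : ℕ) (α : H →* GL (Fin d) ℂ) (β : H →* GL (Fin e) ℂ)
      (ι : (Fin e × Fin d → ℂ) →ₗ[ℂ] V),
      K ≤ H ∧ H.index ≠ 0 ∧ 0 < d ∧ H.index * (e * d) = finrank ℂ V ∧
      Finite α.range ∧ (∀ h, (α h : Matrix (Fin d) (Fin d) ℂ).det = 1) ∧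
      Function.Injective ι ∧
      (∀ (h : H) v, ρ h (ι v) = ι (((β h : Matrix (Fin e) (Fin e) ℂ) ⊗ₖ
        (α h : Matrix (Fin d) (Fin d) ℂ)) *ᵥ v)) ∧
      (∀ h : H, (h : G) ∈ K → ∃ z : ℂ, (β h : Matrix (Fin e) (Fin e) ℂ) = z • 1) ∧
      (∀ W : Submodule ℂ V, (∀ g v, ρ g (ι v) ∈ W) → W = ⊤) := by
  obtain ⟨U, hU⟩ := exists_simple ρ K
  have hss := semisimple ρ K hirr U hU
  obtain ⟨hidx, hdim⟩ := dims ρ K hirr U hU
  have hnt : Nontrivial U := IsSimpleModule.nontrivial (algK ρ K) U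
  have hfdU : FiniteDimensional ℂ U :=
    inferInstanceAs (FiniteDimensional ℂ (U.restrictScalars ℂ))
  have hfrU : Module.Free ℂ U := inferInstanceAs (Module.Free ℂ (U.restrictScalars ℂ))
  have hntR : Nontrivial (U.restrictScalars ℂ) := hnt
  have hfdR : FiniteDimensional ℂ (U.restrictScalars ℂ) := inferInstance
  have hd : 0 < finrank ℂ U := (finrank_pos : 0 < finrank ℂ (U.restrictScalars ℂ))
  have hnoeth : IsNoetherian (algK ρ K) V := isNoetherian_of_tower ℂ inferInstance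
  have hmf : Module.Finite (algK ρ K) (isotypicComponent (algK ρ K) V U) :=
    Module.IsNoetherian.finite _ _
  obtain ⟨e, ⟨E⟩⟩ := (IsIsotypicOfType.isotypicComponent (algK ρ K) V U).linearEquiv_fun
  obtain ⟨d, hd'⟩ : ∃ d, d = finrank ℂ U := ⟨_, rfl⟩
  rw [← hd'] at hd
  obtain ⟨b⟩ : Nonempty (Basis (Fin d) ℂ U) := ⟨hd' ▸ finBasis ℂ U⟩
  have hV1 : finrank ℂ (isotypicComponent (algK ρ K) V U) = e * d := by
    rw [(E.restrictScalars ℂ).finrank_eq, Module.finrank_pi_fintype, Finset.sum_const,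
      Finset.card_univ, Fintype.card_fin, smul_eq_mul, hd']
  rw [hV1] at hdim
  have hVpos : 0 < finrank ℂ V := finrank_pos
  have he : 0 < e := by
    rcases Nat.eq_zero_or_pos e with h | h
    · exfalso
      rw [h, Nat.zero_mul, Nat.mul_zero] at hdim
      omega
    · exact h
  have hMfin : (Set.range fun x : K => LinearMap.toMatrix b b (opU ρ K U x)).Finite := by
    have h1 : (Set.range fun x : K => opU ρ K U x).Finite := by
      refine Set.Finite.of_injOn (f := fun f : U →ₗ[ℂ] U => f) (t := Set.range fun x : K =>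
        opU ρ K U x) (fun f hf => hf) (fun _ _ _ _ h => h) ?_
      have h2 : ∀ x y : K, (ρ x : V →ₗ[ℂ] V) = (ρ y : V →ₗ[ℂ] V) → opU ρ K U x = opU ρ K U y := by
        intro x y hxy
        ext u
        exact DFunLike.congr_fun hxy (u : V)
      have h3 := hfin.to_subtype
      have h4 : Finite (Set.range fun x : K => opU ρ K U x) := by
        refine Finite.of_surjective (α := {f : Module.End ℂ V | ∃ x ∈ K, f = (ρ x : V →ₗ[ℂ] V)})
          (fun f => ⟨opU ρ K U ⟨f.2.choose, f.2.choose_spec.1⟩, ⟨_, rfl⟩⟩) ?_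
        rintro ⟨_, x, rfl⟩
        refine ⟨⟨(ρ x : V →ₗ[ℂ] V), x, x.2, rfl⟩, ?_⟩
        apply Subtype.ext
        exact h2 _ _ (Exists.choose_spec (p := fun y => y ∈ K ∧
          (ρ x : V →ₗ[ℂ] V) = (ρ y : V →ₗ[ℂ] V)) ⟨x, x.2, rfl⟩).2.symm
      exact Set.toFinite _
    have h2 : (Set.range fun x : K => LinearMap.toMatrix b b (opU ρ K U x)) =
        (fun f => LinearMap.toMatrix b b f) '' (Set.range fun x : K => opU ρ K U x) := by
      rw [← Set.range_comp]
      rfl
    rw [h2]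
    exact h1.image _
  obtain ⟨α, β, hα, hα1, hrel⟩ := assemble ρ K (stK ρ K (isotypicComponent (algK ρ K) V U)) hd
    (iot ρ K U b E) (fun x => LinearMap.toMatrix b b (opU ρ K U x)) hMfin (by
      intro X hX
      obtain ⟨z, hz⟩ := schurK ρ K U hU (Matrix.toLin b b X) (by
        intro x hx u
        have h1 := congrArg (Matrix.toLin b b) (hX ⟨x, hx⟩)
        rw [Matrix.toLin_mul b b b, Matrix.toLin_mul b b b, Matrix.toLin_toMatrix] at h1
        exact DFunLike.congr_fun h1 u)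
      refine ⟨z, ?_⟩
      have h1 : Matrix.toLin b b X = z • LinearMap.id := by
        ext u
        rw [hz, LinearMap.smul_apply, LinearMap.id_apply]
      have h2 := congrArg (LinearMap.toMatrix b b) h1
      rw [LinearMap.toMatrix_toLin, map_smul, LinearMap.toMatrix_id] at h2
      exact h2) (good_stab ρ K U hU hd b E)
  refine ⟨stK ρ K (isotypicComponent (algK ρ K) V U), d, e, α, β, iot ρ K U b E,
    le_stK ρ K _, hidx, hd, hdim, hα, hα1, iot_inj ρ K U b E, hrel, ?_, ?_⟩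
  · intro h hh
    have h1 : (β h : Matrix (Fin e) (Fin e) ℂ) ⊗ₖ (α h : Matrix (Fin d) (Fin d) ℂ) =
        (1 : Matrix (Fin e) (Fin e) ℂ) ⊗ₖ LinearMap.toMatrix b b (opU ρ K U ⟨h, hh⟩) := by
      apply Matrix.toLin'.injective
      apply LinearMap.ext
      intro v
      rw [Matrix.toLin'_apply, Matrix.toLin'_apply]
      apply iot_inj ρ K U b E
      rw [← hrel]
      exact iot_K ρ K U b E ⟨h, hh⟩ v
    refine kron_scalar _ _ _ ?_ h1
    intro h2
    have h3 := hα1 h
    have : Nonempty (Fin d) := ⟨⟨0, hd⟩⟩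
    rw [h2, Matrix.det_zero] at h3
    exact zero_ne_one h3
  · have : Nonempty (Fin e × Fin d) := ⟨(⟨0, he⟩, ⟨0, hd⟩)⟩
    exact span_iot ρ hirr _ (iot_inj ρ K U b E)

end Pool.Agent.HZ
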