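import Pool.Agent.HZ.ClfG

/-!
# Clifford theory over the complex numbers, part H: the second factor lives on the quotient
-/

set_option autoImplicit false

namespace Pool.Agent.HZ

open Module Matrix
open scoped Kronecker

theorem gl_ne_zero {e : ℕ} (he : 0 < e) (A : GL (Fin e) ℂ) : (A : Matrix (Fin e) (Fin e) ℂ) ≠ 0 := by
  intro h
  have h1 : (A : Matrix (Fin e) (Fin e) ℂ) * ((A⁻¹ : GL (Fin e) ℂ) : Matrix (Fin e) (Fin e) ℂ) = 1 :=
    Units.mul_inv A
  rw [h, Matrix.zero_mul] at h1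
  have h2 := congrArg (fun M : Matrix (Fin e) (Fin e) ℂ => M ⟨0, he⟩ ⟨0, he⟩) h1
  simp only [Matrix.zero_apply, Matrix.one_apply_eq] at h2
  exact zero_ne_one h2

theorem smul_gl_inj {e : ℕ} (he : 0 < e) (A : GL (Fin e) ℂ) {z w : ℂ}
    (h : z • (A : Matrix (Fin e) (Fin e) ℂ) = w • (A : Matrix (Fin e) (Fin e) ℂ)) : z = w := by
  have h1 : (z - w) • (A : Matrix (Fin e) (Fin e) ℂ) = 0 := by rw [sub_smul, h, sub_self]
  rcases smul_eq_zero.1 h1 with h2 | h2
  · exact sub_eq_zero.1 h2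
  · exact absurd h2 (gl_ne_zero he A)

/-- Two representations which differ by scalars differ by a character. -/
theorem scalar_hom {H : Type} [Group H] {e : ℕ} (he : 0 < e) (β β' : H →* GL (Fin e) ℂ)
    (h : ∀ x, ∃ z : ℂ, (β x : Matrix (Fin e) (Fin e) ℂ) =
      z • (β' x : Matrix (Fin e) (Fin e) ℂ)) :
    ∃ χ : H →* ℂˣ, ∀ x, (β x : Matrix (Fin e) (Fin e) ℂ) =
      (χ x : ℂ) • (β' x : Matrix (Fin e) (Fin e) ℂ) := by
  choose z hz using h
  have hz0 : ∀ x, z x ≠ 0 := by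
    intro x hx
    have h1 := hz x
    rw [hx, zero_smul] at h1
    exact gl_ne_zero he _ h1
  refine ⟨{ toFun := fun x => Units.mk0 (z x) (hz0 x), map_one' := ?_, map_mul' := ?_ }, ?_⟩
  · apply Units.ext
    show z 1 = 1
    have h1 := hz 1
    rw [map_one, map_one] at h1
    refine smul_gl_inj he 1 ?_
    rw [← h1, one_smul]
  · intro x y
    apply Units.ext
    show z (x * y) = z x * z y
    refine smul_gl_inj he (β' (x * y)) ?_
    rw [← hz, map_mul, map_mul, Units.val_mul, Units.val_mul, hz, hz, Matrix.smul_mul,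
      Matrix.mul_smul, smul_smul]
  · intro x
    exact hz x

/-- scalar matrices -/
noncomputable def scl (d : ℕ) : ℂˣ →* GL (Fin d) ℂ :=
  Units.map (algebraMap ℂ (Matrix (Fin d) (Fin d) ℂ)).toMonoidHom

theorem scl_mul {d : ℕ} (z : ℂˣ) (A : GL (Fin d) ℂ) :
    ((scl d z * A : GL (Fin d) ℂ) : Matrix (Fin d) (Fin d) ℂ) =
      (z : ℂ) • (A : Matrix (Fin d) (Fin d) ℂ) := by
  rw [Algebra.smul_def]
  rfl

/-- twist by a character -/
noncomputable def twc {H : Type} [Group H] {d : ℕ} (χ : H →* ℂˣ) (α : H →* GL (Fin d) ℂ) :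
    H →* GL (Fin d) ℂ where
  toFun x := scl d (χ x) * α x
  map_one' := by rw [map_one, map_one, map_one, one_mul]
  map_mul' x y := by
    apply Units.ext
    rw [scl_mul, Units.val_mul, scl_mul, scl_mul, map_mul, map_mul, Units.val_mul, Units.val_mul,
      Matrix.smul_mul, Matrix.mul_smul, smul_smul]

theorem twc_apply {H : Type} [Group H] {d : ℕ} (χ : H →* ℂˣ) (α : H →* GL (Fin d) ℂ) (x : H) :
    (twc χ α x : Matrix (Fin d) (Fin d) ℂ) = (χ x : ℂ) • (α x : Matrix (Fin d) (Fin d) ℂ) :=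
  scl_mul _ _

theorem twc_finite {H : Type} [Group H] {d : ℕ} (χ : H →* ℂˣ) (α : H →* GL (Fin d) ℂ)
    (hα : Finite α.range) (m : ℕ) (hm : 0 < m) (hχ : ∀ x, χ x ^ m = 1) :
    Finite (twc χ α).range := by
  have : NeZero m := ⟨hm.ne'⟩
  have h1 : Finite (rootsOfUnity m ℂ) := inferInstance
  have h2 : ((twc χ α).range : Set (GL (Fin d) ℂ)) ⊆
      Set.image2 (fun z A => scl d z * A) (rootsOfUnity m ℂ : Set ℂˣ) (α.range : Set (GL (Fin d) ℂ)) := by
    rintro _ ⟨x, rfl⟩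
    exact ⟨χ x, (mem_rootsOfUnity m (χ x)).2 (hχ x), α x, ⟨x, rfl⟩, rfl⟩
  have h3 : (rootsOfUnity m ℂ : Set ℂˣ).Finite := Set.toFinite _
  have h4 : (α.range : Set (GL (Fin d) ℂ)).Finite := Set.toFinite _
  exact ((h3.image2 _ h4).subset h2).to_subtype

variable {V : Type} [AddCommGroup V] [Module ℂ V] {G Q : Type} [Group G] [Group Q]

/-- Clifford's theorem with the second factor a representation of the quotient. -/
theorem clifford2 [IsFreeGroup G] [IsFreeGroup Q] [FiniteDimensional ℂ V] [Nontrivial V]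
    (ρ : G →* (V ≃ₗ[ℂ] V)) (hirr : IrrV ρ) (p : G →* Q)
    (hfin : Finite (p.ker.map ρ)) :
    ∃ (H : Subgroup G) (d e : ℕ) (α : H →* GL (Fin d) ℂ) (β : H →* GL (Fin e) ℂ)
      (ι : (Fin e × Fin d → ℂ) →ₗ[ℂ] V),
      p.ker ≤ H ∧ H.index ≠ 0 ∧ H.index * (e * d) = finrank ℂ V ∧
      Finite α.range ∧ Function.Injective ι ∧
      (∀ (h : H) v, ρ h (ι v) = ι (((β h : Matrix (Fin e) (Fin e) ℂ) ⊗ₖ
        (α h : Matrix (Fin d) (Fin d) ℂ)) *ᵥ v)) ∧
      (∀ h : H, p h = 1 → β h = 1) ∧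
      (∀ W : Submodule ℂ V, (∀ g v, ρ g (ι v) ∈ W) → W = ⊤) := by
  have hfin' : Set.Finite {f : Module.End ℂ V | ∃ x ∈ p.ker, f = (ρ x : V →ₗ[ℂ] V)} := by
    have h1 : {f : Module.End ℂ V | ∃ x ∈ p.ker, f = (ρ x : V →ₗ[ℂ] V)} ⊆
        (fun g : V ≃ₗ[ℂ] V => (g : V →ₗ[ℂ] V)) '' (p.ker.map ρ : Set (V ≃ₗ[ℂ] V)) := by
      rintro _ ⟨x, hx, rfl⟩
      exact ⟨ρ x, ⟨x, hx, rfl⟩, rfl⟩
    have h2 : (p.ker.map ρ : Set (V ≃ₗ[ℂ] V)).Finite := Set.toFinite _
    exact (h2.image _).subset h1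
  obtain ⟨H, d, e, α, β, ι, hK, hidx, hd, hdim, hα, hα1, hι, hrel, hsc, hspan⟩ :=
    clifford ρ p.ker hirr hfin'
  have he : 0 < e := by
    have h1 : 0 < finrank ℂ V := finrank_pos
    rcases Nat.eq_zero_or_pos e with h | h
    · exfalso
      rw [h, Nat.zero_mul, Nat.mul_zero] at hdim
      omega
    · exact h
  -- a section over the quotient
  have hfree : IsFreeGroup (H.map p) := subgroupIsFreeOfIsFree _
  let pH : H →* H.map p := p.subgroupMap H
  obtain ⟨s, hs⟩ := free_section pH (p.subgroupMap_surjective H)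
  have hspec : ∀ h : H, p ((h * (s (pH h))⁻¹ : H) : G) = 1 := by
    intro h
    have h1 : pH (h * (s (pH h))⁻¹) = 1 := by rw [map_mul, map_inv, hs, mul_inv_cancel]
    exact congrArg Subtype.val h1
  let β' : H →* GL (Fin e) ℂ := β.comp (s.comp pH)
  obtain ⟨χ, hχ⟩ := scalar_hom he β β' (by
    intro h
    obtain ⟨z, hz⟩ := hsc (h * (s (pH h))⁻¹) (hspec h)
    refine ⟨z, ?_⟩
    have h1 : β h = β (h * (s (pH h))⁻¹) * β' h := by
      show β h = β (h * (s (pH h))⁻¹) * β (s (pH h))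
      rw [← map_mul, inv_mul_cancel_right]
    rw [h1, Units.val_mul, hz, Matrix.smul_mul, Matrix.one_mul])
  refine ⟨H, d, e, twc χ α, β', ι, hK, hidx, hdim, ?_, hι, ?_, ?_, hspan⟩
  · have hcard : 0 < Nat.card (p.ker.map ρ) := Nat.card_pos
    refine twc_finite χ α hα (Nat.card (p.ker.map ρ) * d) (Nat.mul_pos hcard hd) ?_
    intro h
    obtain ⟨x, hx⟩ : ∃ x : H, x = h * (s (pH h))⁻¹ := ⟨_, rfl⟩
    obtain ⟨m, hm⟩ : ∃ m, m = Nat.card (p.ker.map ρ) := ⟨_, rfl⟩
    rw [← hm]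
    have hxk : (x : G) ∈ p.ker := by rw [hx]; exact hspec h
    have hβx : (β x : Matrix (Fin e) (Fin e) ℂ) = (χ h : ℂ) • 1 := by
      have h1 : β h = β x * β' h := by
        show β h = β x * β (s (pH h))
        rw [← map_mul, hx, inv_mul_cancel_right]
      have h2 := hχ h
      rw [h1, Units.val_mul] at h2
      have h3 := congrArg (fun M => M * ((β' h)⁻¹ : GL (Fin e) ℂ).val) h2
      simp only [Matrix.mul_assoc, Matrix.smul_mul, Units.mul_inv, Matrix.mul_one] at h3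
      exact h3
    have hρ : ρ ((x ^ m : H) : G) = 1 := by
      have h1 : (⟨ρ x, x, hxk, rfl⟩ : p.ker.map ρ) ^ m = 1 := by
        rw [hm]
        exact pow_card_eq_one'
      have h2 := congrArg Subtype.val h1
      rw [SubmonoidClass.coe_pow, OneMemClass.coe_one] at h2
      rw [SubmonoidClass.coe_pow, map_pow]
      exact h2
    have h4 : (β (x ^ m) : Matrix (Fin e) (Fin e) ℂ) ⊗ₖ
        (α (x ^ m) : Matrix (Fin d) (Fin d) ℂ) = 1 := by
      apply Matrix.toLin'.injective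
      apply LinearMap.ext
      intro v
      rw [Matrix.toLin'_apply, Matrix.toLin'_apply, Matrix.one_mulVec]
      apply hι
      rw [← hrel, hρ]
      rfl
    have h5 : (β (x ^ m) : Matrix (Fin e) (Fin e) ℂ) = ((χ h : ℂ) ^ m) • 1 := by
      rw [map_pow, Units.val_pow_eq_pow_val, hβx, smul_pow, one_pow]
    have h6 : ((χ h : ℂ) ^ m) • (α (x ^ m) : Matrix (Fin d) (Fin d) ℂ) = 1 := by
      ext k l
      have h7 := congrArg (fun T : Matrix (Fin e × Fin d) (Fin e × Fin d) ℂ =>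
        T (⟨0, he⟩, k) (⟨0, he⟩, l)) h4
      simp only [Matrix.kroneckerMap_apply, h5, Matrix.smul_apply, Matrix.one_apply_eq,
        smul_eq_mul, mul_one] at h7
      rw [Matrix.smul_apply, smul_eq_mul, h7]
      rcases eq_or_ne k l with rfl | hkl
      · rw [Matrix.one_apply_eq, Matrix.one_apply_eq]
      · rw [Matrix.one_apply_ne hkl, Matrix.one_apply_ne (fun h => hkl (Prod.ext_iff.1 h).2)]
    have h8 := congrArg Matrix.det h6
    rw [Matrix.det_smul, Fintype.card_fin, hα1, mul_one, Matrix.det_one, ← pow_mul] at h8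
    apply Units.ext
    rw [Units.val_pow_eq_pow_val, Units.val_one]
    exact h8
  · intro h v
    rw [hrel, hχ, twc_apply, Matrix.smul_kronecker, Matrix.kronecker_smul]
  · intro h hh
    have h1 : pH h = 1 := Subtype.ext hh
    show β (s (pH h)) = 1
    rw [h1, map_one, map_one]

end Pool.Agent.HZ
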