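import Pool.Agent.HZ.Stm2

/-!
# Irreducible linear groups with a finite normal subgroup
-/

set_option autoImplicit false

namespace Pool.Agent.HZ

open Matrix Module

variable {r : ℕ}

theorem mulVec_mul (γ δ : GL (Fin r) ℂ) (v : Fin r → ℂ) :
    ((γ * δ : GL (Fin r) ℂ) : Matrix (Fin r) (Fin r) ℂ) *ᵥ v =
      (γ : Matrix (Fin r) (Fin r) ℂ) *ᵥ ((δ : Matrix (Fin r) (Fin r) ℂ) *ᵥ v) := by
  rw [Units.val_mul, Matrix.mulVec_mulVec]

theorem mulVec_one' (v : Fin r → ℂ) :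
    ((1 : GL (Fin r) ℂ) : Matrix (Fin r) (Fin r) ℂ) *ᵥ v = v := by
  rw [Units.val_one, Matrix.one_mulVec]

/-- the action as linear equivalences -/
noncomputable def act (γ : GL (Fin r) ℂ) : (Fin r → ℂ) ≃ₗ[ℂ] (Fin r → ℂ) where
  toFun v := (γ : Matrix (Fin r) (Fin r) ℂ) *ᵥ v
  invFun v := ((γ⁻¹ : GL (Fin r) ℂ) : Matrix (Fin r) (Fin r) ℂ) *ᵥ v
  map_add' v w := Matrix.mulVec_add _ v w
  map_smul' c v := Matrix.mulVec_smul _ c v
  left_inv v := by
    show ((γ⁻¹ : GL (Fin r) ℂ) : Matrix (Fin r) (Fin r) ℂ) *ᵥ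
      ((γ : Matrix (Fin r) (Fin r) ℂ) *ᵥ v) = v
    rw [← mulVec_mul, inv_mul_cancel, mulVec_one']
  right_inv v := by
    show (γ : Matrix (Fin r) (Fin r) ℂ) *ᵥ
      (((γ⁻¹ : GL (Fin r) ℂ) : Matrix (Fin r) (Fin r) ℂ) *ᵥ v) = v
    rw [← mulVec_mul, mul_inv_cancel, mulVec_one']

theorem act_apply (γ : GL (Fin r) ℂ) (v : Fin r → ℂ) :
    act γ v = (γ : Matrix (Fin r) (Fin r) ℂ) *ᵥ v := rfl

/-- translate of a subspace -/
noncomputable def trans (γ : GL (Fin r) ℂ) (W : Submodule ℂ (Fin r → ℂ)) :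
    Submodule ℂ (Fin r → ℂ) := W.map (act γ).toLinearMap

theorem mem_trans (γ : GL (Fin r) ℂ) (W : Submodule ℂ (Fin r → ℂ)) (v : Fin r → ℂ) :
    v ∈ trans γ W ↔ ((γ⁻¹ : GL (Fin r) ℂ) : Matrix (Fin r) (Fin r) ℂ) *ᵥ v ∈ W := by
  unfold trans
  rw [Submodule.mem_map]
  constructor
  · rintro ⟨w, hw, rfl⟩
    show ((γ⁻¹ : GL (Fin r) ℂ) : Matrix (Fin r) (Fin r) ℂ) *ᵥ
      ((γ : Matrix (Fin r) (Fin r) ℂ) *ᵥ w) ∈ W
    rw [← mulVec_mul, inv_mul_cancel, mulVec_one']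
    exact hw
  · intro h
    refine ⟨_, h, ?_⟩
    show (γ : Matrix (Fin r) (Fin r) ℂ) *ᵥ
      (((γ⁻¹ : GL (Fin r) ℂ) : Matrix (Fin r) (Fin r) ℂ) *ᵥ v) = v
    rw [← mulVec_mul, mul_inv_cancel, mulVec_one']

theorem finrank_trans (γ : GL (Fin r) ℂ) (W : Submodule ℂ (Fin r → ℂ)) :
    finrank ℂ (trans γ W) = finrank ℂ W :=
  LinearEquiv.finrank_map_eq (act γ) W

/-- `C` is normalised by `Γ` -/
def NrmBy (Γ C : Subgroup (GL (Fin r) ℂ)) : Prop := ∀ γ ∈ Γ, ∀ c ∈ C, γ * c * γ⁻¹ ∈ C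

theorem stab_trans {Γ C : Subgroup (GL (Fin r) ℂ)} (h : NrmBy Γ C) (γ : GL (Fin r) ℂ)
    (hγ : γ ∈ Γ) (W : Submodule ℂ (Fin r → ℂ)) (hW : Stab C W) : Stab C (trans γ W) := by
  intro c hc v hv
  rw [mem_trans] at hv ⊢
  rw [← mulVec_mul]
  have h1 := h γ⁻¹ (Γ.inv_mem hγ) c hc
  have h2 := hW _ h1 _ hv
  rw [← mulVec_mul] at h2
  have e : γ⁻¹ * c * γ⁻¹⁻¹ * γ⁻¹ = γ⁻¹ * c := by group
  rw [e] at h2
  exact h2

/-- the translates of a nonzero subspace span everything -/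
theorem span_trans {Γ : Subgroup (GL (Fin r) ℂ)} (hirr : Irr Γ) (W : Submodule ℂ (Fin r → ℂ))
    (hW : W ≠ ⊥) : (⨆ γ : Γ, trans (γ : GL (Fin r) ℂ) W) = ⊤ := by
  have hst : Stab Γ (⨆ γ : Γ, trans (γ : GL (Fin r) ℂ) W) := by
    intro δ hδ v hv
    have h1 : (⨆ γ : Γ, trans (γ : GL (Fin r) ℂ) W) ≤
        (⨆ γ : Γ, trans (γ : GL (Fin r) ℂ) W).comap (act δ).toLinearMap := by
      refine iSup_le fun γ => ?_
      intro x hx
      rw [Submodule.mem_comap]
      have h2 := le_iSup (fun γ : Γ => trans (γ : GL (Fin r) ℂ) W) (⟨δ, hδ⟩ * γ)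
      simp only [Subgroup.coe_mul] at h2
      apply h2
      rw [mem_trans] at hx ⊢
      rw [LinearEquiv.coe_coe, act_apply, ← mulVec_mul]
      have e : (δ * (γ : GL (Fin r) ℂ))⁻¹ * δ = (γ : GL (Fin r) ℂ)⁻¹ := by group
      rw [e]
      exact hx
    exact h1 hv
  rcases hirr _ hst with h | h
  · exfalso
    apply hW
    rw [eq_bot_iff]
    intro v hv
    have h1 : v ∈ trans (1 : GL (Fin r) ℂ) W := by
      rw [mem_trans, inv_one, mulVec_one']
      exact hv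
    have h2 := le_iSup (fun γ : Γ => trans (γ : GL (Fin r) ℂ) W) (1 : Γ)
    simp only [Subgroup.coe_one] at h2
    rw [h] at h2
    exact h2 h1
  · exact h

/-- A normal subgroup with a stable line is abelian. -/
theorem comm_of_line {Γ C : Subgroup (GL (Fin r) ℂ)} (hirr : Irr Γ) (h : NrmBy Γ C)
    (L : Submodule ℂ (Fin r → ℂ)) (hL : finrank ℂ L = 1) (hst : Stab C L) :
    ∀ a ∈ C, ∀ b ∈ C, a * b = b * a := by
  intro a ha b hb
  have hne : L ≠ ⊥ := by
    rintro rfl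
    rw [finrank_bot] at hL
    exact zero_ne_one hL
  have hscal : ∀ γ ∈ Γ, ∀ c ∈ C, ∃ z : ℂ, ∀ v ∈ trans γ L,
      (c : Matrix (Fin r) (Fin r) ℂ) *ᵥ v = z • v := by
    intro γ hγ c hc
    have h1 : finrank ℂ (trans γ L) = 1 := by rw [finrank_trans, hL]
    obtain ⟨⟨v, hv⟩, hv0, hvspan⟩ := finrank_eq_one_iff'.1 h1
    obtain ⟨z, hz⟩ := hvspan ⟨_, stab_trans h γ hγ L hst c hc v hv⟩
    refine ⟨z, ?_⟩
    intro w hw
    obtain ⟨y, hy⟩ := hvspan ⟨w, hw⟩
    have e1 : y • v = w := congrArg Subtype.val hy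
    have e2 : z • v = (c : Matrix (Fin r) (Fin r) ℂ) *ᵥ v := congrArg Subtype.val hz
    rw [← e1, Matrix.mulVec_smul, ← e2, smul_comm]
  have hall : ∀ v : Fin r → ℂ, ((a * b : GL (Fin r) ℂ) : Matrix (Fin r) (Fin r) ℂ) *ᵥ v =
      ((b * a : GL (Fin r) ℂ) : Matrix (Fin r) (Fin r) ℂ) *ᵥ v := by
    have hle : (⨆ γ : Γ, trans (γ : GL (Fin r) ℂ) L) ≤
        LinearMap.eqLocus (act (a * b)).toLinearMap (act (b * a)).toLinearMap := by
      refine iSup_le fun γ => ?_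
      intro v hv
      rw [LinearMap.mem_eqLocus]
      show ((a * b : GL (Fin r) ℂ) : Matrix (Fin r) (Fin r) ℂ) *ᵥ v =
        ((b * a : GL (Fin r) ℂ) : Matrix (Fin r) (Fin r) ℂ) *ᵥ v
      obtain ⟨z, hz⟩ := hscal γ γ.2 a ha
      obtain ⟨y, hy⟩ := hscal γ γ.2 b hb
      rw [mulVec_mul, mulVec_mul, hz v hv, hy v hv, Matrix.mulVec_smul, Matrix.mulVec_smul,
        hz v hv, hy v hv, smul_comm]
    rw [span_trans hirr L hne] at hle
    intro v
    exact hle (Submodule.mem_top : v ∈ (⊤ : Submodule ℂ (Fin r → ℂ)))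
  apply Units.ext
  apply Matrix.ext_of_mulVec_single
  intro i
  exact hall _

/-- The dimension of a minimal stable subspace of a normal subgroup divides the rank. -/
theorem dvd_of_minimal {Γ C : Subgroup (GL (Fin r) ℂ)} (hirr : Irr Γ) (h : NrmBy Γ C)
    (W : Submodule ℂ (Fin r → ℂ)) (hW : W ≠ ⊥) (hst : Stab C W)
    (hmin : ∀ W', Stab C W' → W' ≤ W → W' = ⊥ ∨ W' = W) : finrank ℂ W ∣ r := by
  classical
  -- a stable subspace of maximal dimension divisible by that of `W`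
  have hex : ∃ k, (∃ X : Submodule ℂ (Fin r → ℂ), Stab C X ∧ finrank ℂ W ∣ finrank ℂ X ∧
      r - finrank ℂ X = k) :=
    ⟨r - finrank ℂ (⊥ : Submodule ℂ (Fin r → ℂ)), ⊥, by
      intro c _ v hv
      rw [Submodule.mem_bot] at hv ⊢
      rw [hv, Matrix.mulVec_zero], by rw [finrank_bot]; exact dvd_zero _, rfl⟩
  obtain ⟨X, hX1, hX2, hX3⟩ := Nat.find_spec hex
  have hle : ∀ Y : Submodule ℂ (Fin r → ℂ), finrank ℂ Y ≤ r := by
    intro Y
    have := Submodule.finrank_le Y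
    simpa using this
  by_cases htop : X = ⊤
  · rw [htop, finrank_top] at hX2
    simpa using hX2
  · exfalso
    have h1 : ∃ γ : Γ, ¬ trans (γ : GL (Fin r) ℂ) W ≤ X := by
      by_contra hcon
      push Not at hcon
      apply htop
      rw [eq_top_iff, ← span_trans hirr W hW]
      exact iSup_le hcon
    obtain ⟨γ, hγ⟩ := h1
    have hst' : Stab C (trans (γ : GL (Fin r) ℂ) W) := stab_trans h γ γ.2 W hst
    have hinf : trans (γ : GL (Fin r) ℂ) W ⊓ X = ⊥ := by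
      have hsub : Stab C (trans ((γ : GL (Fin r) ℂ)⁻¹) (trans (γ : GL (Fin r) ℂ) W ⊓ X)) := by
        refine stab_trans h _ (Γ.inv_mem γ.2) _ ?_
        intro c hc v hv
        exact ⟨hst' c hc v hv.1, hX1 c hc v hv.2⟩
      have hle' : trans ((γ : GL (Fin r) ℂ)⁻¹) (trans (γ : GL (Fin r) ℂ) W ⊓ X) ≤ W := by
        intro v hv
        rw [mem_trans, inv_inv] at hv
        have h2 := (Submodule.mem_inf.1 hv).1
        rw [mem_trans, ← mulVec_mul, inv_mul_cancel, mulVec_one'] at h2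
        exact h2
      rcases hmin _ hsub hle' with h2 | h2
      · rw [eq_bot_iff]
        intro v hv
        have h3 : ((γ : GL (Fin r) ℂ)⁻¹).1 *ᵥ v ∈
            trans ((γ : GL (Fin r) ℂ)⁻¹) (trans (γ : GL (Fin r) ℂ) W ⊓ X) := by
          rw [mem_trans, inv_inv, ← mulVec_mul, mul_inv_cancel, mulVec_one']
          exact hv
        rw [h2, Submodule.mem_bot] at h3
        have h4 : (γ : GL (Fin r) ℂ).1 *ᵥ (((γ : GL (Fin r) ℂ)⁻¹).1 *ᵥ v) = 0 := by
          rw [h3, Matrix.mulVec_zero]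
        rw [← mulVec_mul, mul_inv_cancel, mulVec_one'] at h4
        rw [Submodule.mem_bot]
        exact h4
      · exfalso
        apply hγ
        intro v hv
        have h3 : ((γ : GL (Fin r) ℂ)⁻¹).1 *ᵥ v ∈ W := (mem_trans _ _ _).1 hv
        rw [← h2, mem_trans, inv_inv, ← mulVec_mul, mul_inv_cancel, mulVec_one'] at h3
        exact (Submodule.mem_inf.1 h3).2
    have hfr := Submodule.finrank_sup_add_finrank_inf_eq (trans (γ : GL (Fin r) ℂ) W) X
    rw [hinf, finrank_bot, add_zero, finrank_trans] at hfr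
    have hWpos : 0 < finrank ℂ W := Nat.pos_of_ne_zero fun h0 => hW (Submodule.finrank_eq_zero.1 h0)
    have hstS : Stab C (trans (γ : GL (Fin r) ℂ) W ⊔ X) := by
      intro c hc v hv
      obtain ⟨x, hx, y, hy, rfl⟩ := Submodule.mem_sup.1 hv
      rw [Matrix.mulVec_add]
      exact Submodule.add_mem_sup (hst' c hc x hx) (hX1 c hc y hy)
    have h5 := Nat.find_min' hex ⟨trans (γ : GL (Fin r) ℂ) W ⊔ X, hstS, by
      rw [hfr]
      exact (Nat.dvd_add_right (dvd_refl _)).2 hX2, rfl⟩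
    rw [← hX3] at h5
    have h6 := hle (trans (γ : GL (Fin r) ℂ) W ⊔ X)
    rw [hfr] at h6
    rw [hfr] at h5
    omega

/-- **Clifford theory.** Let `Γ` be irreducible with a finite normal subgroup `H`. If some element
of `H` has an eigenspace of dimension one, or if the rank is prime and some element of `H` is not
scalar, then `Γ` has an abelian subgroup of finite index. -/
theorem virt_ab (Γ H : Subgroup (GL (Fin r) ℂ)) (_hH : H ≤ Γ) (hfin : Finite H)
    (hnorm : NrmBy Γ H) (hirr : Irr Γ)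
    (hx : ∃ x ∈ H, (∃ z : ℂ, finrank ℂ (Module.End.eigenspace
        (Matrix.mulVecLin (x : Matrix (Fin r) (Fin r) ℂ)) z) = 1) ∨
      (r.Prime ∧ ∀ z : ℂ, (x : Matrix (Fin r) (Fin r) ℂ) ≠ z • 1)) :
    ∃ A : Subgroup Γ, A.FiniteIndex ∧ ∀ a ∈ A, ∀ b ∈ A, a * b = b * a := by
  classical
  -- the centraliser
  let cj : Γ →* Equiv.Perm H :=
    { toFun := fun γ =>
        { toFun := fun h => ⟨γ * h * (γ : GL (Fin r) ℂ)⁻¹, hnorm γ γ.2 h h.2⟩
          invFun := fun h => ⟨(γ : GL (Fin r) ℂ)⁻¹ * h * γ, by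
            have := hnorm (γ : GL (Fin r) ℂ)⁻¹ (Γ.inv_mem γ.2) h h.2
            rw [inv_inv] at this
            exact this⟩
          left_inv := fun h => by
            apply Subtype.ext
            show (γ : GL (Fin r) ℂ)⁻¹ * (γ * h * (γ : GL (Fin r) ℂ)⁻¹) * γ = h
            group
          right_inv := fun h => by
            apply Subtype.ext
            show (γ : GL (Fin r) ℂ) * ((γ : GL (Fin r) ℂ)⁻¹ * h * γ) * (γ : GL (Fin r) ℂ)⁻¹ = h
            group }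
      map_one' := by
        apply Equiv.ext
        intro h
        apply Subtype.ext
        show (1 : GL (Fin r) ℂ) * h * (1 : GL (Fin r) ℂ)⁻¹ = h
        group
      map_mul' := by
        intro a b
        apply Equiv.ext
        intro h
        apply Subtype.ext
        show (a * b : GL (Fin r) ℂ) * h * (a * b : GL (Fin r) ℂ)⁻¹ =
          a * (b * h * (b : GL (Fin r) ℂ)⁻¹) * (a : GL (Fin r) ℂ)⁻¹
        group }
  let C : Subgroup (GL (Fin r) ℂ) := cj.ker.map Γ.subtype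
  have hC : ∀ c ∈ C, c ∈ Γ ∧ ∀ h ∈ H, c * h * c⁻¹ = h := by
    rintro c ⟨γ, hγ, rfl⟩
    refine ⟨γ.2, ?_⟩
    intro h hh
    have h1 : cj γ = 1 := hγ
    have h2 := congrArg (fun e => e ⟨h, hh⟩) h1
    exact congrArg Subtype.val h2
  have hC' : ∀ c ∈ Γ, (∀ h ∈ H, c * h * c⁻¹ = h) → c ∈ C := by
    intro c hc hh
    refine ⟨⟨c, hc⟩, ?_, rfl⟩
    show cj ⟨c, hc⟩ = 1
    apply Equiv.ext
    intro h
    apply Subtype.ext
    exact hh h h.2
  have hCn : NrmBy Γ C := by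
    intro γ hγ c hc
    obtain ⟨hcΓ, hch⟩ := hC c hc
    refine hC' _ (Γ.mul_mem (Γ.mul_mem hγ hcΓ) (Γ.inv_mem hγ)) ?_
    intro h hh
    have h1 := hnorm γ⁻¹ (Γ.inv_mem hγ) h hh
    rw [inv_inv] at h1
    have h2 := hch _ h1
    have e : γ * c * γ⁻¹ * h * (γ * c * γ⁻¹)⁻¹ = γ * (c * (γ⁻¹ * h * γ) * c⁻¹) * γ⁻¹ := by group
    rw [e, h2]
    group
  have hcomm : ∀ c ∈ C, ∀ h ∈ H, c * h = h * c := by
    intro c hc h hh
    have h1 := (hC c hc).2 h hh
    calc c * h = c * h * c⁻¹ * c := by group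
      _ = h * c := by rw [h1]
  have heig : ∀ x ∈ H, ∀ z : ℂ, Stab C (Module.End.eigenspace
      (Matrix.mulVecLin (x : Matrix (Fin r) (Fin r) ℂ)) z) := by
    intro x hx z c hc v hv
    rw [Module.End.mem_eigenspace_iff, Matrix.mulVecLin_apply] at hv ⊢
    rw [← mulVec_mul, ← hcomm c hc x hx, mulVec_mul, hv, Matrix.mulVec_smul]
  -- `C` is abelian
  have hab : ∀ a ∈ C, ∀ b ∈ C, a * b = b * a := by
    obtain ⟨x, hxH, hx | ⟨hr, hx⟩⟩ := hx
    · obtain ⟨z, hz⟩ := hx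
      exact comm_of_line hirr hCn _ hz (heig x hxH z)
    · -- a minimal stable subspace
      have hr0 : 0 < r := hr.pos
      have htop : (⊤ : Submodule ℂ (Fin r → ℂ)) ≠ ⊥ := by
        intro h0
        have h1 : finrank ℂ (⊤ : Submodule ℂ (Fin r → ℂ)) = 0 := by rw [h0, finrank_bot]
        rw [finrank_top, finrank_fin_fun] at h1
        omega
      have hex : ∃ k, ∃ W : Submodule ℂ (Fin r → ℂ), W ≠ ⊥ ∧ Stab C W ∧ finrank ℂ W = k :=
        ⟨_, ⊤, htop, fun _ _ _ _ => Submodule.mem_top, rfl⟩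
      obtain ⟨W, hW1, hW2, hW3⟩ := Nat.find_spec hex
      have hmin : ∀ W', Stab C W' → W' ≤ W → W' = ⊥ ∨ W' = W := by
        intro W' h1 h2
        by_cases h3 : W' = ⊥
        · exact Or.inl h3
        · right
          have h4 := Nat.find_min' hex ⟨W', h3, h1, rfl⟩
          rw [← hW3] at h4
          exact Submodule.eq_of_le_of_finrank_le h2 h4
      have hdvd := dvd_of_minimal hirr hCn W hW1 hW2 hmin
      rcases (Nat.dvd_prime hr).1 hdvd with h1 | h1
      · exact comm_of_line hirr hCn W h1 hW2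
      · exfalso
        have hWtop : W = ⊤ := by
          apply Submodule.eq_top_of_finrank_eq
          rw [h1, finrank_fin_fun]
        have : Nontrivial (Fin r → ℂ) := by
          have : Nonempty (Fin r) := ⟨⟨0, hr0⟩⟩
          infer_instance
        obtain ⟨z, hz⟩ := Module.End.exists_eigenvalue
          (Matrix.mulVecLin (x : Matrix (Fin r) (Fin r) ℂ))
        have h2 := hmin _ (heig x hxH z) (by rw [hWtop]; exact le_top)
        rcases h2 with h2 | h2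
        · exact hz h2
        · apply hx z
          apply Matrix.ext_of_mulVec_single
          intro i
          have h3 : (Pi.single i 1 : Fin r → ℂ) ∈ Module.End.eigenspace
              (Matrix.mulVecLin (x : Matrix (Fin r) (Fin r) ℂ)) z := by
            rw [h2, hWtop]
            exact Submodule.mem_top
          rw [Module.End.mem_eigenspace_iff, Matrix.mulVecLin_apply] at h3
          rw [h3, Matrix.smul_mulVec, Matrix.one_mulVec]
  refine ⟨cj.ker, Subgroup.finiteIndex_ker cj, ?_⟩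
  intro a ha b hb
  apply Subtype.ext
  exact hab a ⟨a, ha, rfl⟩ b ⟨b, hb, rfl⟩

end Pool.Agent.HZ
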