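import Pool.Agent.HZ.Main
import Pool.Agent.HZ.Va

/-!
# Local systems on punctured discs: final form
-/

set_option autoImplicit false

namespace Pool.Agent.HZ

open Matrix Module

variable {r : ℕ}

/-- an eigenspace of dimension one -/
def HasLine (g : GL (Fin r) ℂ) : Prop :=
  ∃ z : ℂ, finrank ℂ (Module.End.eigenspace
    (Matrix.mulVecLin (g : Matrix (Fin r) (Fin r) ℂ)) z) = 1

theorem cred_of_irr {Γ : Subgroup (GL (Fin r) ℂ)} (h : Irr Γ) : CRed Γ := by
  intro W hW
  rcases h W hW with rfl | rfl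
  · exact ⟨⊤, fun _ _ _ _ => Submodule.mem_top, isCompl_bot_top⟩
  · refine ⟨⊥, ?_, isCompl_top_bot⟩
    intro γ _ v hv
    rw [Submodule.mem_bot] at hv ⊢
    rw [hv, Matrix.mulVec_zero]

open Classical in
/-- The final form. -/
theorem final (r : ℕ) : ∃ N : ℕ, ∀ (n : ℕ) (ρ : FreeGroup (Fin n) →* GL (Fin r) ℂ),
    (∀ γ, IsSimpleLoop γ → Quasi (ρ γ)) →
    (∃ S : Finset (Fin n), S.card ≤ N ∧
      (∀ x ∈ Subgroup.normalClosure {x | ∃ i ∉ S, x = FreeGroup.of i}, Quasi (ρ x)) ∧
      (CRed ρ.range →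
        Finite ((Subgroup.normalClosure {x | ∃ i ∉ S, x = FreeGroup.of i}).map ρ))) ∧
    (Irr ρ.range →
      (N < (Finset.univ.filter fun i => HasLine (ρ (FreeGroup.of i))).card → VirtAb ρ.range) ∧
      (r.Prime → N < (Finset.univ.filter fun i => ∀ z : ℂ,
        (ρ (FreeGroup.of i) : Matrix (Fin r) (Fin r) ℂ) ≠ z • 1).card → VirtAb ρ.range)) := by
  obtain ⟨N, hN⟩ := main r
  refine ⟨N, ?_⟩
  intro n ρ hρ
  obtain ⟨S, H, hS, hH, hnorm, hgen, hroot⟩ := hN n ρ hρ
  have hfg : (ρ.range).FG := by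
    have hrange : Subgroup.closure {x | x ∈ (std n).map ρ} = ρ.range := by
      have h1 : {x | x ∈ (std n).map ρ} = ρ '' {x | x ∈ std n} := by
        ext x
        simp
      rw [h1, ← MonoidHom.map_closure, closure_std, MonoidHom.range_eq_map]
    rw [← hrange, Subgroup.fg_iff]
    exact ⟨_, rfl, List.finite_toSet _⟩
  have hfin : CRed ρ.range → Finite H := fun hc =>
    finite_of_roots ρ.range H hfg hH hnorm hroot hc
  have hle : Subgroup.normalClosure {x | ∃ i ∉ S, x = FreeGroup.of i} ≤ H.comap ρ := by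
    have hn : (H.comap ρ).Normal := by
      refine ⟨fun x hx y => ?_⟩
      rw [Subgroup.mem_comap] at hx ⊢
      rw [map_mul, map_mul, map_inv]
      exact hnorm _ ⟨y, rfl⟩ _ hx
    refine Subgroup.normalClosure_le_normal ?_
    rintro x ⟨i, hi, rfl⟩
    exact hgen i hi
  refine ⟨⟨S, hS, ?_, ?_⟩, ?_⟩
  · intro x hx z hz
    exact hroot _ (hle hx) z hz
  · intro hc
    have h1 := hfin hc
    have h2 : (Subgroup.normalClosure {x | ∃ i ∉ S, x = FreeGroup.of i}).map ρ ≤ H :=
      Subgroup.map_le_iff_le_comap.2 hle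
    exact Finite.of_injective _ (Subgroup.inclusion_injective h2)
  · intro hirr
    have h1 := hfin (cred_of_irr hirr)
    have hpick : ∀ p : Fin n → Prop, N < (Finset.univ.filter fun i => p i).card →
        ∃ i, p i ∧ i ∉ S := by
      intro p hp
      by_contra hcon
      push Not at hcon
      have h2 : (Finset.univ.filter fun i => p i) ⊆ S := by
        intro i hi
        rw [Finset.mem_filter] at hi
        exact hcon i hi.2
      have h3 := Finset.card_le_card h2
      omega
    constructor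
    · intro hc
      obtain ⟨i, hi, hiS⟩ := hpick _ hc
      exact virt_ab ρ.range H hH h1 hnorm hirr ⟨_, hgen i hiS, Or.inl hi⟩
    · intro hr hc
      obtain ⟨i, hi, hiS⟩ := hpick _ hc
      exact virt_ab ρ.range H hH h1 hnorm hirr ⟨_, hgen i hiS, Or.inr ⟨hr, hi⟩⟩

end Pool.Agent.HZ
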