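import Pool.Agent.HZ.ClfH
import Pool.Agent.HZ.Final

/-!
# Clifford theory for local systems on punctured discs
-/

set_option autoImplicit false

namespace Pool.Agent.HZ

open Module Matrix
open scoped Kronecker

variable {r : ℕ}

/-- the action as a homomorphism -/
noncomputable def actH (r : ℕ) : GL (Fin r) ℂ →* ((Fin r → ℂ) ≃ₗ[ℂ] (Fin r → ℂ)) where
  toFun := act
  map_one' := by
    ext v : 1
    rw [act_apply, mulVec_one']
    rfl
  map_mul' γ δ := by
    ext v : 1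
    rw [act_apply, mulVec_mul]
    rfl

theorem actH_apply (γ : GL (Fin r) ℂ) (v : Fin r → ℂ) :
    actH r γ v = (γ : Matrix (Fin r) (Fin r) ℂ) *ᵥ v := rfl

/-- the projection onto the free group on a set of generators -/
def prS {n : ℕ} (S : Finset (Fin n)) : FreeGroup (Fin n) →* FreeGroup S :=
  FreeGroup.lift fun i => if h : i ∈ S then FreeGroup.of ⟨i, h⟩ else 1

theorem prS_of_not_mem {n : ℕ} (S : Finset (Fin n)) (i : Fin n) (hi : i ∉ S) :
    prS S (FreeGroup.of i) = 1 := by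
  unfold prS
  rw [FreeGroup.lift_apply_of, dif_neg hi]

theorem prS_of_mem {n : ℕ} (S : Finset (Fin n)) (i : Fin n) (hi : i ∈ S) :
    prS S (FreeGroup.of i) = FreeGroup.of ⟨i, hi⟩ := by
  unfold prS
  rw [FreeGroup.lift_apply_of, dif_pos hi]

theorem ker_prS {n : ℕ} (S : Finset (Fin n)) :
    (prS S).ker = Subgroup.normalClosure {x | ∃ i ∉ S, x = FreeGroup.of i} := by
  apply le_antisymm
  · obtain ⟨K, hK⟩ : ∃ K, K = Subgroup.normalClosure {x : FreeGroup (Fin n) | ∃ i ∉ S,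
      x = FreeGroup.of i} := ⟨_, rfl⟩
    have hKn : K.Normal := by
      rw [hK]
      infer_instance
    rw [← hK]
    let j : FreeGroup S →* FreeGroup (Fin n) := FreeGroup.lift fun i => FreeGroup.of i.1
    have h1 : (QuotientGroup.mk' K).comp (j.comp (prS S)) = QuotientGroup.mk' K := by
      refine FreeGroup.ext_hom _ _ fun i => ?_
      show QuotientGroup.mk' K (j (prS S (FreeGroup.of i))) = QuotientGroup.mk' K (FreeGroup.of i)
      by_cases hi : i ∈ S
      · rw [prS_of_mem S i hi]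
        show QuotientGroup.mk' K (FreeGroup.lift _ (FreeGroup.of _)) = _
        rw [FreeGroup.lift_apply_of]
      · rw [prS_of_not_mem S i hi, map_one, map_one]
        symm
        rw [QuotientGroup.mk'_apply, QuotientGroup.eq_one_iff, hK]
        exact Subgroup.subset_normalClosure ⟨i, hi, rfl⟩
    intro x hx
    have h2 := DFunLike.congr_fun h1 x
    rw [MonoidHom.comp_apply, MonoidHom.comp_apply, MonoidHom.mem_ker.1 hx, map_one, map_one] at h2
    have h3 := h2.symm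
    rw [QuotientGroup.mk'_apply, QuotientGroup.eq_one_iff] at h3
    exact h3
  · refine Subgroup.normalClosure_le_normal ?_
    rintro x ⟨i, hi, rfl⟩
    exact prS_of_not_mem S i hi

/-- eigenvalues of powers of matrices -/
theorem root_pow (M : Matrix (Fin r) (Fin r) ℂ)
    (hM : ∀ z : ℂ, M.charpoly.IsRoot z → ∃ k > 0, z ^ k = 1) (m : ℕ) (z : ℂ)
    (hz : (M ^ m).charpoly.IsRoot z) : ∃ k > 0, z ^ k = 1 := by
  have hr : 0 < r := by
    rcases Nat.eq_zero_or_pos r with rfl | h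
    · exfalso
      have h1 := hz
      rw [Polynomial.IsRoot, Matrix.eval_charpoly, Matrix.det_isEmpty] at h1
      exact one_ne_zero h1
    · exact h
  have hne : Nonempty (Fin r) := ⟨⟨0, hr⟩⟩
  have h1 : z ∈ spectrum ℂ (M ^ m) := Matrix.mem_spectrum_iff_isRoot_charpoly.2 hz
  have h2 : (spectrum ℂ M).Nonempty := spectrum.nonempty_of_isAlgClosed_of_finiteDimensional ℂ M
  rw [spectrum.map_pow_of_nonempty h2] at h1
  obtain ⟨w, hw, rfl⟩ := h1
  obtain ⟨k, hk, h3⟩ := hM w (Matrix.mem_spectrum_iff_isRoot_charpoly.1 hw)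
  refine ⟨k, hk, ?_⟩
  show (w ^ m) ^ k = 1
  rw [← pow_mul, mul_comm, pow_mul, h3, one_pow]

theorem exists_eigvec {d : ℕ} (M : Matrix (Fin d) (Fin d) ℂ) (z : ℂ) (hz : M.charpoly.IsRoot z) :
    ∃ v : Fin d → ℂ, v ≠ 0 ∧ M *ᵥ v = z • v := by
  rw [Polynomial.IsRoot, Matrix.eval_charpoly] at hz
  obtain ⟨v, hv, h1⟩ := Matrix.exists_mulVec_eq_zero_iff.2 hz
  refine ⟨v, hv, ?_⟩
  rw [Matrix.sub_mulVec, sub_eq_zero, Matrix.scalar_apply] at h1
  rw [← h1]
  funext i
  rw [Matrix.mulVec_diagonal, Pi.smul_apply, smul_eq_mul]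

theorem root_of_eigvec {d : ℕ} (M : Matrix (Fin d) (Fin d) ℂ) (z : ℂ) (v : Fin d → ℂ)
    (hv : v ≠ 0) (h : M *ᵥ v = z • v) : M.charpoly.IsRoot z := by
  rw [Polynomial.IsRoot, Matrix.eval_charpoly]
  refine Matrix.exists_mulVec_eq_zero_iff.1 ⟨v, hv, ?_⟩
  rw [Matrix.sub_mulVec, sub_eq_zero, h, Matrix.scalar_apply]
  funext i
  rw [Matrix.mulVec_diagonal, Pi.smul_apply, smul_eq_mul]

theorem exists_root {d : ℕ} (hd : 0 < d) (M : Matrix (Fin d) (Fin d) ℂ) :
    ∃ z : ℂ, M.charpoly.IsRoot z := by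
  have hne : Nonempty (Fin d) := ⟨⟨0, hd⟩⟩
  obtain ⟨z, hz⟩ := spectrum.nonempty_of_isAlgClosed_of_finiteDimensional ℂ M
  exact ⟨z, Matrix.mem_spectrum_iff_isRoot_charpoly.1 hz⟩

theorem pow_mulVec {d : ℕ} (M : Matrix (Fin d) (Fin d) ℂ) (z : ℂ) (v : Fin d → ℂ)
    (h : M *ᵥ v = z • v) (m : ℕ) : (M ^ m) *ᵥ v = (z ^ m) • v := by
  induction m with
  | zero => rw [pow_zero, pow_zero, Matrix.one_mulVec, one_smul]
  | succ m ih => rw [pow_succ, pow_succ, ← Matrix.mulVec_mulVec, h, Matrix.mulVec_smul, ih,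
      smul_smul, mul_comm]

/-- **Clifford theory** for an irreducible representation of a free group such that the normal
subgroup generated by the generators outside `S` has a finite image. -/
theorem clf_of_finite {n : ℕ} (hr : 0 < r) (ρ : FreeGroup (Fin n) →* GL (Fin r) ℂ)
    (hirr : Irr ρ.range) (S : Finset (Fin n))
    (hfin : Finite ((Subgroup.normalClosure {x | ∃ i ∉ S, x = FreeGroup.of i}).map ρ)) :
    ∃ (H : Subgroup (FreeGroup (Fin n))) (d e : ℕ) (α : H →* GL (Fin d) ℂ)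
      (β : H →* GL (Fin e) ℂ) (ι : (Fin e × Fin d → ℂ) →ₗ[ℂ] (Fin r → ℂ)),
      Subgroup.normalClosure {x | ∃ i ∉ S, x = FreeGroup.of i} ≤ H ∧ H.index * (e * d) = r ∧
      Finite α.range ∧ Function.Injective ι ∧
      (∀ (h : H) v, (ρ h : Matrix (Fin r) (Fin r) ℂ) *ᵥ ι v =
        ι (((β h : Matrix (Fin e) (Fin e) ℂ) ⊗ₖ (α h : Matrix (Fin d) (Fin d) ℂ)) *ᵥ v)) ∧
      (∀ h : H, (h : FreeGroup (Fin n)) ∈
        Subgroup.normalClosure {x | ∃ i ∉ S, x = FreeGroup.of i} → β h = 1) ∧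
      (∀ W : Submodule ℂ (Fin r → ℂ),
        (∀ g v, (ρ g : Matrix (Fin r) (Fin r) ℂ) *ᵥ ι v ∈ W) → W = ⊤) := by
  have hne : Nonempty (Fin r) := ⟨⟨0, hr⟩⟩
  rw [← ker_prS S] at hfin ⊢
  have hirr' : IrrV ((actH r).comp ρ) := by
    intro W hW
    refine hirr W ?_
    rintro _ ⟨g, rfl⟩ v hv
    exact hW g v hv
  have hfin' : Finite ((prS S).ker.map ((actH r).comp ρ)) := by
    rw [← Subgroup.map_map]
    have h1 : ((((prS S).ker.map ρ).map (actH r) : Subgroup _) :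
        Set ((Fin r → ℂ) ≃ₗ[ℂ] (Fin r → ℂ))) =
        (fun g => actH r g) '' ((prS S).ker.map ρ : Set (GL (Fin r) ℂ)) := rfl
    have h2 : ((prS S).ker.map ρ : Set (GL (Fin r) ℂ)).Finite := Set.toFinite _
    have h3 := h2.image (fun g => actH r g)
    rw [← h1] at h3
    exact h3.to_subtype
  obtain ⟨H, d, e, α, β, ι, h1, _, h3, h4, h5, h6, h7, h8⟩ :=
    clifford2 ((actH r).comp ρ) hirr' (prS S) hfin'
  refine ⟨H, d, e, α, β, ι, h1, ?_, h4, h5, h6, ?_, h8⟩
  · rw [h3, Module.finrank_fin_fun]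
  · intro h hh
    exact h7 h hh

end Pool.Agent.HZ
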