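import Pool.Agent.HZ.ClfI

/-!
# Clifford theory for local systems on punctured discs: eigenvalues of the second factor
-/

set_option autoImplicit false

namespace Pool.Agent.HZ

open Module Matrix
open scoped Kronecker

variable {r : ℕ}

/-- eigenvalues of the second factor -/
theorem quasi_second {d e : ℕ} (hd : 0 < d) (P : Matrix (Fin r) (Fin r) ℂ)
    (ι : (Fin e × Fin d → ℂ) →ₗ[ℂ] (Fin r → ℂ)) (hι : Function.Injective ι) (B : GL (Fin e) ℂ)
    (A : GL (Fin d) ℂ) (hrel : ∀ v, P *ᵥ ι v = ι (((B : Matrix (Fin e) (Fin e) ℂ) ⊗ₖ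
      (A : Matrix (Fin d) (Fin d) ℂ)) *ᵥ v)) {m : ℕ} (hm : 0 < m) (hA : A ^ m = 1)
    (hP : ∀ z : ℂ, P.charpoly.IsRoot z → ∃ k > 0, z ^ k = 1) : Quasi B := by
  intro z hz
  obtain ⟨u, hu, hu1⟩ := exists_eigvec _ z hz
  obtain ⟨w, hw⟩ := exists_root hd (A : Matrix (Fin d) (Fin d) ℂ)
  obtain ⟨y, hy, hy1⟩ := exists_eigvec _ w hw
  have hw1 : w ^ m = 1 := by
    have h1 := pow_mulVec _ w y hy1 m
    rw [← Units.val_pow_eq_pow_val, hA, Units.val_one, Matrix.one_mulVec] at h1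
    have h2 : (w ^ m - 1) • y = 0 := by rw [sub_smul, one_smul, ← h1, sub_self]
    rcases smul_eq_zero.1 h2 with h3 | h3
    · exact sub_eq_zero.1 h3
    · exact absurd h3 hy
  have hk := kron_eig (B : Matrix (Fin e) (Fin e) ℂ) (A : Matrix (Fin d) (Fin d) ℂ) z w u y hu1 hy1
  have hne : (fun p : Fin e × Fin d => u p.1 * y p.2) ≠ 0 := by
    intro h
    obtain ⟨i, hi⟩ := Function.ne_iff.1 hu
    obtain ⟨k, hk'⟩ := Function.ne_iff.1 hy
    have h1 := congrFun h (i, k)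
    have h2 : u i * y k = 0 := h1
    rcases mul_eq_zero.1 h2 with h3 | h3
    · exact hi h3
    · exact hk' h3
  obtain ⟨j, hj, h1⟩ := hP (z * w) (root_of_eigvec P (z * w)
    (ι fun p => u p.1 * y p.2) (by
      intro h
      rw [← map_zero ι] at h
      exact hne (hι h)) (by rw [hrel, hk, map_smul]))
  refine ⟨j * m, Nat.mul_pos hj hm, ?_⟩
  have h2 : (z * w) ^ (j * m) = 1 := by rw [pow_mul, h1, one_pow]
  rw [mul_pow, mul_comm j m, pow_mul w, hw1, one_pow, mul_one] at h2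
  rw [mul_comm j m]
  exact h2

theorem quasi_conj_pow {n : ℕ} (ρ : FreeGroup (Fin n) →* GL (Fin r) ℂ) (g γ : FreeGroup (Fin n))
    (k : ℕ) (h : Quasi (ρ γ)) (z : ℂ)
    (hz : (ρ (g * γ ^ k * g⁻¹) : Matrix (Fin r) (Fin r) ℂ).charpoly.IsRoot z) :
    ∃ k > 0, z ^ k = 1 := by
  rw [map_mul, map_mul, map_inv, map_pow, Units.val_mul, Units.val_mul,
    Matrix.coe_units_inv, Matrix.charpoly_units_conj, Units.val_pow_eq_pow_val] at hz
  exact root_pow _ h k z hz

end Pool.Agent.HZ
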