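import Pool.Agent.HZ.ClfI

/-!
# Clifford theory for local systems on punctured discs: multiplicities of eigenvalues
-/

set_option autoImplicit false

namespace Pool.Agent.HZ

open Module Matrix
open scoped Kronecker

theorem kron_one {d e : ℕ} (A : Matrix (Fin d) (Fin d) ℂ) (v : Fin e × Fin d → ℂ) (i : Fin e)
    (k : Fin d) : (((1 : Matrix (Fin e) (Fin e) ℂ) ⊗ₖ A) *ᵥ v) (i, k) =
      (A *ᵥ fun l => v (i, l)) k := by
  rw [Matrix.mulVec, dotProduct, Fintype.sum_prod_type, Finset.sum_eq_single i]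
  · rw [Matrix.mulVec, dotProduct]
    refine Finset.sum_congr rfl fun l _ => ?_
    rw [Matrix.kroneckerMap_apply, Matrix.one_apply_eq, one_mul]
  · intro j _ hj
    refine Finset.sum_eq_zero fun l _ => ?_
    rw [Matrix.kroneckerMap_apply, Matrix.one_apply_ne (Ne.symm hj), zero_mul, zero_mul]
  · intro h
    exact absurd (Finset.mem_univ i) h

section
variable {r : ℕ} {F : Type} [Group F] (ρ : F →* GL (Fin r) ℂ) (H : Subgroup F) {d e : ℕ}
  (α : H →* GL (Fin d) ℂ) (β : H →* GL (Fin e) ℂ) (ι : (Fin e × Fin d → ℂ) →ₗ[ℂ] (Fin r → ℂ))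

/-- the induced representation -/
noncomputable def Phi [Fintype (F ⧸ H)] : ((F ⧸ H) → Fin e × Fin d → ℂ) →ₗ[ℂ] (Fin r → ℂ) :=
  ∑ q : F ⧸ H, (Matrix.mulVecLin (ρ q.out : Matrix (Fin r) (Fin r) ℂ)) ∘ₗ ι ∘ₗ LinearMap.proj q

theorem Phi_apply [Fintype (F ⧸ H)] (f : (F ⧸ H) → Fin e × Fin d → ℂ) :
    Phi ρ H ι f = ∑ q : F ⧸ H, (ρ q.out : Matrix (Fin r) (Fin r) ℂ) *ᵥ ι (f q) := by
  unfold Phi
  rw [LinearMap.sum_apply]
  rfl

theorem Phi_surj [Fintype (F ⧸ H)]
    (hrel : ∀ (h : H) v, (ρ h : Matrix (Fin r) (Fin r) ℂ) *ᵥ ι v =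
        ι (((β h : Matrix (Fin e) (Fin e) ℂ) ⊗ₖ (α h : Matrix (Fin d) (Fin d) ℂ)) *ᵥ v))
    (hspan : ∀ W : Submodule ℂ (Fin r → ℂ),
        (∀ g v, (ρ g : Matrix (Fin r) (Fin r) ℂ) *ᵥ ι v ∈ W) → W = ⊤) :
    Function.Surjective (Phi ρ H ι) := by
  classical
  rw [← LinearMap.range_eq_top]
  refine hspan _ ?_
  intro g v
  obtain ⟨h, hh⟩ := QuotientGroup.mk_out_eq_mul H g
  refine ⟨Pi.single (g : F ⧸ H) (((β h⁻¹ : Matrix (Fin e) (Fin e) ℂ) ⊗ₖ
    (α h⁻¹ : Matrix (Fin d) (Fin d) ℂ)) *ᵥ v), ?_⟩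
  rw [Phi_apply, Finset.sum_eq_single (g : F ⧸ H)]
  · rw [Pi.single_eq_same, ← hrel, hh, ← mulVec_mul, ← map_mul]
    have h1 : g * (h : F) * ((h⁻¹ : H) : F) = g := by
      rw [Subgroup.coe_inv, mul_inv_cancel_right]
    rw [h1]
  · intro q _ hq
    rw [Pi.single_eq_of_ne hq, map_zero, Matrix.mulVec_zero]
  · intro h
    exact absurd (Finset.mem_univ _) h

theorem Phi_inj [Fintype (F ⧸ H)] (hidx : H.index * (e * d) = r)
    (hsurj : Function.Surjective (Phi ρ H ι)) : Function.Injective (Phi ρ H ι) := by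
  refine (LinearMap.injective_iff_surjective_of_finrank_eq_finrank ?_).2 hsurj
  rw [Module.finrank_pi_fintype, Finset.sum_const, Finset.card_univ, smul_eq_mul,
    Module.finrank_fin_fun, Module.finrank_fintype_fun_eq_card, Fintype.card_prod,
    Fintype.card_fin, Fintype.card_fin, ← hidx, Subgroup.index_eq_card, Nat.card_eq_fintype_card]

/-- an element of a normal subgroup acts in every component through the first factor -/
theorem Phi_K [Fintype (F ⧸ H)] (K : Subgroup F) [hKn : K.Normal] (hK : K ≤ H)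
    (hrel : ∀ (h : H) v, (ρ h : Matrix (Fin r) (Fin r) ℂ) *ᵥ ι v =
        ι (((β h : Matrix (Fin e) (Fin e) ℂ) ⊗ₖ (α h : Matrix (Fin d) (Fin d) ℂ)) *ᵥ v))
    (hβ : ∀ h : H, (h : F) ∈ K → β h = 1) (x : F) (hx : x ∈ K) :
    ∃ A : (F ⧸ H) → Matrix (Fin d) (Fin d) ℂ, ∀ f,
      (ρ x : Matrix (Fin r) (Fin r) ℂ) *ᵥ Phi ρ H ι f =
        Phi ρ H ι fun q => ((1 : Matrix (Fin e) (Fin e) ℂ) ⊗ₖ A q) *ᵥ f q := by
  have hmem : ∀ q : F ⧸ H, q.out⁻¹ * x * q.out ∈ K := by
    intro q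
    have h1 := hKn.conj_mem x hx q.out⁻¹
    rw [inv_inv] at h1
    exact h1
  refine ⟨fun q => (α ⟨q.out⁻¹ * x * q.out, hK (hmem q)⟩ : Matrix (Fin d) (Fin d) ℂ), ?_⟩
  intro f
  rw [Phi_apply, Phi_apply, Matrix.mulVec_sum]
  refine Finset.sum_congr rfl fun q _ => ?_
  have h1 := hrel ⟨q.out⁻¹ * x * q.out, hK (hmem q)⟩ (f q)
  rw [hβ _ (hmem q), Units.val_one] at h1
  rw [← h1, ← mulVec_mul, ← mulVec_mul, ← map_mul, ← map_mul]
  have h2 : q.out * (q.out⁻¹ * x * q.out) = x * q.out := by group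
  rw [h2]

/-- **The dimension of the second factor divides the multiplicities of the eigenvalues.** -/
theorem mult_dvd (hr : 0 < r) (hidx : H.index * (e * d) = r) (K : Subgroup F) [K.Normal]
    (hK : K ≤ H)
    (hrel : ∀ (h : H) v, (ρ h : Matrix (Fin r) (Fin r) ℂ) *ᵥ ι v =
        ι (((β h : Matrix (Fin e) (Fin e) ℂ) ⊗ₖ (α h : Matrix (Fin d) (Fin d) ℂ)) *ᵥ v))
    (hspan : ∀ W : Submodule ℂ (Fin r → ℂ),
        (∀ g v, (ρ g : Matrix (Fin r) (Fin r) ℂ) *ᵥ ι v ∈ W) → W = ⊤)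
    (hβ : ∀ h : H, (h : F) ∈ K → β h = 1) (x : F) (hx : x ∈ K) (z : ℂ) :
    e ∣ finrank ℂ (Module.End.eigenspace
      (Matrix.mulVecLin (ρ x : Matrix (Fin r) (Fin r) ℂ)) z) := by
  classical
  have hindex : H.index ≠ 0 := by
    intro h
    rw [h, Nat.zero_mul] at hidx
    omega
  have hfq : Finite (F ⧸ H) := Subgroup.index_ne_zero_iff_finite.1 hindex
  have := Fintype.ofFinite (F ⧸ H)
  have hsurj := Phi_surj ρ H α β ι hrel hspan
  have hinj := Phi_inj ρ H ι hidx hsurj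
  obtain ⟨A, hA⟩ := Phi_K ρ H α β ι K hK hrel hβ x hx
  let W : Submodule ℂ ((F ⧸ H) → Fin d → ℂ) :=
    { carrier := {u | ∀ q, A q *ᵥ u q = z • u q}
      add_mem' := by
        intro a b ha hb q
        rw [Pi.add_apply, Matrix.mulVec_add, ha q, hb q, smul_add]
      zero_mem' := by
        intro q
        rw [Pi.zero_apply, Matrix.mulVec_zero, smul_zero]
      smul_mem' := by
        intro c a ha q
        rw [Pi.smul_apply, Matrix.mulVec_smul, ha q, smul_comm] }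
  let T : (Fin e → W) →ₗ[ℂ] ((F ⧸ H) → Fin e × Fin d → ℂ) :=
    { toFun := fun w q p => (w p.1 : (F ⧸ H) → Fin d → ℂ) q p.2
      map_add' := fun _ _ => rfl
      map_smul' := fun _ _ => rfl }
  have hT : Function.Injective T := by
    intro w w' h
    funext i
    apply Subtype.ext
    funext q k
    exact congrFun (congrFun h q) (i, k)
  have hrange : LinearMap.range (Phi ρ H ι ∘ₗ T) = Module.End.eigenspace
      (Matrix.mulVecLin (ρ x : Matrix (Fin r) (Fin r) ℂ)) z := by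
    apply le_antisymm
    · rintro _ ⟨w, rfl⟩
      rw [Module.End.mem_eigenspace_iff, Matrix.mulVecLin_apply, LinearMap.comp_apply, hA,
        ← map_smul]
      congr 1
      funext q p
      obtain ⟨i, k⟩ := p
      rw [kron_one]
      exact congrFun ((w i).2 q) k
    · intro v hv
      rw [Module.End.mem_eigenspace_iff, Matrix.mulVecLin_apply] at hv
      obtain ⟨f, rfl⟩ := hsurj v
      rw [hA, ← map_smul] at hv
      have h1 := hinj hv
      refine ⟨fun i => ⟨fun q k => f q (i, k), ?_⟩, rfl⟩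
      intro q
      funext k
      have h2 := congrFun (congrFun h1 q) (i, k)
      rw [kron_one] at h2
      exact h2
  have hcomp : Function.Injective (Phi ρ H ι ∘ₗ T) := by
    intro w w' h
    exact hT (hinj h)
  rw [← hrange, LinearMap.finrank_range_of_inj hcomp, Module.finrank_pi_fintype,
    Finset.sum_const, Finset.card_univ, Fintype.card_fin, smul_eq_mul]
  exact dvd_mul_right _ _

end

end Pool.Agent.HZ
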