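import Pool.Agent.HZ.StmI
import Pool.Agent.HZ.ClfJ
import Pool.Agent.HZ.ClfK

/-!
# Clifford theory for local systems on punctured discs: final form
-/

set_option autoImplicit false

namespace Pool.Agent.HZ

open Module Matrix
open scoped Kronecker

variable {r : ℕ}

/-- If the second factor has rank one then the image is virtually abelian. -/
theorem virt_of_one {F : Type} [Group F] (ρ : F →* GL (Fin r) ℂ) (H : Subgroup F) {d : ℕ}
    (α : H →* GL (Fin d) ℂ) (β : H →* GL (Fin 1) ℂ)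
    (ι : (Fin 1 × Fin d → ℂ) →ₗ[ℂ] (Fin r → ℂ)) (hidx : H.index ≠ 0) (hα : Finite α.range)
    (hrel : ∀ (h : H) v, (ρ h : Matrix (Fin r) (Fin r) ℂ) *ᵥ ι v =
        ι (((β h : Matrix (Fin 1) (Fin 1) ℂ) ⊗ₖ (α h : Matrix (Fin d) (Fin d) ℂ)) *ᵥ v))
    (hspan : ∀ W : Submodule ℂ (Fin r → ℂ),
        (∀ g v, (ρ g : Matrix (Fin r) (Fin r) ℂ) *ᵥ ι v ∈ W) → W = ⊤) :
    VirtAb ρ.range := by
  obtain ⟨L, hL⟩ : ∃ L, L = α.ker.map H.subtype := ⟨_, rfl⟩
  have hker : α.ker.FiniteIndex := inferInstance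
  have hLi : L.FiniteIndex := by
    refine ⟨?_⟩
    rw [hL, Subgroup.index_map_subtype]
    exact Nat.mul_ne_zero hker.index_ne_zero hidx
  have hC : L.normalCore.FiniteIndex := inferInstance
  -- the elements of the core act by scalars on the translates
  have hsc : ∀ c ∈ L.normalCore, ∀ g, ∃ z : ℂ, ∀ v,
      (ρ c : Matrix (Fin r) (Fin r) ℂ) *ᵥ ((ρ g : Matrix (Fin r) (Fin r) ℂ) *ᵥ ι v) =
        z • ((ρ g : Matrix (Fin r) (Fin r) ℂ) *ᵥ ι v) := by
    intro c hc g
    have h1 : g⁻¹ * c * g ∈ L := by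
      have h2 := (Subgroup.normalCore_normal L).conj_mem c hc g⁻¹
      rw [inv_inv] at h2
      exact Subgroup.normalCore_le L h2
    rw [hL] at h1
    obtain ⟨h, hh, h2⟩ := h1
    have h2' : (h : F) = g⁻¹ * c * g := h2
    refine ⟨(β h : Matrix (Fin 1) (Fin 1) ℂ) 0 0, ?_⟩
    intro v
    have h3 : (ρ c : Matrix (Fin r) (Fin r) ℂ) *ᵥ ((ρ g : Matrix (Fin r) (Fin r) ℂ) *ᵥ ι v) =
        (ρ g : Matrix (Fin r) (Fin r) ℂ) *ᵥ ((ρ h : Matrix (Fin r) (Fin r) ℂ) *ᵥ ι v) := by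
      rw [← mulVec_mul, ← mulVec_mul, ← map_mul, ← map_mul, h2']
      have h4 : g * (g⁻¹ * c * g) = c * g := by group
      rw [h4]
    have h5 : (β h : Matrix (Fin 1) (Fin 1) ℂ) =
        ((β h : Matrix (Fin 1) (Fin 1) ℂ) 0 0) • (1 : Matrix (Fin 1) (Fin 1) ℂ) := by
      ext i j
      rw [Subsingleton.elim i 0, Subsingleton.elim j 0, Matrix.smul_apply, Matrix.one_apply_eq,
        smul_eq_mul, mul_one]
    rw [h3, hrel, (MonoidHom.mem_ker.1 hh : α h = 1), Units.val_one]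
    rw [h5, Matrix.smul_kronecker, Matrix.one_kronecker_one, Matrix.smul_mulVec,
      Matrix.one_mulVec, map_smul, Matrix.mulVec_smul]
    rw [← h5]
  refine ⟨L.normalCore.map ρ.rangeRestrict, ?_, ?_⟩
  · refine ⟨?_⟩
    intro h
    have h1 := Subgroup.index_map_dvd L.normalCore (f := ρ.rangeRestrict)
      ρ.rangeRestrict_surjective
    rw [h, zero_dvd_iff] at h1
    exact hC.index_ne_zero h1
  · rintro _ ⟨a, ha, rfl⟩ _ ⟨b, hb, rfl⟩
    rw [← map_mul, ← map_mul]
    apply Subtype.ext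
    show ρ (a * b) = ρ (b * a)
    have h1 := hspan (LinearMap.eqLocus (Matrix.mulVecLin (ρ (a * b) : Matrix (Fin r) (Fin r) ℂ))
      (Matrix.mulVecLin (ρ (b * a) : Matrix (Fin r) (Fin r) ℂ))) (by
        intro g v
        obtain ⟨z, hz⟩ := hsc a ha g
        obtain ⟨w, hw⟩ := hsc b hb g
        show (ρ (a * b) : Matrix (Fin r) (Fin r) ℂ) *ᵥ ((ρ g : Matrix (Fin r) (Fin r) ℂ) *ᵥ ι v) =
          (ρ (b * a) : Matrix (Fin r) (Fin r) ℂ) *ᵥ ((ρ g : Matrix (Fin r) (Fin r) ℂ) *ᵥ ι v)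
        rw [map_mul, map_mul, mulVec_mul, mulVec_mul, hw, hz, Matrix.mulVec_smul,
          Matrix.mulVec_smul, hz, hw, smul_comm])
    apply Units.ext
    apply Matrix.toLin'.injective
    apply LinearMap.ext
    intro v
    have h2 : v ∈ (⊤ : Submodule ℂ (Fin r → ℂ)) := Submodule.mem_top
    rw [← h1] at h2
    exact h2

open Classical in
/-- **The structure of irreducible local systems on punctured discs** whose simple loops have only
roots of unity as eigenvalues. -/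
theorem clf_final (r : ℕ) (hr : 0 < r) : ∃ N : ℕ, ∀ (n : ℕ)
    (ρ : FreeGroup (Fin n) →* GL (Fin r) ℂ), (∀ γ, IsSimpleLoop γ → Quasi (ρ γ)) →
    Irr ρ.range →
    ∃ (S : Finset (Fin n)) (H : Subgroup (FreeGroup (Fin n))) (d e : ℕ) (α : H →* GL (Fin d) ℂ)
      (β : H →* GL (Fin e) ℂ),
      S.card ≤ N ∧ IndTensor ρ H β α ∧ Finite α.range ∧
      Subgroup.normalClosure {x | ∃ i ∉ S, x = FreeGroup.of i} ≤ β.ker.map H.subtype ∧
      (∀ (h : H) (g γ : FreeGroup (Fin n)) (k : ℕ), IsSimpleLoop γ →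
        (h : FreeGroup (Fin n)) = g * γ ^ k * g⁻¹ → Quasi (β h)) ∧
      (∀ i ∉ S, ∀ z : ℂ, e ∣ finrank ℂ (Module.End.eigenspace
        (Matrix.mulVecLin (ρ (FreeGroup.of i) : Matrix (Fin r) (Fin r) ℂ)) z)) ∧
      (N < (Finset.univ.filter fun i => ∀ z : ℂ,
        (ρ (FreeGroup.of i) : Matrix (Fin r) (Fin r) ℂ) ≠ z • 1).card → 2 * e ≤ r) ∧
      (e = 1 → VirtAb ρ.range) := by
  obtain ⟨N, hN⟩ := final r
  refine ⟨N, ?_⟩
  intro n ρ hρ hirr
  obtain ⟨⟨S, hS, _, hfin⟩, _⟩ := hN n ρ hρ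
  obtain ⟨H, d, e, α, β, ι, h1, h2, h3, h4, h5, h6, h7⟩ :=
    clf_of_finite hr ρ hirr S (hfin (cred_of_irr hirr))
  have hd : 0 < d := by
    rcases Nat.eq_zero_or_pos d with h | h
    · rw [h, Nat.mul_zero, Nat.mul_zero] at h2
      omega
    · exact h
  have hidx : H.index ≠ 0 := by
    intro h
    rw [h, Nat.zero_mul] at h2
    omega
  have hmem : ∀ i ∉ S, FreeGroup.of i ∈
      Subgroup.normalClosure {x | ∃ i ∉ S, x = FreeGroup.of i} := fun i hi =>
    Subgroup.subset_normalClosure ⟨i, hi, rfl⟩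
  refine ⟨S, H, d, e, α, β, hS, ⟨h2, ι, h4, h5, h7⟩, h3, ?_, ?_, ?_, ?_, ?_⟩
  · intro x hx
    exact ⟨⟨x, h1 hx⟩, h6 ⟨x, h1 hx⟩ hx, rfl⟩
  · intro h g γ k hγ hh
    have hcard : 0 < Nat.card α.range := Nat.card_pos
    refine quasi_second hd (ρ h : Matrix (Fin r) (Fin r) ℂ) ι h4 (β h) (α h) (h5 h) hcard ?_ ?_
    · have h8 : (⟨α h, h, rfl⟩ : α.range) ^ Nat.card α.range = 1 := pow_card_eq_one'
      exact congrArg Subtype.val h8
    · intro z hz
      rw [hh] at hz
      exact quasi_conj_pow ρ g γ k (hρ γ hγ) z hz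
  · intro i hi z
    exact mult_dvd ρ H α β ι hr h2 _ h1 h5 h7 h6 _ (hmem i hi) z
  · intro hc
    -- otherwise all elements of the normal subgroup are scalar
    by_contra hcon
    have h8 : ∃ i, (∀ z : ℂ, (ρ (FreeGroup.of i) : Matrix (Fin r) (Fin r) ℂ) ≠ z • 1) ∧ i ∉ S := by
      by_contra hcon
      push Not at hcon
      have h2 : (Finset.univ.filter fun i => ∀ z : ℂ,
          (ρ (FreeGroup.of i) : Matrix (Fin r) (Fin r) ℂ) ≠ z • 1) ⊆ S := by
        intro i hi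
        rw [Finset.mem_filter] at hi
        exact hcon i hi.2
      have h3 := Finset.card_le_card h2
      omega
    obtain ⟨i, hi, hiS⟩ := h8
    have he : 0 < e := by
      rcases Nat.eq_zero_or_pos e with h | h
      · rw [h, Nat.zero_mul, Nat.mul_zero] at h2
        omega
      · exact h
    have h9 : H.index * d = 1 := by
      have h10 : (H.index * d) * e = r := by rw [← h2]; ring
      have h11 : 0 < H.index * d := Nat.mul_pos (Nat.pos_of_ne_zero hidx) hd
      by_contra h12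
      have h13 : 2 ≤ H.index * d := by omega
      have h14 : 2 * e ≤ (H.index * d) * e := Nat.mul_le_mul_right e h13
      omega
    -- the component is everything and the element acts by a scalar
    have h10 : H.index = 1 := Nat.dvd_one.1 (Dvd.intro _ h9)
    have h11 : d = 1 := by rw [h10, Nat.one_mul] at h9; exact h9
    subst h11
    have h12 : e = r := by rw [h10, Nat.mul_one, Nat.one_mul] at h2; exact h2
    have hsurj : Function.Surjective ι := by
      refine (LinearMap.injective_iff_surjective_of_finrank_eq_finrank ?_).1 h4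
      rw [Module.finrank_fin_fun, Module.finrank_fintype_fun_eq_card, Fintype.card_prod,
        Fintype.card_fin, Fintype.card_fin, h12, Nat.mul_one]
    obtain ⟨h, hh⟩ : ∃ h : H, (h : FreeGroup (Fin n)) = FreeGroup.of i := ⟨⟨_, h1 (hmem i hiS)⟩, rfl⟩
    refine hi ((α h : Matrix (Fin 1) (Fin 1) ℂ) 0 0) ?_
    have h13 : (α h : Matrix (Fin 1) (Fin 1) ℂ) =
        ((α h : Matrix (Fin 1) (Fin 1) ℂ) 0 0) • (1 : Matrix (Fin 1) (Fin 1) ℂ) := by
      ext i j
      rw [Subsingleton.elim i 0, Subsingleton.elim j 0, Matrix.smul_apply, Matrix.one_apply_eq,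
        smul_eq_mul, mul_one]
    apply Matrix.toLin'.injective
    apply LinearMap.ext
    intro v
    obtain ⟨w, rfl⟩ := hsurj v
    rw [Matrix.toLin'_apply, Matrix.toLin'_apply, ← hh, h5,
      h6 h (by rw [hh]; exact hmem i hiS), Units.val_one]
    rw [h13, Matrix.kronecker_smul, Matrix.one_kronecker_one, Matrix.smul_mulVec,
      Matrix.one_mulVec, map_smul, ← h13, Matrix.smul_mulVec, Matrix.one_mulVec]
  · rintro rfl
    exact virt_of_one ρ H α β ι hidx h3 h5 h7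

end Pool.Agent.HZ
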