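import Pool.Agent.HZ.Space
import Pool.Agent.Helper12.ScEscape2

/-!
# The coordinate functions on the general linear group
-/

set_option autoImplicit false

namespace Pool.Agent.HZ

open Helper12.Sc Matrix Module Polynomial

variable {r : ℕ}

/-- index set of the coordinates -/
abbrev Ix (r : ℕ) : Type := Fin 3 × Bool × Fin r × Fin r

/-- the automorphisms -/
def tw (σ σ' : RingAut ℂ) (k : Fin 3) : RingAut ℂ := if k = 0 then 1 else if k = 1 then σ else σ'

/-- the coordinates of `τ g` and `τ g⁻¹` for the three automorphisms -/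
noncomputable def cr (σ σ' : RingAut ℂ) (k : Ix r) (g : GL (Fin r) ℂ) : ℂ :=
  tw σ σ' k.1 (((if k.2.1 then g else g⁻¹ : GL (Fin r) ℂ) : Matrix (Fin r) (Fin r) ℂ)
    k.2.2.1 k.2.2.2)

theorem cr_mem (σ σ' : RingAut ℂ) (k : Ix r) : cr σ σ' k ∈ V1 (cr (r := r) σ σ') :=
  Submodule.subset_span (Set.mem_insert_of_mem _ ⟨k, rfl⟩)

theorem good_cr (σ σ' : RingAut ℂ) : Good (cr (r := r) σ σ') where
  mul := by
    rintro ⟨k, b, i, j⟩
    cases b
    · have e : (fun p : GL (Fin r) ℂ × GL (Fin r) ℂ => cr σ σ' (k, false, i, j) (p.1 * p.2)) =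
          ∑ l, fun p => cr σ σ' (k, false, l, j) p.1 * cr σ σ' (k, false, i, l) p.2 := by
        funext p
        rw [Finset.sum_apply]
        simp only [cr, Bool.false_eq_true, if_false, _root_.mul_inv_rev, Units.val_mul,
          Matrix.mul_apply, map_sum, map_mul]
        exact Finset.sum_congr rfl fun l _ => mul_comm _ _
      rw [e]
      exact Submodule.sum_mem _ fun l _ =>
        Submodule.subset_span ⟨_, cr_mem σ σ' _, _, cr_mem σ σ' _, rfl⟩
    · have e : (fun p : GL (Fin r) ℂ × GL (Fin r) ℂ => cr σ σ' (k, true, i, j) (p.1 * p.2)) =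
          ∑ l, fun p => cr σ σ' (k, true, i, l) p.1 * cr σ σ' (k, true, l, j) p.2 := by
        funext p
        rw [Finset.sum_apply]
        simp only [cr, if_true, Units.val_mul, Matrix.mul_apply, map_sum, map_mul]
      rw [e]
      exact Submodule.sum_mem _ fun l _ =>
        Submodule.subset_span ⟨_, cr_mem σ σ' _, _, cr_mem σ σ' _, rfl⟩
  inv := by
    rintro ⟨k, b, i, j⟩
    have e : (fun x : GL (Fin r) ℂ => cr σ σ' (k, b, i, j) x⁻¹) = cr σ σ' (k, !b, i, j) := by
      funext x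
      cases b <;> simp [cr]
    rw [e]
    exact cr_mem σ σ' _

/-- the degree of the escape functions -/
def d0 (r : ℕ) : ℕ := (4 * r ^ 2 + r ^ 2 + r ^ 2) * r

theorem crd_space_le (σ σ' τ : RingAut ℂ) (k : Fin 3) (hk : tw σ σ' k = τ) (d : ℕ) :
    crdSpace r τ d ≤ space (cr (r := r) σ σ') d := by
  unfold crdSpace
  rw [space_eq, space_eq]
  refine pow_le_pow_left' ?_ d
  unfold V1
  refine Submodule.span_le.2 ?_
  rintro x (rfl | ⟨⟨i, j⟩, rfl⟩)
  · exact one_V1 _
  · have e : crd (r := r) τ (i, j) = cr σ σ' (k, true, i, j) := by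
      funext g
      simp [crd, cr, hk]
    rw [e]
    exact cr_mem σ σ' _

theorem big_le (σ σ' : RingAut ℂ) :
    bigSpace r σ σ' ≤ space (cr (r := r) σ σ') (4 * r ^ 2 + r ^ 2 + r ^ 2) := by
  unfold bigSpace
  rw [← space_mul, ← space_mul]
  refine mul_le_mul' (mul_le_mul' ?_ ?_) ?_
  · exact crd_space_le σ σ' 1 0 (by simp [tw]) _
  · exact crd_space_le σ σ' σ 1 (by simp [tw]) _
  · exact crd_space_le σ σ' σ' 2 (by simp [tw]) _

/-- the escape functions: the entries of the `r`-th power of the matrix polynomial -/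
noncomputable def Es (σ σ' : RingAut ℂ) (i j : Fin r) (g : GL (Fin r) ℂ) : ℂ :=
  ((Emat (g : Matrix (Fin r) (Fin r) ℂ) ((g : Matrix (Fin r) (Fin r) ℂ).map σ)
    ((g : Matrix (Fin r) (Fin r) ℂ).map σ')) ^ r) i j

theorem Es_mem (σ σ' : RingAut ℂ) (i j : Fin r) :
    Es σ σ' i j ∈ space (cr (r := r) σ σ') (d0 r) := by
  have h1 : ∀ n : ℕ, ∀ i j : Fin r, (fun g : GL (Fin r) ℂ =>
      ((Emat (g : Matrix (Fin r) (Fin r) ℂ) ((g : Matrix (Fin r) (Fin r) ℂ).map σ)
        ((g : Matrix (Fin r) (Fin r) ℂ).map σ')) ^ n) i j) ∈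
      space (cr (r := r) σ σ') ((4 * r ^ 2 + r ^ 2 + r ^ 2) * n) := by
    intro n
    induction n with
    | zero =>
      intro i j
      simp only [pow_zero]
      exact const_space _ _ _
    | succ n ih =>
      intro i j
      have e : (fun g : GL (Fin r) ℂ =>
          ((Emat (g : Matrix (Fin r) (Fin r) ℂ) ((g : Matrix (Fin r) (Fin r) ℂ).map σ)
            ((g : Matrix (Fin r) (Fin r) ℂ).map σ')) ^ (n + 1)) i j) =
          ∑ l, (fun g : GL (Fin r) ℂ =>
            ((Emat (g : Matrix (Fin r) (Fin r) ℂ) ((g : Matrix (Fin r) (Fin r) ℂ).map σ)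
              ((g : Matrix (Fin r) (Fin r) ℂ).map σ')) ^ n) i l) *
            Emat (gmat r 1) (gmat r σ) (gmat r σ') l j := by
        funext g
        rw [Finset.sum_apply, pow_succ, Matrix.mul_apply]
        refine Finset.sum_congr rfl fun l _ => ?_
        rw [Pi.mul_apply, Emat_gmat]
      rw [e]
      refine Submodule.sum_mem _ fun l _ => ?_
      rw [Nat.mul_succ, ← space_mul]
      exact Submodule.mul_mem_mul (ih i l) (big_le σ σ' (Emat_gmat_mem σ σ' l j))
  exact h1 r i j

/-- the functions of degree at most `d` form a space of bounded dimension -/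
theorem finrank_cr (σ σ' : RingAut ℂ) (d : ℕ) :
    finrank ℂ (space (cr (r := r) σ σ') d) ≤ (6 * r ^ 2 + 1) ^ d := by
  refine (finrank_space_le (G := GL (Fin r) ℂ) (cr (r := r) σ σ') d).trans (le_of_eq ?_)
  congr 2
  simp only [Ix, Fintype.card_prod, Fintype.card_fin, Fintype.card_bool]
  ring

instance fd_cr (σ σ' : RingAut ℂ) (d : ℕ) :
    FiniteDimensional ℂ (space (cr (r := r) σ σ') d) := finite_space _ _

/-- The escape functions vanish at matrices whose eigenvalues are `N`-th roots of unity. -/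
theorem Es_zero (σ σ' : RingAut ℂ) (N : ℕ)
    (h : ∀ ζ : ℂ, ζ ^ N = 1 → σ' ζ = σ ζ * ζ ^ 4) (g : GL (Fin r) ℂ)
    (hg : ∀ z : ℂ, (g : Matrix (Fin r) (Fin r) ℂ).charpoly.IsRoot z → z ^ N = 1) (i j : Fin r) :
    Es σ σ' i j g = 0 := by
  have hroot : ∀ w : ℂ, (Emat (g : Matrix (Fin r) (Fin r) ℂ)
      ((g : Matrix (Fin r) (Fin r) ℂ).map σ)
      ((g : Matrix (Fin r) (Fin r) ℂ).map σ')).charpoly.IsRoot w → w = 0 := by
    intro w hw
    unfold Emat at hw
    -- the eigenvalues of a polynomial in a matrix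
    have h1 : w ∈ spectrum ℂ (aeval ((g : Matrix (Fin r) (Fin r) ℂ) ^ 4)
        (Spoly ((g : Matrix (Fin r) (Fin r) ℂ).map σ) ((g : Matrix (Fin r) (Fin r) ℂ).map σ'))) := by
      rw [Matrix.mem_spectrum_iff_isRoot_charpoly]
      exact hw
    have h2 : aeval ((g : Matrix (Fin r) (Fin r) ℂ) ^ 4)
        (Spoly ((g : Matrix (Fin r) (Fin r) ℂ).map σ) ((g : Matrix (Fin r) (Fin r) ℂ).map σ')) =
        aeval (g : Matrix (Fin r) (Fin r) ℂ) ((Spoly ((g : Matrix (Fin r) (Fin r) ℂ).map σ)
          ((g : Matrix (Fin r) (Fin r) ℂ).map σ')).comp (X ^ 4)) := by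
      rw [aeval_comp]
      simp
    rw [h2] at h1
    have hr : Nonempty (Fin r) := ⟨i⟩
    rw [spectrum.map_polynomial_aeval_of_nonempty _ _
      (spectrum.nonempty_of_isAlgClosed_of_finiteDimensional ℂ _)] at h1
    obtain ⟨z, hz, rfl⟩ := h1
    rw [Matrix.mem_spectrum_iff_isRoot_charpoly] at hz
    simp only [eval_comp, eval_pow, eval_X]
    apply Spoly_eval_eq_zero _ _ (z ^ 4) (σ z)
    · exact root_map (σ : ℂ →+* ℂ) _ z hz
    · have h3 := root_map (σ' : ℂ →+* ℂ) (g : Matrix (Fin r) (Fin r) ℂ) z hz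
      have h4 : σ' z = z ^ 4 * σ z := by rw [h z (hg z hz), mul_comm]
      rw [← h4]
      exact h3
  have hnil : (Emat (g : Matrix (Fin r) (Fin r) ℂ) ((g : Matrix (Fin r) (Fin r) ℂ).map σ)
      ((g : Matrix (Fin r) (Fin r) ℂ).map σ')) ^ r = 0 := by
    set M := Emat (g : Matrix (Fin r) (Fin r) ℂ) ((g : Matrix (Fin r) (Fin r) ℂ).map σ)
      ((g : Matrix (Fin r) (Fin r) ℂ).map σ') with hM
    have hs : M.charpoly.Splits := IsAlgClosed.splits _
    have hprod : M.charpoly = (M.charpoly.roots.map fun a => X - C a).prod :=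
      hs.eq_prod_roots_of_monic (Matrix.charpoly_monic M)
    have hrep : M.charpoly.roots = Multiset.replicate M.charpoly.roots.card 0 := by
      rw [Multiset.eq_replicate]
      refine ⟨rfl, fun b hb => hroot b ?_⟩
      exact (mem_roots (Matrix.charpoly_monic M).ne_zero).1 hb
    have hcard : M.charpoly.roots.card = r := by
      have := hs.natDegree_eq_card_roots
      rw [← this, Matrix.charpoly_natDegree_eq_dim, Fintype.card_fin]
    have hX : M.charpoly = X ^ r := by
      rw [hprod, hrep, hcard]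
      simp
    have h5 := Matrix.aeval_self_charpoly M
    rw [hX] at h5
    simpa using h5
  unfold Es
  rw [hnil, Matrix.zero_apply]

end Pool.Agent.HZ
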