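import Pool.Agent.HZ.Sat

/-!
# Some facts on lists
-/

set_option autoImplicit false

namespace Pool.Agent.HZ

open Helper12.Sc Module Pointwise

/-- splitting a list of windows into groups -/
theorem exists_groups {α : Type} (q : ℕ) : ∀ (m : ℕ) (Us : List α), Us.length = 2 * m * q →
    ∃ grp : Fin m × Bool → List α, (∀ k, (grp k).length = q) ∧
      Us = ((List.finRange m).map fun i => grp (i, false) ++ grp (i, true)).flatten := by
  intro m
  induction m with
  | zero =>
    intro Us h
    refine ⟨fun k => k.1.elim0, fun k => k.1.elim0, ?_⟩
    have h1 : Us.length = 0 := by rw [h]; simp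
    rw [List.length_eq_zero_iff] at h1
    rw [h1]
    rfl
  | succ m ih =>
    intro Us h
    obtain ⟨grp, h1, h2⟩ := ih (Us.drop (2 * q)) (by
      rw [List.length_drop, h]
      have : 2 * (m + 1) * q = 2 * m * q + 2 * q := by ring
      omega)
    have hlen : 2 * q ≤ Us.length := by
      rw [h]
      nlinarith
    refine ⟨fun k => Fin.cases (cond k.2 ((Us.drop q).take q) (Us.take q))
      (fun j => grp (j, k.2)) k.1, ?_, ?_⟩
    · rintro ⟨i, b⟩
      induction i using Fin.cases with
      | zero =>
        cases b
        · simp only [Fin.cases_zero, cond_false, List.length_take]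
          omega
        · simp only [Fin.cases_zero, cond_true, List.length_take, List.length_drop]
          omega
      | succ j =>
        simp only [Fin.cases_succ]
        exact h1 _
    · rw [List.finRange_succ, List.map_cons, List.flatten_cons, List.map_map]
      simp only [Fin.cases_zero, cond_false, cond_true, Function.comp_def, Fin.cases_succ]
      rw [← h2]
      conv_lhs => rw [← List.take_append_drop (2 * q) Us]
      congr 1
      rw [two_mul, List.take_add]

/-- a short sublist containing given elements -/
theorem exists_sub {α : Type} (P : List α) (S : List α) (h : ∀ x ∈ S, x ∈ P) :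
    ∃ Y : List α, Y.Sublist P ∧ Y.length ≤ S.length ∧ ∀ x ∈ S, x ∈ Y := by
  classical
  induction P generalizing S with
  | nil =>
    refine ⟨[], List.Sublist.refl _, Nat.zero_le _, fun x hx => h x hx⟩
  | cons a P ih =>
    by_cases ha : a ∈ S
    · obtain ⟨Y, h1, h2, h3⟩ := ih (S.filter fun x => x ≠ a) (by
        intro x hx
        rw [List.mem_filter] at hx
        rcases List.mem_cons.1 (h x hx.1) with h4 | h4
        · exact absurd h4 (by simpa using hx.2)
        · exact h4)
      refine ⟨a :: Y, h1.cons_cons a, ?_, ?_⟩
      · rw [List.length_cons]
        have h4 : (S.filter fun x => x ≠ a).length < S.length := by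
          rw [List.length_filter_lt_length_iff_exists]
          exact ⟨a, ha, by simp⟩
        omega
      · intro x hx
        by_cases hxa : x = a
        · rw [hxa]
          exact List.mem_cons_self ..
        · exact List.mem_cons_of_mem _ (h3 x (by
            rw [List.mem_filter]
            exact ⟨hx, by simpa using hxa⟩))
    · obtain ⟨Y, h1, h2, h3⟩ := ih S (by
        intro x hx
        rcases List.mem_cons.1 (h x hx) with h4 | h4
        · exact absurd (h4 ▸ hx) ha
        · exact h4)
      exact ⟨Y, h1.cons a, h2, h3⟩

/-- lists of elements of a list as words in its indices -/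
theorem exists_word_idx {α : Type} (Y : List α) (u : List α) (h : ∀ x ∈ u, x ∈ Y) :
    ∃ w : List (Fin Y.length), w.map Y.get = u := by
  induction u with
  | nil => exact ⟨[], rfl⟩
  | cons x u ih =>
    obtain ⟨w, hw⟩ := ih fun z hz => h z (List.mem_cons_of_mem _ hz)
    obtain ⟨j, hj⟩ := List.get_of_mem (h x (List.mem_cons_self ..))
    exact ⟨j :: w, by rw [List.map_cons, hw, hj]⟩

section
variable {G : Type} [Group G]

/-- elements of power sets -/
theorem prods_replicate (Y : Set G) (n : ℕ) (x : G) (hx : x ∈ prods (List.replicate n Y)) :
    ∃ f : Fin n → G, (∀ i, f i ∈ insert 1 Y) ∧ ((List.finRange n).map f).prod = x := by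
  induction n generalizing x with
  | zero =>
    refine ⟨fun i => i.elim0, fun i => i.elim0, ?_⟩
    have h1 : x ∈ (1 : Set G) := hx
    rw [Set.mem_one] at h1
    rw [h1]
    rfl
  | succ n ih =>
    have h1 : prods (List.replicate (n + 1) Y) = insert 1 Y * prods (List.replicate n Y) := by
      unfold prods
      rw [List.replicate_succ, List.map_cons, List.prod_cons]
    rw [h1] at hx
    obtain ⟨a, ha, b, hb, rfl⟩ := hx
    obtain ⟨f, hf, rfl⟩ := ih b hb
    refine ⟨Fin.cons a f, ?_, ?_⟩
    · intro i
      induction i using Fin.cases with
      | zero => simpa using ha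
      | succ j => simpa using hf j
    · rw [List.finRange_succ, List.map_cons, List.prod_cons, List.map_map]
      simp [Function.comp_def]

/-- elements of power sets as products of short lists -/
theorem prods_replicate_list (P : List G) (n : ℕ) (x : G)
    (hx : x ∈ prods (List.replicate n {y | y ∈ P})) :
    ∃ u : List G, u.length ≤ n ∧ (∀ z ∈ u, z ∈ P) ∧ u.prod = x := by
  induction n generalizing x with
  | zero =>
    have h1 : x ∈ (1 : Set G) := hx
    rw [Set.mem_one] at h1
    exact ⟨[], le_refl _, by simp, by rw [h1]; rfl⟩
  | succ n ih =>
    have h1 : prods (List.replicate (n + 1) {y | y ∈ P}) =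
        insert 1 {y | y ∈ P} * prods (List.replicate n {y | y ∈ P}) := by
      unfold prods
      rw [List.replicate_succ, List.map_cons, List.prod_cons]
    rw [h1] at hx
    obtain ⟨a, ha, b, hb, rfl⟩ := hx
    obtain ⟨u, h2, h3, rfl⟩ := ih b hb
    rcases ha with rfl | ha
    · exact ⟨u, by omega, h3, by simp⟩
    · refine ⟨a :: u, by rw [List.length_cons]; omega, ?_, by simp⟩
      intro z hz
      rcases List.mem_cons.1 hz with rfl | hz
      · exact ha
      · exact h3 z hz

/-- The simple loops for letters and products of sublists of the windows are simple loops. -/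
theorem tup_loop {m : ℕ} (T P R' : List G) (grp : Fin m × Bool → List (List G))
    (hT : BReach T (P ++ (((List.finRange m).map fun i =>
      grp (i, false) ++ grp (i, true)).flatten.flatten ++ R')))
    (Y : List G) (hY : Y.Sublist P) (v : Fin m × Bool → G) (hv : ∀ k, v k ∈ zs (grp k)) (γ : G)
    (hγ : Loop (tup Y.get v) γ) : Loop T γ := by
  choose S hS1 hS2 using fun k => zs_sublist (grp k) (v k) (hv k)
  let Bs : List (List G) := Y.map (fun y => [y]) ++
    ((List.finRange m).map fun i => [S (i, false), S (i, true)]).flatten
  have h1 : Bs.map List.prod = tup Y.get v := by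
    simp only [Bs, tup, List.map_append, List.map_flatten, List.map_map, Function.comp_def,
      List.map_cons, List.map_nil, hS2, List.prod_singleton]
    congr 1
    rw [List.map_id']
    exact (List.map_get_finRange Y).symm
  have h2 : Bs.flatten = Y ++ ((List.finRange m).map fun i =>
      S (i, false) ++ S (i, true)).flatten := by
    simp only [Bs, List.flatten_append]
    congr 1
    · induction Y with
      | nil => rfl
      | cons a Y _ => simp [← List.flatMap_def]
    · induction (List.finRange m) with
      | nil => rfl
      | cons a l ih =>
        simp only [List.map_cons, List.flatten_cons, List.flatten_append, ih]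
        simp
  have h3 : Bs.flatten.Sublist (P ++ (((List.finRange m).map fun i =>
      grp (i, false) ++ grp (i, true)).flatten.flatten ++ R')) := by
    rw [h2]
    refine List.Sublist.append hY (List.Sublist.trans ?_ (List.sublist_append_left _ R'))
    induction (List.finRange m) with
    | nil => exact List.Sublist.refl _
    | cons a l ih =>
      simp only [List.map_cons, List.flatten_cons, List.flatten_append]
      exact List.Sublist.append (List.Sublist.append (hS1 _) (hS1 _)) ih
  rw [← h1] at hγ
  exact Loop.of_pre ((Pre.of_reach hT).trans (Pre.sublist h3)) (blocks_loop hγ)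

end

end Pool.Agent.HZ
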