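import Pool.Agent.HZ.ClfM
import Pool.Agent.HZ.RedE

/-!
# Local systems on punctured discs with simple loops of finite order: the structure theorem

One set of punctures for the reduction and for the structure of irreducible representations.
-/

set_option autoImplicit false

namespace Pool.Agent.HZ

open Matrix Module

variable {r : ℕ}

/-- the finiteness of the orbit depends only on the list of the images of the generators -/
theorem finOrb_congr {m₁ m₂ : ℕ} (h : m₁ = m₂) (σ₁ : FreeGroup (Fin m₁) →* GL (Fin r) ℂ)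
    (σ₂ : FreeGroup (Fin m₂) →* GL (Fin r) ℂ) (hl : (std m₁).map σ₁ = (std m₂).map σ₂)
    (hf : FinOrb σ₁) : FinOrb σ₂ := by
  subst h
  have h2 : σ₁ = σ₂ := by
    refine FreeGroup.ext_hom _ _ fun i => ?_
    rw [std_map', std_map'] at hl
    have h3 := List.ofFn_injective hl
    exact congrFun h3 i
  rw [← h2]
  exact hf

/-- the finiteness of the orbit passes from a subdisc to a smaller one -/
theorem finOrb_mono {n : ℕ} (ρ : FreeGroup (Fin n) →* GL (Fin r) ℂ) (S S' : Finset (Fin n))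
    (hS : S ⊆ S') (h : FinOrb (ρ.comp (inc S'))) : FinOrb (ρ.comp (inc S)) := by
  classical
  let e := S'.orderEmbOfFin (rfl : S'.card = S'.card)
  let T : Finset (Fin S'.card) := Finset.univ.filter fun j => e j ∈ S
  have hmap : T.map e.toEmbedding = S := by
    ext i
    simp only [Finset.mem_map, T, Finset.mem_filter, Finset.mem_univ, true_and]
    constructor
    · rintro ⟨j, hj, rfl⟩
      exact hj
    · intro hi
      have hi' : i ∈ Set.range e := by
        rw [Finset.range_orderEmbOfFin]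
        exact hS hi
      obtain ⟨j, rfl⟩ := hi'
      exact ⟨j, hi, rfl⟩
  have hcard : T.card = S.card := by
    rw [← hmap, Finset.card_map]
  have h1 := finOrb_inc (ρ.comp (inc S')) T h
  refine finOrb_congr hcard _ _ ?_ h1
  have h2 : (std T.card).map ((ρ.comp (inc S')).comp (inc T)) =
      ((std T.card).map (inc T)).map (ρ.comp (inc S')) := by
    rw [List.map_map]
    rfl
  have h3 : (std S.card).map (ρ.comp (inc S)) = ((std S.card).map (inc S)).map ρ := by
    rw [List.map_map]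
    rfl
  rw [h2, h3, std_inc, std_inc, List.map_map, List.map_map]
  have h4 : (T.sort).map e = S.sort := by
    rw [sort_eq_filter T, sort_eq_filter S]
    have h5 : ((List.finRange S'.card).filter fun j => decide (j ∈ T)).map e =
        ((List.finRange S'.card).map e).filter fun i => decide (i ∈ S) := by
      rw [List.filter_map]
      congr 1
      refine List.filter_congr fun j _ => ?_
      simp [T]
    rw [h5]
    have h6 : (List.finRange S'.card).map e = S'.sort := Finset.listMap_orderEmbOfFin_finRange S' rfl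
    rw [h6, sort_eq_filter S', List.filter_filter]
    refine List.filter_congr fun i _ => ?_
    by_cases hi : i ∈ S
    · simp [hi, hS hi]
    · simp [hi]
  rw [← h4, List.map_map]
  refine List.map_congr_left fun j _ => ?_
  simp [inc, e]

/-- **Structure theorem.** -/
theorem struct_thm (r : ℕ) (hr : 0 < r) : ∃ N : ℕ,
    (∀ (n : ℕ) (ρ : FreeGroup (Fin n) →* GL (Fin r) ℂ),
      (∀ γ, IsSimpleLoop γ → Quasi (ρ γ)) → ∃ S : Finset (Fin n), S.card ≤ N ∧
        (∀ x ∈ Subgroup.normalClosure {x | ∃ i ∉ S, x = FreeGroup.of i}, Quasi (ρ x)) ∧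
        (CRed ρ.range →
          Finite ((Subgroup.normalClosure {x | ∃ i ∉ S, x = FreeGroup.of i}).map ρ)) ∧
        (FinOrb ρ ↔ FinOrb (ρ.comp (inc S))) ∧
        (Irr ρ.range → ∃ (H : Subgroup (FreeGroup (Fin n))) (d e : ℕ) (α : H →* GL (Fin d) ℂ)
          (β : H →* GL (Fin e) ℂ), IndTensor ρ H β α ∧ Finite α.range ∧
          Subgroup.normalClosure {x | ∃ i ∉ S, x = FreeGroup.of i} ≤ β.ker.map H.subtype ∧
          (∀ (h : H) (g γ : FreeGroup (Fin n)) (k : ℕ), IsSimpleLoop γ →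
            (h : FreeGroup (Fin n)) = g * γ ^ k * g⁻¹ → Quasi (β h)) ∧
          (∀ i ∉ S, ∀ z : ℂ, e ∣ finrank ℂ (Module.End.eigenspace
            (Matrix.mulVecLin (ρ (FreeGroup.of i) : Matrix (Fin r) (Fin r) ℂ)) z)) ∧
          (N < Nat.card {i | ∀ z : ℂ,
            (ρ (FreeGroup.of i) : Matrix (Fin r) (Fin r) ℂ) ≠ z • 1} → 2 * e ≤ r))) ∧
    (∀ (n : ℕ) (ρ : FreeGroup (Fin n) →* GL (Fin r) ℂ),
      (∀ γ, IsSimpleLoop γ → Quasi (ρ γ)) → Irr ρ.range →
      (N < Nat.card {i | ∃ z : ℂ, (finrank ℂ (Module.End.eigenspace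
          (Matrix.mulVecLin (ρ (FreeGroup.of i) : Matrix (Fin r) (Fin r) ℂ)) z)).Coprime r} ∨
        (r.Prime ∧ N < Nat.card {i | ∀ z : ℂ,
          (ρ (FreeGroup.of i) : Matrix (Fin r) (Fin r) ℂ) ≠ z • 1})) → VirtAb ρ.range) ∧
    ((∀ n ≤ N, ∀ ρ : FreeGroup (Fin n) →* GL (Fin r) ℂ,
      (∀ γ, IsSimpleLoop γ → Quasi (ρ γ)) → FinOrb ρ) →
    ∀ (n : ℕ) (ρ : FreeGroup (Fin n) →* GL (Fin r) ℂ),
      (∀ γ, IsSimpleLoop γ → Quasi (ρ γ)) → FinOrb ρ) := by
  classical
  obtain ⟨N₁, h₁, h₁'⟩ := red_fin r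
  obtain ⟨N₂, h₂⟩ := clf_thm r hr
  have hcard : ∀ {n : ℕ} (p : Fin n → Prop), Nat.card {i | p i} =
      (Finset.univ.filter fun i => p i).card := by
    intro n p
    rw [Nat.card_eq_fintype_card, Fintype.card_subtype]
    rfl
  refine ⟨N₁ + N₂, ?_, ?_, ?_⟩
  · intro n ρ hρ
    obtain ⟨S₁, a1, a2, a3, a4⟩ := h₁ n ρ hρ
    by_cases hirr : Irr ρ.range
    · obtain ⟨-, S₂, H, d, e, α, β, b1, b2, b3, b4, b5, b6, b7⟩ := h₂ n ρ hρ hirr
      have hK₁ : Subgroup.normalClosure {x : FreeGroup (Fin n) | ∃ i ∉ S₁ ∪ S₂, x = FreeGroup.of i} ≤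
          Subgroup.normalClosure {x | ∃ i ∉ S₁, x = FreeGroup.of i} := by
        apply Subgroup.normalClosure_mono
        rintro x ⟨i, hi, rfl⟩
        exact ⟨i, fun h => hi (Finset.mem_union_left _ h), rfl⟩
      have hK₂ : Subgroup.normalClosure {x : FreeGroup (Fin n) | ∃ i ∉ S₁ ∪ S₂, x = FreeGroup.of i} ≤
          Subgroup.normalClosure {x | ∃ i ∉ S₂, x = FreeGroup.of i} := by
        apply Subgroup.normalClosure_mono
        rintro x ⟨i, hi, rfl⟩
        exact ⟨i, fun h => hi (Finset.mem_union_right _ h), rfl⟩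
      refine ⟨S₁ ∪ S₂, (Finset.card_union_le _ _).trans (add_le_add a1 b1),
        fun x hx => a2 x (hK₁ hx), fun hc => ?_, ⟨fun h => finOrb_inc ρ _ h, fun h => a4.2
          (finOrb_mono ρ S₁ (S₁ ∪ S₂) Finset.subset_union_left h)⟩, fun _ =>
          ⟨H, d, e, α, β, b2, b3, hK₂.trans b4, b5, fun i hi => b6 i fun h =>
            hi (Finset.mem_union_right _ h), fun hN => b7 ?_⟩⟩
      · have := a3 hc
        exact Finite.Set.subset (α := GL (Fin r) ℂ)
          ((Subgroup.normalClosure {x | ∃ i ∉ S₁, x = FreeGroup.of i}).map ρ : Set (GL (Fin r) ℂ))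
          (Subgroup.map_mono hK₁)
      · rw [hcard] at hN
        exact lt_of_le_of_lt (Nat.le_add_left _ _) hN
    · exact ⟨S₁, a1.trans (Nat.le_add_right _ _), a2, a3, a4, fun h => absurd h hirr⟩
  · intro n ρ hρ hirr hc
    refine (h₂ n ρ hρ hirr).1 ?_
    rcases hc with hc | ⟨hp, hc⟩
    · left
      rw [hcard] at hc
      exact lt_of_le_of_lt (Nat.le_add_left _ _) hc
    · right
      rw [hcard] at hc
      exact ⟨hp, lt_of_le_of_lt (Nat.le_add_left _ _) hc⟩
  · intro h
    exact h₁' fun n hn => h n (hn.trans (Nat.le_add_right _ _))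

end Pool.Agent.HZ
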