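import Pool.Agent.HZ.Defs

/-!
# Pairs with trivial product

A pair `(g, g⁻¹)` can be moved past everything and conjugated by everything without changing the
other elements.
-/

set_option autoImplicit false

namespace Pool.Agent.HZ

section
variable {G : Type*} [Group G]

/-- a pair with trivial product -/
def Q (g : G) : List G := [g, g⁻¹]

theorem Q_prod (g : G) : (Q g).prod = 1 := by simp [Q]

theorem Q_left (A : List G) (g : G) : BReach (A ++ Q g) (Q g ++ A) := by
  induction A with
  | nil => simpa using BReach.refl _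
  | cons a A ih =>
    have h1 := ih.cons a
    have h2 := (pass_right a (Q g)).append_right A
    rw [Q_prod] at h2
    simp only [inv_one, one_mul, mul_one, List.append_assoc, List.cons_append, List.nil_append]
      at h1 h2 ⊢
    exact h1.trans h2

theorem Q_conj (a g : G) : BReach (a :: Q g) (Q (a * g * a⁻¹) ++ [a]) := by
  have h1 := move_right a (Q g)
  have e : (Q g).map (fun x => a * x * a⁻¹) = Q (a * g * a⁻¹) := by
    simp [Q, mul_assoc]
  rw [e] at h1
  exact h1

theorem Q_letter (A : List G) (a g : G) (ha : a ∈ A) :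
    BReach (A ++ Q g) (A ++ Q (a * g * a⁻¹)) := by
  obtain ⟨A1, A2, rfl⟩ := List.append_of_mem ha
  have h1 : BReach (A1 ++ a :: A2 ++ Q g) (A1 ++ ([a] ++ (Q g ++ A2))) := by
    have := (Q_left A2 g).context (A1 ++ [a]) []
    simpa using this
  have h2 : BReach (A1 ++ ([a] ++ (Q g ++ A2))) (A1 ++ (Q (a * g * a⁻¹) ++ ([a] ++ A2))) := by
    have := (Q_conj a g).context A1 A2
    simpa using this
  have h3 : BReach (A1 ++ (Q (a * g * a⁻¹) ++ ([a] ++ A2)))
      (A1 ++ (([a] ++ A2) ++ Q (a * g * a⁻¹))) :=
    ((Q_left ([a] ++ A2) (a * g * a⁻¹)).symm).append_left A1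
  have h4 := (h1.trans h2).trans h3
  simpa using h4

theorem Q_closure (A : List G) (w : G) (hw : w ∈ Subgroup.closure {x | x ∈ A}) (g : G) :
    BReach (A ++ Q g) (A ++ Q (w * g * w⁻¹)) := by
  induction hw using Subgroup.closure_induction generalizing g with
  | mem a ha => exact Q_letter A a g ha
  | one =>
    have e : (1 : G) * g * 1⁻¹ = g := by simp
    rw [e]
    exact BReach.refl _
  | mul u v _ _ hu hv =>
    have h1 := (hv g).trans (hu (v * g * v⁻¹))
    have e : u * (v * g * v⁻¹) * u⁻¹ = u * v * g * (u * v)⁻¹ := by group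
    rw [e] at h1
    exact h1
  | inv u _ hu =>
    have h1 := (hu (u⁻¹ * g * u⁻¹⁻¹)).symm
    have e : u * (u⁻¹ * g * u⁻¹⁻¹) * u⁻¹ = g := by group
    rw [e] at h1
    exact h1

theorem pairs_all (A : List G) (ps : List (G × G))
    (h : ∀ p ∈ ps, p.1 ∈ Subgroup.closure {x | x ∈ A}) :
    BReach (A ++ (ps.map fun p => Q p.2).flatten)
      ((ps.map fun p => Q (p.1 * p.2 * p.1⁻¹)).flatten ++ A) := by
  induction ps with
  | nil => simpa using BReach.refl _
  | cons p ps ih =>
    have h0 := ih (fun q hq => h q (List.mem_cons_of_mem _ hq))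
    have h1 := (Q_closure A p.1 (h p (List.mem_cons_self ..)) p.2).append_right
      (ps.map fun p => Q p.2).flatten
    have h2 := (Q_left A (p.1 * p.2 * p.1⁻¹)).append_right (ps.map fun p => Q p.2).flatten
    have h3 := h0.append_left (Q (p.1 * p.2 * p.1⁻¹))
    simp only [List.map_cons, List.flatten_cons, List.append_assoc] at h1 h2 h3 ⊢
    exact (h1.trans h2).trans h3

theorem pairs_pre (A : List G) (ps : List (G × G))
    (h : ∀ p ∈ ps, p.1 ∈ Subgroup.closure {x | x ∈ A}) :
    Pre (A ++ (ps.map fun p => Q p.2).flatten) (ps.map fun p => p.1 * p.2 * p.1⁻¹) := by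
  refine (Pre.of_reach (pairs_all A ps h)).trans (Pre.sublist ?_)
  have h1 : (ps.map fun p => p.1 * p.2 * p.1⁻¹).Sublist
      (ps.map fun p => Q (p.1 * p.2 * p.1⁻¹)).flatten := by
    induction ps with
    | nil => exact List.Sublist.refl _
    | cons p ps ih =>
      have h2 := ih (fun q hq => h q (List.mem_cons_of_mem _ hq))
      simp only [List.map_cons, List.flatten_cons, Q, List.cons_append, List.nil_append]
      exact (h2.cons _).cons_cons _
  exact h1.trans (List.sublist_append_left _ _)

theorem pairs_loop (A : List G) (ps : List (G × G))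
    (h : ∀ p ∈ ps, p.1 ∈ Subgroup.closure {x | x ∈ A}) :
    Loop (A ++ (ps.map fun p => Q p.2).flatten) (ps.map fun p => p.1 * p.2 * p.1⁻¹).prod :=
  (loop_iff _ _).2 ⟨_, pairs_pre A ps h, rfl⟩

end

/-! ### universal words -/

section
variable {G : Type*} [Group G]

/-- the list of letters and pairs -/
def tup {q m : ℕ} (y : Fin q → G) (v : Fin m × Bool → G) : List G :=
  (List.finRange q).map y ++ ((List.finRange m).map fun i => [v (i, false), v (i, true)]).flatten

/-- evaluation of words -/
def evw {q m : ℕ} (y : Fin q → G) (v : Fin m × Bool → G) :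
    FreeGroup (Fin q ⊕ Fin m × Bool) →* G := FreeGroup.lift (Sum.elim y v)

/-- For all words `w i` there is a word `W` which is a simple loop for the letters and the pairs
and becomes the product of the `w i g i (w i)⁻¹` for pairs with trivial product. -/
theorem exists_word {q m : ℕ} (w : Fin m → FreeGroup (Fin q)) :
    ∃ W : FreeGroup (Fin q ⊕ Fin m × Bool),
      (∀ (G : Type) [Group G] (y : Fin q → G) (v : Fin m × Bool → G),
        Loop (tup y v) (evw y v W)) ∧
      ∀ (G : Type) [Group G] (y : Fin q → G) (g : Fin m → G),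
        evw y (fun p => if p.2 then (g p.1)⁻¹ else g p.1) W =
          ((List.finRange m).map fun i => FreeGroup.lift y (w i) * g i *
            (FreeGroup.lift y (w i))⁻¹).prod := by
  classical
  -- the quotient group
  let yb : Fin q → FreeGroup (Fin q ⊕ Fin m) := fun i => FreeGroup.of (Sum.inl i)
  let gb : Fin m → FreeGroup (Fin q ⊕ Fin m) := fun i => FreeGroup.of (Sum.inr i)
  let π : FreeGroup (Fin q ⊕ Fin m × Bool) →* FreeGroup (Fin q ⊕ Fin m) :=
    evw yb (fun p => if p.2 then (gb p.1)⁻¹ else gb p.1)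
  let T : List (FreeGroup (Fin q ⊕ Fin m × Bool)) :=
    tup (fun i => FreeGroup.of (Sum.inl i)) (fun p => FreeGroup.of (Sum.inr p))
  let ps : List (FreeGroup (Fin q ⊕ Fin m) × FreeGroup (Fin q ⊕ Fin m)) :=
    (List.finRange m).map fun i => (FreeGroup.lift yb (w i), gb i)
  have hmap : ∀ (H : Type) [Group H] (y : Fin q → H) (v : Fin m × Bool → H),
      T.map (evw y v) = tup y v := by
    intro H _ y v
    simp [T, tup, evw, Function.comp_def, List.map_flatten]
  have hπT : T.map π = (List.finRange q).map yb ++ (ps.map fun p => Q p.2).flatten := by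
    rw [hmap]
    simp [tup, ps, Q, Function.comp_def]
  have hcl : ∀ p ∈ ps, p.1 ∈ Subgroup.closure {x | x ∈ (List.finRange q).map yb} := by
    intro p hp
    simp only [ps, List.mem_map] at hp
    obtain ⟨i, _, rfl⟩ := hp
    show FreeGroup.lift yb (w i) ∈ _
    have h1 : (FreeGroup.lift yb (w i)) ∈ (FreeGroup.lift yb).range := ⟨w i, rfl⟩
    rw [FreeGroup.range_lift_eq_closure] at h1
    refine Subgroup.closure_mono ?_ h1
    rintro x ⟨j, rfl⟩
    simp
  have h1 := pairs_loop ((List.finRange q).map yb) ps hcl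
  rw [← hπT, loop_iff] at h1
  obtain ⟨A, hA, hprod⟩ := h1
  obtain ⟨A', hA', hmapA⟩ := Pre.lift π hA
  refine ⟨A'.prod, ?_, ?_⟩
  · intro H _ y v
    have h2 := (Loop.map (evw y v) ((loop_iff T A'.prod).2 ⟨A', hA', rfl⟩))
    rw [hmap] at h2
    exact h2
  · intro H _ y g
    have hfac : evw y (fun p => if p.2 then (g p.1)⁻¹ else g p.1) =
        (FreeGroup.lift (Sum.elim y g)).comp π := by
      apply FreeGroup.ext_hom
      rintro (i | ⟨i, b⟩)
      · simp [evw, π, yb]
      · cases b <;> simp [evw, π, gb]
    have h3 : π A'.prod = (ps.map fun p => p.1 * p.2 * p.1⁻¹).prod := by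
      rw [← hprod, ← hmapA, List.prod_hom]
    rw [hfac, MonoidHom.comp_apply, h3, ← List.prod_hom]
    congr 1
    simp only [ps, List.map_map]
    apply List.map_congr_left
    intro i _
    have h4 : FreeGroup.lift (Sum.elim y g) (FreeGroup.lift yb (w i)) = FreeGroup.lift y (w i) := by
      have h5 : (FreeGroup.lift (Sum.elim y g)).comp (FreeGroup.lift yb) = FreeGroup.lift y := by
        apply FreeGroup.ext_hom
        intro j
        simp [yb]
      rw [← h5]
      rfl
    simp only [Function.comp_def, map_mul, map_inv, h4]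
    simp [gb]

end

end Pool.Agent.HZ
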