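import Pool.Agent.HZ.Defs
import Pool.Agent.Helper12.ScGreedy

/-!
# Robust lists and windows

`V` is a finite dimensional space of functions on a group, stable under right translations.
`alg V hV L` is the algebra of endomorphisms of `V` generated by the right translations by the
elements of the list `L`.
-/

set_option autoImplicit false

namespace Pool.Agent.HZ

open Helper12.Sc Module

section abs

variable {W : Type} [AddCommGroup W] [Module ℂ W] [FiniteDimensional ℂ W]

theorem Rob_inv (A : Subalgebra ℂ (Module.End ℂ W)) (S T : Module.End ℂ W) (ha : S ∈ A)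
    (h1 : T * S = 1) : T ∈ A := by
  have hinj : Function.Injective (LinearMap.mulLeft ℂ (⟨S, ha⟩ : A)) := by
    intro X Y hXY
    have h2 : S * (X : Module.End ℂ W) = S * (Y : Module.End ℂ W) := congrArg Subtype.val hXY
    apply Subtype.ext
    have h3 := congrArg (fun X => T * X) h2
    simp only [← mul_assoc, h1, one_mul] at h3
    exact h3
  obtain ⟨X, hX⟩ := (LinearMap.injective_iff_surjective
    (f := LinearMap.mulLeft ℂ (⟨S, ha⟩ : A))).mp hinj (1 : A)
  have h2 : S * (X : Module.End ℂ W) = 1 := congrArg Subtype.val hX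
  have h3 : T = (X : Module.End ℂ W) := by
    have h4 := congrArg (fun X => T * X) h2
    simp only [← mul_assoc, h1, one_mul, mul_one] at h4
    exact h4.symm
  rw [h3]
  exact X.2

theorem Rob_finrank_le' (A : Subalgebra ℂ (Module.End ℂ W)) :
    finrank ℂ A ≤ (finrank ℂ W) ^ 2 := by
  have h1 : finrank ℂ (Subalgebra.toSubmodule A) ≤ finrank ℂ (Module.End ℂ W) :=
    Submodule.finrank_le _
  have h2 : finrank ℂ (Module.End ℂ W) = (finrank ℂ W) ^ 2 := by
    rw [Module.finrank_linearMap, sq]
  rw [h2] at h1
  exact h1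

theorem Rob_finrank_lt' {A B : Subalgebra ℂ (Module.End ℂ W)}
    (h : A < B) : finrank ℂ A < finrank ℂ B := by
  have h1 : Subalgebra.toSubmodule A < Subalgebra.toSubmodule B := by
    refine lt_of_le_of_ne h.le fun h2 => ?_
    exact h.ne (Subalgebra.toSubmodule_injective h2)
  have h2 := Submodule.finrank_lt_finrank_of_lt h1
  exact h2

end abs

variable {G : Type} [Group G] (V : Submodule ℂ (G → ℂ)) (hV : ∀ y : G, ∀ F ∈ V, rtr y F ∈ V)

/-- right translation as an endomorphism of `V` -/
noncomputable def rt (y : G) : Module.End ℂ V := (rtr y).toLinearMap.restrict (hV y)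

/-- the algebra generated by the translations by the elements of `L` -/
noncomputable def alg (L : List G) : Subalgebra ℂ (Module.End ℂ V) :=
  Algebra.adjoin ℂ {T | ∃ y ∈ L, T = rt V hV y}

theorem Rob_rt_one : rt V hV 1 = 1 := by
  apply LinearMap.ext
  intro F
  apply Subtype.ext
  funext x
  show (F : G → ℂ) (x * 1) = (F : G → ℂ) x
  rw [mul_one]

theorem Rob_rt_mul (a b : G) : rt V hV (a * b) = rt V hV a * rt V hV b := by
  apply LinearMap.ext
  intro F
  apply Subtype.ext
  funext x
  show (F : G → ℂ) (x * (a * b)) = (F : G → ℂ) (x * a * b)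
  rw [mul_assoc]

theorem Rob_mem {L : List G} {y : G} (hy : y ∈ L) : rt V hV y ∈ alg V hV L :=
  Algebra.subset_adjoin ⟨y, hy, rfl⟩

/-- A submodule stable under the translations by the elements of `L` is stable under all of
`alg L`; translations by the group generated by `L` are in `alg L` (finite dimension: an injective
element of a finite dimensional algebra has its inverse in it). -/
theorem rt_mem_alg [FiniteDimensional ℂ V] (L : List G) (g : G)
    (hg : g ∈ Subgroup.closure {x | x ∈ L}) : rt V hV g ∈ alg V hV L := by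
  induction hg using Subgroup.closure_induction with
  | mem x hx => exact Rob_mem V hV hx
  | one =>
    rw [Rob_rt_one]
    exact Subalgebra.one_mem _
  | mul a b _ _ ha hb =>
    rw [Rob_rt_mul]
    exact Subalgebra.mul_mem _ ha hb
  | inv a _ ha =>
    have h1 : rt V hV a⁻¹ * rt V hV a = 1 := by
      rw [← Rob_rt_mul, inv_mul_cancel, Rob_rt_one]
    exact Rob_inv _ _ _ ha h1

theorem stable_of_alg_le [FiniteDimensional ℂ V] (L L' : List G) (h : alg V hV L' ≤ alg V hV L)
    (I : Submodule ℂ (G → ℂ)) (hI : I ≤ V) (hL : ∀ y ∈ L, ∀ F ∈ I, rtr y F ∈ I) :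
    ∀ g ∈ Subgroup.closure {x | x ∈ L'}, ∀ F ∈ I, rtr g F ∈ I := by
  intro g hg F hF
  have h1 : rt V hV g ∈ alg V hV L := h (rt_mem_alg V hV L' g hg)
  have h2 : ∀ T ∈ alg V hV L, ∀ F : V, (F : G → ℂ) ∈ I → ((T F : V) : G → ℂ) ∈ I := by
    intro T hT
    unfold alg at hT
    induction hT using Algebra.adjoin_induction with
    | mem T hT =>
      obtain ⟨y, hy, rfl⟩ := hT
      intro F hF
      exact hL y hy F hF
    | algebraMap c =>
      intro F hF
      exact I.smul_mem c hF
    | add S T _ _ hS hT =>
      intro F hF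
      exact I.add_mem (hS F hF) (hT F hF)
    | mul S T _ _ hS hT =>
      intro F hF
      exact hS (T F) (hT F hF)
  exact h2 _ h1 ⟨F, hI hF⟩ hF

theorem Rob_alg_le [FiniteDimensional ℂ V] (L L' : List G)
    (h : Subgroup.closure {x | x ∈ L'} ≤ Subgroup.closure {x | x ∈ L}) :
    alg V hV L' ≤ alg V hV L := by
  unfold alg
  rw [Algebra.adjoin_le_iff]
  rintro T ⟨y, hy, rfl⟩
  exact rt_mem_alg V hV L y (h (Subgroup.subset_closure hy))

theorem Rob_alg_mono [FiniteDimensional ℂ V] {L L' : List G} (h : ∀ x ∈ L', x ∈ L) :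
    alg V hV L' ≤ alg V hV L :=
  Rob_alg_le V hV L L' (Subgroup.closure_mono fun x hx => h x hx)

theorem Rob_alg_eq [FiniteDimensional ℂ V] {L L' : List G} (h : BReach L L') :
    alg V hV L' = alg V hV L :=
  le_antisymm (Rob_alg_le V hV L L' h.closure_eq.le) (Rob_alg_le V hV L' L h.closure_eq.ge)

theorem Rob_finrank_le [FiniteDimensional ℂ V] (A : Subalgebra ℂ (Module.End ℂ V)) :
    finrank ℂ A ≤ (finrank ℂ V) ^ 2 := Rob_finrank_le' A

theorem Rob_finrank_lt [FiniteDimensional ℂ V] {A B : Subalgebra ℂ (Module.End ℂ V)}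
    (h : A < B) : finrank ℂ A < finrank ℂ B := Rob_finrank_lt' h

/-- ROBUST LIST: among the `(P, R)` with `BReach L (P ++ R)` and
`P.length + c * finrank (alg R) ≤ c * (finrank V) ^ 2` take `finrank (alg R)` minimal. -/
theorem exists_robust [FiniteDimensional ℂ V] (L : List G) (c : ℕ) :
    ∃ P R : List G, BReach L (P ++ R) ∧ P.length ≤ c * (finrank ℂ V) ^ 2 ∧
      ∀ U R' : List G, BReach R (U ++ R') → U.length ≤ c → alg V hV R' = alg V hV R := by
  classical
  have hex : ∃ n : ℕ, ∃ P R : List G, BReach L (P ++ R) ∧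
      P.length + c * finrank ℂ (alg V hV R) ≤ c * (finrank ℂ V) ^ 2 ∧
      finrank ℂ (alg V hV R) = n :=
    ⟨_, [], L, BReach.refl L, by
      simp only [List.length_nil, zero_add]
      exact Nat.mul_le_mul_left c (Rob_finrank_le V _), rfl⟩
  obtain ⟨P, R, h1, h2, h3⟩ := Nat.find_spec hex
  refine ⟨P, R, h1, (Nat.le_add_right _ _).trans h2, ?_⟩
  intro U R' hU hUc
  have hle : alg V hV R' ≤ alg V hV R := by
    refine (Rob_alg_mono V hV (L := U ++ R') fun x hx => List.mem_append_right U hx).trans ?_
    exact (Rob_alg_eq V hV hU).le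
  by_contra hne
  have hlt := Rob_finrank_lt V (lt_of_le_of_ne hle hne)
  refine Nat.find_min hex (m := finrank ℂ (alg V hV R')) (by rw [← h3]; exact hlt)
    ⟨P ++ U, R', ?_, ?_, rfl⟩
  · rw [List.append_assoc]
    exact h1.trans (hU.append_left P)
  · rw [List.length_append]
    have h4 : c * finrank ℂ (alg V hV R') + c ≤ c * finrank ℂ (alg V hV R) := by
      calc c * finrank ℂ (alg V hV R') + c = c * (finrank ℂ (alg V hV R') + 1) := by ring
        _ ≤ _ := Nat.mul_le_mul_left c hlt
    omega

theorem Rob_window [FiniteDimensional ℂ V] (R : List G) (k : ℕ) : ∀ U R' : List G,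
    BReach R (U ++ R') → U.length ≤ finrank ℂ (alg V hV U) →
    (finrank ℂ V) ^ 2 ≤ finrank ℂ (alg V hV U) + k →
    ∃ U₂ R₂ : List G, BReach R (U₂ ++ R₂) ∧ U₂.length ≤ finrank ℂ (alg V hV U₂) ∧
      ∀ x ∈ R₂, rt V hV x ∈ alg V hV U₂ := by
  induction k with
  | zero =>
    intro U R' h1 h2 h3
    refine ⟨U, R', h1, h2, fun x hx => ?_⟩
    by_contra hx'
    have hlt : alg V hV U < alg V hV (U ++ [x]) := by
      refine lt_of_le_of_ne (Rob_alg_mono V hV fun y hy => List.mem_append_left _ hy) fun h => ?_
      rw [h] at hx'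
      exact hx' (Rob_mem V hV (by simp))
    have h4 := Rob_finrank_lt V hlt
    have h5 := Rob_finrank_le V (alg V hV (U ++ [x]))
    omega
  | succ k ih =>
    intro U R' h1 h2 h3
    by_cases hall : ∀ x ∈ R', rt V hV x ∈ alg V hV U
    · exact ⟨U, R', h1, h2, hall⟩
    · push Not at hall
      obtain ⟨x, hx, hx'⟩ := hall
      obtain ⟨A, B, rfl⟩ := List.append_of_mem hx
      have hlt : alg V hV U < alg V hV (U ++ [x]) := by
        refine lt_of_le_of_ne (Rob_alg_mono V hV fun y hy => List.mem_append_left _ hy)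
          fun h => ?_
        rw [h] at hx'
        exact hx' (Rob_mem V hV (by simp))
      have h4 := Rob_finrank_lt V hlt
      refine ih (U ++ [x]) (A.map (fun y => x⁻¹ * y * x) ++ B) ?_ ?_ ?_
      · have h5 := ((move_left x A).append_right B).append_left U
        have e1 : U ++ (A ++ [x] ++ B) = U ++ (A ++ x :: B) := by simp
        have e2 : U ++ (x :: A.map (fun y => x⁻¹ * y * x) ++ B) =
            U ++ [x] ++ (A.map (fun y => x⁻¹ * y * x) ++ B) := by simp
        rw [e1, e2] at h5
        exact h1.trans h5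
      · rw [List.length_append]
        simp only [List.length_cons, List.length_nil]
        omega
      · omega

/-- WINDOW: as long as some `x` in `R'` has a translation outside `alg U` move it unchanged to the
end of `U` (`move_left`); `U.length ≤ finrank (alg U)`, `alg U = alg R` at the end because the group
generated by `U ++ R'` is the one generated by `R` (`BReach.closure_eq`, `rt_mem_alg`). -/
theorem exists_window [FiniteDimensional ℂ V] (R : List G) :
    ∃ U R' : List G, BReach R (U ++ R') ∧ U.length ≤ (finrank ℂ V) ^ 2 ∧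
      alg V hV U = alg V hV R := by
  obtain ⟨U, R', h1, h2, h3⟩ := Rob_window V hV R ((finrank ℂ V) ^ 2) [] R (BReach.refl R)
    (Nat.zero_le _) (Nat.le_add_left _ _)
  refine ⟨U, R', h1, h2.trans (Rob_finrank_le V _), ?_⟩
  rw [← Rob_alg_eq V hV h1]
  apply le_antisymm
  · exact Rob_alg_mono V hV fun y hy => List.mem_append_left _ hy
  · show Algebra.adjoin ℂ {T | ∃ y ∈ U ++ R', T = rt V hV y} ≤ _
    rw [Algebra.adjoin_le_iff]
    rintro T ⟨y, hy, rfl⟩
    rcases List.mem_append.mp hy with hy | hy
    · exact Rob_mem V hV hy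
    · exact h3 y hy

/-- WINDOWS: repeat `exists_window` `K` times; the part removed has length at most
`K * (finrank V) ^ 2`, so the rest has the same algebra. -/
theorem exists_windows [FiniteDimensional ℂ V] (R : List G) (K : ℕ)
    (hR : ∀ U R' : List G, BReach R (U ++ R') → U.length ≤ K * (finrank ℂ V) ^ 2 →
      alg V hV R' = alg V hV R) :
    ∃ (Us : List (List G)) (R' : List G), Us.length = K ∧ BReach R (Us.flatten ++ R') ∧
      ∀ U ∈ Us, alg V hV U = alg V hV R := by
  induction K generalizing R with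
  | zero => exact ⟨[], R, rfl, BReach.refl R, by simp⟩
  | succ K ih =>
    obtain ⟨U, R1, h1, h2, h3⟩ := exists_window V hV R
    have h4 : alg V hV R1 = alg V hV R := hR U R1 h1 (by
      rw [Nat.succ_mul]
      exact h2.trans (Nat.le_add_left _ _))
    obtain ⟨Us, R', h5, h6, h7⟩ := ih R1 (by
      intro U' R' hU' hl
      rw [h4]
      refine hR (U ++ U') R' ?_ ?_
      · rw [List.append_assoc]
        exact h1.trans (hU'.append_left U)
      · rw [List.length_append, Nat.succ_mul]
        omega)
    refine ⟨U :: Us, R', by rw [List.length_cons, h5], ?_, ?_⟩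
    · rw [List.flatten_cons, List.append_assoc]
      exact h1.trans (h6.append_left U)
    · intro W hW
      rcases List.mem_cons.mp hW with rfl | hW
      · exact h3
      · rw [h7 W hW, h4]

end Pool.Agent.HZ
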