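import Pool.Agent.HZ.Bound
import Pool.Agent.Helper12.ScChain

/-!
# Functions of bounded degree and words
-/

set_option autoImplicit false

namespace Pool.Agent.HZ

open Helper12.Sc

section
variable {G : Type} [Group G] {ι : Type}

/-- the functions of degree at most one -/
noncomputable def V1 (e : ι → G → ℂ) : Submodule ℂ (G → ℂ) :=
  Submodule.span ℂ (insert 1 (Set.range e))

/-- functions on pairs which are sums of products -/
noncomputable def V11 (e : ι → G → ℂ) : Submodule ℂ (G × G → ℂ) :=
  Submodule.span ℂ {h | ∃ a ∈ V1 e, ∃ b ∈ V1 e, h = fun p => a p.1 * b p.2}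

/-- The functions behave well with respect to multiplication and inversion. -/
structure Good (e : ι → G → ℂ) : Prop where
  mul : ∀ i, (fun p : G × G => e i (p.1 * p.2)) ∈ V11 e
  inv : ∀ i, (fun x : G => e i x⁻¹) ∈ V1 e

theorem one_V1 (e : ι → G → ℂ) : (1 : G → ℂ) ∈ V1 e := Submodule.subset_span (Set.mem_insert _ _)

theorem space_eq (e : ι → G → ℂ) (d : ℕ) : space e d = V1 e ^ d := rfl

theorem space_one (e : ι → G → ℂ) : space e 1 = V1 e := by rw [space_eq, pow_one]

theorem const_space (e : ι → G → ℂ) (c : ℂ) (d : ℕ) : (fun _ => c) ∈ space e d := by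
  have h1 : (1 : G → ℂ) ∈ space e d := by
    have h0 : (1 : G → ℂ) ∈ space e 0 := by
      rw [space_eq, pow_zero]
      exact Submodule.one_le.1 le_rfl
    exact space_mono e (Nat.zero_le d) h0
  have h2 := Submodule.smul_mem (space e d) c h1
  have e1 : (fun _ : G => c) = c • (1 : G → ℂ) := by
    funext x
    simp
  rw [e1]
  exact h2

variable {e : ι → G → ℂ}

theorem Good.mul_mem (h : Good e) (F : G → ℂ) (hF : F ∈ V1 e) :
    (fun p : G × G => F (p.1 * p.2)) ∈ V11 e := by
  unfold V1 at hF
  induction hF using Submodule.span_induction with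
  | mem x hx =>
    rcases hx with rfl | ⟨i, rfl⟩
    · exact Submodule.subset_span ⟨1, one_V1 e, 1, one_V1 e, by funext p; simp⟩
    · exact h.mul i
  | zero => exact Submodule.zero_mem _
  | add a b _ _ ha hb => exact Submodule.add_mem _ ha hb
  | smul c a _ ha => exact Submodule.smul_mem _ c ha

theorem Good.inv_mem (h : Good e) (F : G → ℂ) (hF : F ∈ V1 e) : (fun x : G => F x⁻¹) ∈ V1 e := by
  unfold V1 at hF
  induction hF using Submodule.span_induction with
  | mem x hx =>
    rcases hx with rfl | ⟨i, rfl⟩
    · exact one_V1 e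
    · exact h.inv i
  | zero => exact Submodule.zero_mem _
  | add a b _ _ ha hb => exact Submodule.add_mem _ ha hb
  | smul c a _ ha => exact Submodule.smul_mem _ c ha

/-- composition with a product of two maps -/
theorem Good.comp_mul (h : Good e) {f₁ f₂ : G → G} {a b : ℕ}
    (h₁ : ∀ F ∈ V1 e, (fun u => F (f₁ u)) ∈ space e a)
    (h₂ : ∀ F ∈ V1 e, (fun u => F (f₂ u)) ∈ space e b) :
    ∀ F ∈ V1 e, (fun u => F (f₁ u * f₂ u)) ∈ space e (a + b) := by
  intro F hF
  have key : ∀ H ∈ V11 e, (fun u => H (f₁ u, f₂ u)) ∈ space e (a + b) := by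
    intro H hH
    unfold V11 at hH
    induction hH using Submodule.span_induction with
    | mem x hx =>
      obtain ⟨p, hp, q, hq, rfl⟩ := hx
      rw [← space_mul]
      exact Submodule.mul_mem_mul (h₁ p hp) (h₂ q hq)
    | zero => exact Submodule.zero_mem _
    | add a b _ _ ha hb => exact Submodule.add_mem _ ha hb
    | smul c a _ ha => exact Submodule.smul_mem _ c ha
  exact key _ (h.mul_mem F hF)

/-- composition with a map of degree `a` multiplies degrees by `a` -/
theorem comp_space {f : G → G} {a : ℕ} (h : ∀ F ∈ V1 e, (fun u => F (f u)) ∈ space e a) (d : ℕ)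
    (F : G → ℂ) (hF : F ∈ space e d) : (fun u => F (f u)) ∈ space e (a * d) := by
  let c : (G → ℂ) →ₐ[ℂ] (G → ℂ) :=
    { toFun := fun F u => F (f u)
      map_one' := rfl
      map_mul' := fun _ _ => rfl
      map_zero' := rfl
      map_add' := fun _ _ => rfl
      commutes' := fun _ => rfl }
  have h1 : (V1 e).map c.toLinearMap ≤ space e a := by
    rintro _ ⟨F, hF, rfl⟩
    exact h F hF
  have h2 : (space e d).map c.toLinearMap ≤ space e (a * d) := by
    rw [space_eq, space_eq, Submodule.map_pow, pow_mul]
    exact pow_le_pow_left' h1 d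
  exact h2 (Submodule.mem_map_of_mem hF)

theorem comp_const (g : G) : ∀ F ∈ V1 e, (fun _ : G => F g) ∈ space e 0 :=
  fun F _ => const_space e (F g) 0

theorem comp_id : ∀ F ∈ V1 e, (fun u : G => F u) ∈ space e 1 := by
  intro F hF
  rw [space_one]
  exact hF

theorem Good.comp_inv (h : Good e) : ∀ F ∈ V1 e, (fun u : G => F u⁻¹) ∈ space e 1 := by
  intro F hF
  rw [space_one]
  exact h.inv_mem F hF

/-- right translations preserve the degree -/
theorem Good.rtr_mem (h : Good e) (y : G) (d : ℕ) (F : G → ℂ) (hF : F ∈ space e d) :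
    rtr y F ∈ space e d := by
  have h1 := comp_space (f := fun u => u * y) (a := 1)
    (h.comp_mul (a := 1) (b := 0) comp_id (comp_const y)) d F hF
  rw [one_mul] at h1
  exact h1

/-- Words of length `L` have degree at most `L` in every letter. -/
theorem Good.comp_word (h : Good e) {α : Type} [DecidableEq α] (φ : α → G) (a : α) (L : List (α × Bool)) :
    ∀ F ∈ V1 e, (fun u => F ((L.map fun p => cond p.2 (Function.update φ a u p.1)
      (Function.update φ a u p.1)⁻¹).prod)) ∈ space e L.length := by
  induction L with
  | nil => exact comp_const (1 : G)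
  | cons p L ih =>
    have h1 : ∀ F ∈ V1 e, (fun u => F (cond p.2 (Function.update φ a u p.1)
        (Function.update φ a u p.1)⁻¹)) ∈ space e 1 := by
      intro F hF
      by_cases hp : p.1 = a
      · rcases p with ⟨b, c⟩
        subst hp
        cases c
        · simp only [cond_false, Function.update_self]
          exact h.comp_inv F hF
        · simp only [cond_true, Function.update_self]
          exact comp_id F hF
      · simp only [Function.update_of_ne hp]
        exact const_space e _ 1
    have h2 := h.comp_mul h1 ih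
    intro F hF
    have h3 := h2 F hF
    rw [List.length_cons, add_comm]
    simpa using h3

/-- evaluation of a word as a function of one of the letters -/
theorem Good.lift_mem (h : Good e) {α : Type} [DecidableEq α] (φ : α → G) (a : α) (W : FreeGroup α) (d D : ℕ)
    (hD : W.toWord.length ≤ D) (F : G → ℂ) (hF : F ∈ space e d) :
    (fun u => F (FreeGroup.lift (Function.update φ a u) W)) ∈ space e (D * d) := by
  have h1 := comp_space (h.comp_word φ a W.toWord) d F hF
  have e1 : ∀ u, FreeGroup.lift (Function.update φ a u) W =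
      (W.toWord.map fun p => cond p.2 (Function.update φ a u p.1)
        (Function.update φ a u p.1)⁻¹).prod := by
    intro u
    conv_lhs => rw [← FreeGroup.mk_toWord (x := W)]
    rw [FreeGroup.lift_mk]
  simp only [e1]
  exact space_mono e (Nat.mul_le_mul_right d hD) h1

end

end Pool.Agent.HZ
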