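import Pool.Agent.HZ.Rob
import Pool.Agent.HZ.Space

/-!
# Saturation
-/

set_option autoImplicit false

namespace Pool.Agent.HZ

open Helper12.Sc Module Pointwise

variable {G : Type} [Group G]

/-- the products of elements of the windows, at most one of each -/
def zs (Us : List (List G)) : Set G := prods (Us.map fun U => {x | x ∈ U})

theorem zs_cons (U : List G) (Us : List (List G)) :
    zs (U :: Us) = insert 1 {x | x ∈ U} * zs Us := by
  unfold zs prods
  rw [List.map_cons, List.map_cons, List.prod_cons]

/-- the elements of `zs Us` are products of sublists of the flattened list -/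
theorem zs_sublist (Us : List (List G)) (z : G) (hz : z ∈ zs Us) :
    ∃ S : List G, S.Sublist Us.flatten ∧ S.prod = z := by
  induction Us generalizing z with
  | nil =>
    refine ⟨[], List.Sublist.refl _, ?_⟩
    have h1 : z ∈ (1 : Set G) := hz
    rw [Set.mem_one] at h1
    rw [h1]
    rfl
  | cons U Us ih =>
    rw [zs_cons] at hz
    obtain ⟨x, hx, y, hy, rfl⟩ := hz
    obtain ⟨S, hS, rfl⟩ := ih y hy
    rcases hx with rfl | hx
    · refine ⟨S, ?_, (one_mul _).symm⟩
      rw [List.flatten_cons]
      exact hS.trans (List.sublist_append_right _ _)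
    · refine ⟨[x] ++ S, ?_, by simp⟩
      rw [List.flatten_cons]
      exact List.Sublist.append (List.singleton_sublist.2 hx) hS

/-- Functions of `V` which vanish on the products of the windows vanish on the group generated by
`R`. -/
theorem saturate (V : Submodule ℂ (G → ℂ)) [FiniteDimensional ℂ V]
    (hV : ∀ y : G, ∀ F ∈ V, rtr y F ∈ V) (R : List G) (Us : List (List G))
    (hlen : finrank ℂ V < Us.length) (hU : ∀ U ∈ Us, alg V hV U = alg V hV R)
    (F : G → ℂ) (hF : F ∈ V) (h0 : ∀ z ∈ zs Us, F z = 0) :
    ∀ g ∈ Subgroup.closure {x | x ∈ R}, F g = 0 := by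
  obtain ⟨As, Y, Bs, hY, hstab⟩ := exists_stable V (Us.map fun U => {x | x ∈ U}) (by
    rw [List.length_map]
    exact hlen)
  have hYm : Y ∈ Us.map fun U => {x | x ∈ U} := by
    rw [hY]
    simp
  rw [List.mem_map] at hYm
  obtain ⟨U, hUm, rfl⟩ := hYm
  have hst : ∀ y ∈ U, ∀ F ∈ vanish V (prods As), rtr y F ∈ vanish V (prods As) := by
    intro y hy F hF
    refine ⟨hV y F hF.1, ?_⟩
    intro p hp
    rw [rtr_apply]
    have h1 : F ∈ vanish V (prods (As ++ [{x | x ∈ U}])) := by rw [← hstab]; exact hF
    apply h1.2
    rw [prods_append, prods_singleton]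
    exact ⟨p, hp, y, Set.mem_insert_of_mem _ hy, rfl⟩
  have h1 := stable_of_alg_le V hV U R (le_of_eq (hU U hUm).symm) (vanish V (prods As))
    (vanish_le V _) hst
  intro g hg
  have hFI : F ∈ vanish V (prods As) := by
    refine ⟨hF, fun p hp => h0 p ?_⟩
    unfold zs
    rw [hY]
    exact prods_subset_append As _ hp
  have h2 := (h1 g hg F hFI).2 1 (one_mem_prods As)
  rw [rtr_apply, one_mul] at h2
  exact h2

omit [Group G] in
/-- one variable at a time -/
theorem saturate_all {κ : Type} [Fintype κ] [DecidableEq κ] (V : Submodule ℂ (G → ℂ)) (Z : κ → Set G)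
    (H : Set G) (hsat : ∀ k, ∀ F ∈ V, (∀ z ∈ Z k, F z = 0) → ∀ g ∈ H, F g = 0)
    (Φ : (κ → G) → ℂ) (hΦ : ∀ v : κ → G, ∀ k, (fun u => Φ (Function.update v k u)) ∈ V)
    (h0 : ∀ v : κ → G, (∀ k, v k ∈ Z k) → Φ v = 0) :
    ∀ v : κ → G, (∀ k, v k ∈ H) → Φ v = 0 := by
  have key : ∀ s : Finset κ, ∀ v : κ → G, (∀ k ∈ s, v k ∈ H) → (∀ k ∉ s, v k ∈ Z k) →
      Φ v = 0 := by
    intro s
    induction s using Finset.induction_on with
    | empty =>
      intro v _ hv
      exact h0 v fun k => hv k (Finset.notMem_empty k)
    | insert a s ha ih =>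
      intro v hv1 hv2
      have h1 := hsat a (fun u => Φ (Function.update v a u)) (hΦ v a) (by
        intro z hz
        refine ih (Function.update v a z) ?_ ?_
        · intro k hk
          have hka : k ≠ a := fun h => ha (h ▸ hk)
          rw [Function.update_of_ne hka]
          exact hv1 k (Finset.mem_insert_of_mem hk)
        · intro k hk
          by_cases hka : k = a
          · subst hka
            rw [Function.update_self]
            exact hz
          · rw [Function.update_of_ne hka]
            exact hv2 k (by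
              rw [Finset.mem_insert, not_or]
              exact ⟨hka, hk⟩)) (v a) (hv1 a (Finset.mem_insert_self a s))
      simp only [Function.update_eq_self] at h1
      exact h1
  intro v hv
  exact key Finset.univ v (fun k _ => hv k) (fun k hk => absurd (Finset.mem_univ k) hk)

end Pool.Agent.HZ
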