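import Mathlib

/-!
# Local systems on punctured discs: definitions

The fundamental group of the disc with `n` punctures is the free group on `x_1, ..., x_n`.  The
braid group acts on it; it is generated by the elementary braid moves on lists of elements.
-/

set_option autoImplicit false

namespace Pool.Agent.HZ

open Matrix

/-- The elementary braid moves `(a, b) → (b, b⁻¹ a b)` and `(a, b) → (a b a⁻¹, a)`. -/
inductive BMove {G : Type*} [Group G] : List G → List G → Prop
  | r (P S : List G) (a b : G) : BMove (P ++ a :: b :: S) (P ++ b :: (b⁻¹ * a * b) :: S)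
  | l (P S : List G) (a b : G) : BMove (P ++ a :: b :: S) (P ++ (a * b * a⁻¹) :: a :: S)

/-- the braid group orbit -/
def BReach {G : Type*} [Group G] (L L' : List G) : Prop := Relation.ReflTransGen BMove L L'

/-- the product of the beginning of a list in the orbit -/
def Loop {G : Type*} [Group G] (L : List G) (γ : G) : Prop :=
  ∃ A B : List G, BReach L (A ++ B) ∧ A.prod = γ

/-- the standard generators of the fundamental group of the disc with `n` punctures -/
def std (n : ℕ) : List (FreeGroup (Fin n)) := (List.finRange n).map FreeGroup.of

/-- simple closed curves in the disc with `n` punctures: products of the beginning of a list in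
the braid group orbit of the standard generators -/
def IsSimpleLoop {n : ℕ} (γ : FreeGroup (Fin n)) : Prop := Loop (std n) γ

/-- `β` is the automorphism of the free group given by a braid: the images of the standard
generators are a list in the braid group orbit of the standard generators -/
def IsBraid {n : ℕ} (β : FreeGroup (Fin n) →* FreeGroup (Fin n)) : Prop :=
  BReach (std n) ((std n).map β)

/-- the inclusion of the fundamental group of the subdisc with the punctures in `S`: the
homomorphism of free groups which maps the generators to the `x_i`, `i ∈ S`, in increasing order -/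
noncomputable def inc {n : ℕ} (S : Finset (Fin n)) : FreeGroup (Fin S.card) →* FreeGroup (Fin n) :=
  FreeGroup.map (S.orderEmbOfFin rfl)

variable {r : ℕ}

/-- the braid group orbit of the character of a representation of the free group is finite -/
def FinOrb {n : ℕ} (ρ : FreeGroup (Fin n) →* GL (Fin r) ℂ) : Prop :=
  {χ : FreeGroup (Fin n) → ℂ | ∃ β : FreeGroup (Fin n) →* FreeGroup (Fin n), IsBraid β ∧
    χ = fun γ => (ρ (β γ) : Matrix (Fin r) (Fin r) ℂ).trace}.Finite

/-- all eigenvalues are roots of unity -/
def Quasi (g : GL (Fin r) ℂ) : Prop :=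
  ∀ z : ℂ, (g : Matrix (Fin r) (Fin r) ℂ).charpoly.IsRoot z → ∃ k > 0, z ^ k = 1

/-- a subspace stable under a subgroup -/
def Stab (Γ : Subgroup (GL (Fin r) ℂ)) (W : Submodule ℂ (Fin r → ℂ)) : Prop :=
  ∀ γ ∈ Γ, ∀ v ∈ W, (γ : Matrix (Fin r) (Fin r) ℂ) *ᵥ v ∈ W

/-- complete reducibility -/
def CRed (Γ : Subgroup (GL (Fin r) ℂ)) : Prop :=
  ∀ W : Submodule ℂ (Fin r → ℂ), Stab Γ W → ∃ W', Stab Γ W' ∧ IsCompl W W'

end Pool.Agent.HZ
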