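import Pool.Agent.HZ.Stm

/-!
# Local systems on punctured discs: irreducible and virtually abelian groups
-/

set_option autoImplicit false

namespace Pool.Agent.HZ

variable {r : ℕ}

/-- irreducibility -/
def Irr (Γ : Subgroup (GL (Fin r) ℂ)) : Prop := ∀ W, Stab Γ W → W = ⊥ ∨ W = ⊤

/-- virtually abelian groups -/
def VirtAb (Γ : Subgroup (GL (Fin r) ℂ)) : Prop :=
  ∃ A : Subgroup Γ, A.FiniteIndex ∧ ∀ a ∈ A, ∀ b ∈ A, a * b = b * a

end Pool.Agent.HZ
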