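import Pool.Agent.HZ.Stm2

/-!
# Local systems on punctured discs: induced representations
-/

set_option autoImplicit false

namespace Pool.Agent.HZ

open Matrix
open scoped Kronecker

variable {r : ℕ}

/-- `ρ` is induced from the tensor product `β ⊗ α` of two representations of the subgroup `H`: the
space of `β ⊗ α` is embedded `H`-equivariantly into the space of `ρ`, its translates span this
space, and the dimensions are those of an induced representation. -/
def IndTensor {F : Type} [Group F] (ρ : F →* GL (Fin r) ℂ) (H : Subgroup F) {e d : ℕ}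
    (β : H →* GL (Fin e) ℂ) (α : H →* GL (Fin d) ℂ) : Prop :=
  H.index * (e * d) = r ∧ ∃ ι : (Fin e × Fin d → ℂ) →ₗ[ℂ] (Fin r → ℂ), Function.Injective ι ∧
    (∀ (h : H) v, (ρ h : Matrix (Fin r) (Fin r) ℂ) *ᵥ ι v =
      ι (((β h : Matrix (Fin e) (Fin e) ℂ) ⊗ₖ (α h : Matrix (Fin d) (Fin d) ℂ)) *ᵥ v)) ∧
    ∀ W : Submodule ℂ (Fin r → ℂ),
      (∀ g v, (ρ g : Matrix (Fin r) (Fin r) ℂ) *ᵥ ι v ∈ W) → W = ⊤

end Pool.Agent.HZ
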